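import Mathlib

set_option autoImplicit false

/-! Statements for the lower bound for parallelogram quadruples of primes over arbitrary sparse sets. -/

namespace Pool.Agent.Helper34K9.PQ

open Finset

/-- the primes up to `y` -/
def primes (y : ℕ) : Finset ℕ := (Icc 1 y).filter Nat.Prime

open Classical in
/-- the number of the residues `c` modulo `p` for which `p` divides one of the `c + s i` -/
noncomputable def nu (s : Fin 4 → ℕ) (p : ℕ) : ℕ := ((range p).filter (fun c => ∃ i, p ∣ c + s i)).card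

/-- the product of `1 - nu / p` -/
noncomputable def PV (y : ℕ) (s : Fin 4 → ℕ) : ℝ := ∏ p ∈ primes y, (1 - (nu s p : ℝ) / p)

/-- the product of `1 - 1 / p` -/
noncomputable def V (y : ℕ) : ℝ := ∏ p ∈ primes y, (1 - 1 / (p : ℝ))

/-- the truncated singular series -/
noncomputable def SS (y : ℕ) (s : Fin 4 → ℕ) : ℝ := PV y s / V y ^ 4

/-- no prime factor up to `y` -/
def Rough (y m : ℕ) : Prop := ∀ p ∈ primes y, ¬ p ∣ m

/-- the four shifts -/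
def sh (a a' b b' : ℕ) : Fin 4 → ℕ := ![a + b, a' + b, a + b', a' + b']

/-- the pattern with the differences `d` and `e` -/
def pat (d e : ℕ) : Fin 4 → ℕ := ![0, d, e, d + e]

/-- the sieving limit, about `log X` -/
noncomputable def ww (X : ℕ) : ℕ := ⌈Real.log X⌉₊

/-- the sum over the parallelograms -/
def Q4 (I A B : Finset ℕ) (f1 f2 f3 f4 : ℕ → ℝ) : ℝ :=
  ∑ n ∈ I, ∑ a ∈ A, ∑ a' ∈ A, ∑ b ∈ B, ∑ b' ∈ B,
    f1 (n + (a + b)) * f2 (n + (a' + b)) * f3 (n + (a + b')) * f4 (n + (a' + b'))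

/-- the quadruples `(a, a', b, b')` which give four different shifts -/
def fam (A B : Finset ℕ) : Finset (ℕ × ℕ × ℕ × ℕ) :=
  (A ×ˢ A ×ˢ B ×ˢ B).filter (fun q => q.1 ≠ q.2.1 ∧ q.2.2.1 ≠ q.2.2.2 ∧ Nat.dist q.1 q.2.1 ≠ Nat.dist q.2.2.1 q.2.2.2)

/-- (GCS) the inequality of Cauchy, Schwarz and Gowers -/
def S_GCS : Prop := ∀ (I A B : Finset ℕ) (f g : ℕ → ℝ), Q4 I A B f g g g ^ 4 ≤ Q4 I A B f f f f * Q4 I A B g g g g ^ 3

/-- (BOX) the case of `g = 1` -/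
def S_BOX : Prop := ∀ (I A B : Finset ℕ) (f : ℕ → ℝ),
  (∑ n ∈ I, ∑ a ∈ A, ∑ b ∈ B, f (n + (a + b))) ^ 4 ≤ (I.card : ℝ) ^ 3 * (A.card : ℝ) ^ 2 * (B.card : ℝ) ^ 2 * Q4 I A B f f f f

/-- (DEG) the degenerate quadruples do not matter -/
def S_DEG : Prop := ∀ (I A B : Finset ℕ) (f : ℕ → ℝ), (∀ m, f m = 0 ∨ f m = 1) →
  Q4 I A B f f f f - ((B.card : ℝ) + 3 * A.card) * √(Q4 I A B f f f f * I.card) ≤
    ∑ n ∈ I, ∑ q ∈ fam A B, f (n + (q.1 + q.2.2.1)) * f (n + (q.2.1 + q.2.2.1)) * f (n + (q.1 + q.2.2.2)) *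
      f (n + (q.2.1 + q.2.2.2))

/-- (INV) the number of classes depends on the differences only -/
def S_INV : Prop := ∀ a a' b b' p : ℕ, 1 ≤ p → nu (sh a a' b b') p = nu (pat (Nat.dist a a') (Nat.dist b b')) p

open Classical in
/-- (CNT) counting by the least element -/
def S_CNT : Prop := ∀ a a' b b' m₀ m₁ X : ℕ, m₁ + (a + b) ≤ X → m₁ + (a' + b') ≤ X → m₁ + (a' + b) ≤ X → m₁ + (a + b') ≤ X →
  ((Ioc m₀ m₁).filter (fun n => ∀ i, (n + sh a a' b b' i).Prime)).card ≤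
    ((Icc 1 X).filter (fun p => ∀ i, (p + pat (Nat.dist a a') (Nat.dist b b') i).Prime)).card

open Classical in
/-- (U4) rough quadruples, from above -/
def S_U4 : Prop := ∀ ε : ℝ, 0 < ε → ∃ X₀ : ℕ, ∀ X : ℕ, X₀ ≤ X → ∀ m₀ m₁ : ℕ, m₀ ≤ m₁ → ε * X ≤ (m₁ : ℝ) - m₀ → ∀ s : Fin 4 → ℕ,
  (((Ioc m₀ m₁).filter (fun n => ∀ i, Rough (ww X) (n + s i))).card : ℝ) ≤ (1 + ε) * ((m₁ : ℝ) - m₀) * PV (ww X) s

open Classical in
/-- (L1) one prime and three rough numbers, from below -/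
def S_L1 : Prop := ∀ ε : ℝ, 0 < ε → ∃ X₀ : ℕ, ∀ X : ℕ, X₀ ≤ X → ∀ m₀ m₁ : ℕ, ε * X ≤ m₀ → (m₀ : ℝ) + ε * X ≤ m₁ → m₁ ≤ X →
  ∀ s : Fin 4 → ℕ, (∀ i, s i ≤ X) →
  (1 - ε) * (((m₁ : ℝ) - m₀) / Real.log X) * (PV (ww X) s / V (ww X)) ≤
    (((Ioc m₀ m₁).filter (fun n => (n + s 0).Prime ∧ ∀ i, Rough (ww X) (n + s i) ∨ i = 0)).card : ℝ)

open Classical in
/-- (UP) quadruples of primes, from above -/
def S_UP : Prop := ∃ C : ℝ, 0 < C ∧ ∃ X₀ : ℕ, ∀ X : ℕ, X₀ ≤ X → ∃ z : ℕ, Real.log X ≤ z ∧ ∀ s : Fin 4 → ℕ,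
  (((Icc 1 X).filter (fun n => ∀ i, (n + s i).Prime)).card : ℝ) ≤ C * (X / Real.log X ^ 4) * SS z s + 8 * √X

/-- (TAIL) the singular series and its truncations -/
def S_TAIL : Prop := ∀ ε : ℝ, 0 < ε → ∃ X₀ : ℕ, ∀ X : ℕ, X₀ ≤ X → ∀ y z : ℕ, Real.log X ≤ y → Real.log X ≤ z →
  ∀ d e : ℕ, 0 < d → 0 < e → d ≠ e → d ≤ X → e ≤ X → SS z (pat d e) ≤ (1 + ε) * SS y (pat d e)

end Pool.Agent.Helper34K9.PQ
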