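import Mathlib
import Pool.Agent.Helper34K9.PQ.Stm

/-!
# [INV]: the number of classes depends on the differences only
-/

set_option autoImplicit false

namespace Pool.Agent.Helper34K9.PQ.H48

open Finset

/-- `nu` as the size of a set of residues -/
theorem nu_eq (s : Fin 4 → ℕ) (p : ℕ) (hp : 1 ≤ p) :
    nu s p = (univ.image (fun i : Fin 4 => (-(s i : ZMod p) : ZMod p))).card := by
  classical
  have : NeZero p := ⟨by omega⟩
  unfold nu
  have hinj : Set.InjOn (fun c : ℕ => (c : ZMod p))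
      ((range p).filter (fun c => ∃ i, p ∣ c + s i) : Finset ℕ) := by
    intro a ha b hb hab
    have ha' := Finset.mem_range.1 (Finset.mem_filter.1 (Finset.mem_coe.1 ha)).1
    have hb' := Finset.mem_range.1 (Finset.mem_filter.1 (Finset.mem_coe.1 hb)).1
    have := (ZMod.natCast_eq_natCast_iff a b p).1 hab
    exact Nat.ModEq.eq_of_lt_of_lt this ha' hb'
  rw [← Finset.card_image_of_injOn hinj]
  congr 1
  ext z
  rw [Finset.mem_image, Finset.mem_image]
  constructor
  · rintro ⟨c, hc, rfl⟩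
    obtain ⟨i, hi⟩ := (Finset.mem_filter.1 hc).2
    refine ⟨i, Finset.mem_univ _, ?_⟩
    have h := (ZMod.natCast_eq_zero_iff (c + s i) p).2 hi
    rw [Nat.cast_add] at h
    exact (eq_neg_of_add_eq_zero_left h).symm
  · rintro ⟨i, _, rfl⟩
    refine ⟨(-(s i : ZMod p) : ZMod p).val, Finset.mem_filter.2
      ⟨Finset.mem_range.2 (ZMod.val_lt _), i, ?_⟩, ZMod.natCast_zmod_val _⟩
    rw [← ZMod.natCast_eq_zero_iff, Nat.cast_add, ZMod.natCast_zmod_val]
    ring

theorem nu_le_four (s : Fin 4 → ℕ) (p : ℕ) (hp : 1 ≤ p) : nu s p ≤ 4 := by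
  rw [nu_eq s p hp]
  exact Finset.card_image_le.trans (by simp)

theorem nu_le (s : Fin 4 → ℕ) (p : ℕ) : nu s p ≤ p := by
  classical
  unfold nu
  exact (Finset.card_filter_le _ _).trans (by simp)

/-- the shifts are a translate of the pattern, in some order -/
theorem sh_perm (a a' b b' : ℕ) : ∃ (m : ℕ) (σ : Fin 4 → Fin 4), Function.Bijective σ ∧
    (∀ i, sh a a' b b' i = m + pat (Nat.dist a a') (Nat.dist b b') (σ i)) ∧
    m ≤ a + b ∧ m ≤ a' + b ∧ m ≤ a + b' ∧ m ≤ a' + b' := by
  rcases le_total a a' with h | h <;> rcases le_total b b' with h' | h'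
  · refine ⟨a + b, ![0, 1, 2, 3], by decide, ?_, by omega, by omega, by omega, by omega⟩
    intro i
    rw [Nat.dist_eq_sub_of_le h, Nat.dist_eq_sub_of_le h']
    fin_cases i <;> simp [sh, pat] <;> omega
  · refine ⟨a + b', ![2, 3, 0, 1], by decide, ?_, by omega, by omega, by omega, by omega⟩
    intro i
    rw [Nat.dist_eq_sub_of_le h, Nat.dist_eq_sub_of_le_right h']
    fin_cases i <;> simp [sh, pat] <;> omega
  · refine ⟨a' + b, ![1, 0, 3, 2], by decide, ?_, by omega, by omega, by omega, by omega⟩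
    intro i
    rw [Nat.dist_eq_sub_of_le_right h, Nat.dist_eq_sub_of_le h']
    fin_cases i <;> simp [sh, pat] <;> omega
  · refine ⟨a' + b', ![3, 2, 1, 0], by decide, ?_, by omega, by omega, by omega, by omega⟩
    intro i
    rw [Nat.dist_eq_sub_of_le_right h, Nat.dist_eq_sub_of_le_right h']
    fin_cases i <;> simp [sh, pat] <;> omega

theorem inv_main : S_INV := by
  classical
  intro a a' b b' p hp
  rw [nu_eq _ p hp, nu_eq _ p hp]
  obtain ⟨m, σ, hσ, h, -⟩ := sh_perm a a' b b'
  have h1 : univ.image (fun i : Fin 4 => (-(sh a a' b b' i : ZMod p) : ZMod p)) =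
      (univ.image (fun i : Fin 4 =>
        (-(pat (Nat.dist a a') (Nat.dist b b') i : ZMod p) : ZMod p))).image
        (fun z => z - (m : ZMod p)) := by
    ext z
    simp only [Finset.mem_image, Finset.mem_univ, true_and]
    constructor
    · rintro ⟨i, rfl⟩
      refine ⟨_, ⟨σ i, rfl⟩, ?_⟩
      rw [h i, Nat.cast_add]
      ring
    · rintro ⟨_, ⟨j, rfl⟩, rfl⟩
      obtain ⟨i, rfl⟩ := hσ.2 j
      refine ⟨i, ?_⟩
      rw [h i, Nat.cast_add]
      ring
  rw [h1]
  exact Finset.card_image_of_injective _ (sub_left_injective)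

end Pool.Agent.Helper34K9.PQ.H48

namespace Pool.Agent.Helper34K9.PQ

/-- [INV] -/
theorem inv : S_INV := H48.inv_main

end Pool.Agent.Helper34K9.PQ
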