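import Mathlib
import Pool.Agent.Helper34K9.PQ.Inv

/-!
# [CNT]: counting by the least element
-/

set_option autoImplicit false

namespace Pool.Agent.Helper34K9.PQ.H48

open Finset

theorem cnt_main : S_CNT := by
  classical
  intro a a' b b' m₀ m₁ X h1 h2 h3 h4
  obtain ⟨m, σ, hσ, h, hm1, hm2, hm3, hm4⟩ := sh_perm a a' b b'
  refine Finset.card_le_card_of_injOn (fun n => n + m) ?_ ?_
  · intro n hn
    obtain ⟨hn1, hn2⟩ := Finset.mem_filter.1 (Finset.mem_coe.1 hn)
    rw [Finset.mem_Ioc] at hn1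
    refine Finset.mem_coe.2 (Finset.mem_filter.2 ⟨Finset.mem_Icc.2 ⟨?_, ?_⟩, ?_⟩)
    · show 1 ≤ n + m
      omega
    · show n + m ≤ X
      omega
    · intro i
      obtain ⟨j, rfl⟩ := hσ.2 i
      have := hn2 j
      rw [h j] at this
      have e : n + m + pat (Nat.dist a a') (Nat.dist b b') (σ j) =
        n + (m + pat (Nat.dist a a') (Nat.dist b b') (σ j)) := by ring
      show (n + m + pat (Nat.dist a a') (Nat.dist b b') (σ j)).Prime
      rw [e]
      exact this
  · intro n _ n' _ hnn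
    have : n + m = n' + m := hnn
    omega

end Pool.Agent.Helper34K9.PQ.H48

namespace Pool.Agent.Helper34K9.PQ

/-- [CNT] -/
theorem cnt : S_CNT := H48.cnt_main

end Pool.Agent.Helper34K9.PQ
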