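import Pool.Agent.Helper34K9.PQ.Gcs

/-!
PQ (MP_092512_nt): the leaf DEG (degenerate quadruples).
-/

set_option autoImplicit false

namespace Pool.Agent.Helper34K9.PQ

open Finset

namespace DegL

open GcsL

/-- At most one index. -/
theorem one_index (B : Finset ℕ) (c : ℕ → Prop) [DecidablePred c] (P : ℕ → ℝ) (X : ℝ)
    (hc : ∀ b b', c b → c b' → b = b') (hP : ∀ b, P b ≤ X) (hX : 0 ≤ X) :
    ∑ b ∈ B, (if c b then P b else 0) ≤ X := by
  by_cases h : ∃ b ∈ B, c b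
  · obtain ⟨b0, hb0, hcb0⟩ := h
    rw [sum_eq_single b0]
    · rw [if_pos hcb0]; exact hP b0
    · intro b _ hb
      rw [if_neg]
      intro hcb
      exact hb (hc b b0 hcb hcb0)
    · intro hb; exact absurd hb0 hb
  · rw [sum_eq_zero]
    · exact hX
    · intro b hb
      rw [if_neg]
      intro hcb
      exact h ⟨b, hb, hcb⟩

theorem le_sqrt_of_sq {Q T I K : ℝ} (hK : 0 ≤ K) (h : Q ^ 2 ≤ I * K ^ 2 * T) :
    Q ≤ K * √(T * I) := by
  have h1 : Q ≤ √(Q ^ 2) := by rw [Real.sqrt_sq_eq_abs]; exact le_abs_self _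
  have h2 : √(Q ^ 2) ≤ √(K ^ 2 * (T * I)) := Real.sqrt_le_sqrt (by linarith)
  have h3 : √(K ^ 2 * (T * I)) = K * √(T * I) := by
    rw [Real.sqrt_mul (sq_nonneg K), Real.sqrt_sq hK]
  linarith

variable (I A B : Finset ℕ) (f : ℕ → ℝ)

theorem qb_bound : ∑ n ∈ I, ∑ b ∈ B, ∑ b' ∈ B, ∑ a ∈ A, f (n + (a + b)) * f (n + (a + b')) ≤
    B.card * √(Q4 I A B f f f f * I.card) := by
  apply le_sqrt_of_sq (by positivity)
  have h := sum_mul_sq_le_sq_mul_sq (I ×ˢ (B ×ˢ B)) (fun _ : ℕ × ℕ × ℕ => (1 : ℝ))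
    (fun t : ℕ × ℕ × ℕ => ∑ a ∈ A, f (t.1 + (a + t.2.1)) * f (t.1 + (a + t.2.2)))
  have e1 : ∑ t ∈ I ×ˢ (B ×ˢ B), (1 : ℝ) *
      (∑ a ∈ A, f (t.1 + (a + t.2.1)) * f (t.1 + (a + t.2.2))) =
      ∑ n ∈ I, ∑ b ∈ B, ∑ b' ∈ B, ∑ a ∈ A, f (n + (a + b)) * f (n + (a + b')) := by
    rw [sum_product]
    apply sum_congr rfl
    intro n _
    rw [sum_product]
    simp only [one_mul]
  have e2 : ∑ t ∈ I ×ˢ (B ×ˢ B),
      (∑ a ∈ A, f (t.1 + (a + t.2.1)) * f (t.1 + (a + t.2.2))) ^ 2 = Q4 I A B f f f f := by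
    rw [q4_col]
    apply sum_congr rfl
    intro t _
    rw [pow_two]
  have e3 : ∑ _t ∈ I ×ˢ (B ×ˢ B), (1 : ℝ) ^ 2 = (I.card : ℝ) * (B.card : ℝ) ^ 2 := by
    rw [sum_const, card_product, card_product, nsmul_eq_mul]
    push_cast
    ring
  rw [e1, e2, e3] at h
  exact h

theorem qa_bound : ∑ n ∈ I, ∑ a ∈ A, ∑ a' ∈ A, ∑ b ∈ B, f (n + (a + b)) * f (n + (a' + b)) ≤
    A.card * √(Q4 I A B f f f f * I.card) := by
  apply le_sqrt_of_sq (by positivity)
  have h := sum_mul_sq_le_sq_mul_sq (I ×ˢ (A ×ˢ A)) (fun _ : ℕ × ℕ × ℕ => (1 : ℝ))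
    (fun t : ℕ × ℕ × ℕ => ∑ b ∈ B, f (t.1 + (t.2.1 + b)) * f (t.1 + (t.2.2 + b)))
  have e1 : ∑ t ∈ I ×ˢ (A ×ˢ A), (1 : ℝ) *
      (∑ b ∈ B, f (t.1 + (t.2.1 + b)) * f (t.1 + (t.2.2 + b))) =
      ∑ n ∈ I, ∑ a ∈ A, ∑ a' ∈ A, ∑ b ∈ B, f (n + (a + b)) * f (n + (a' + b)) := by
    rw [sum_product]
    apply sum_congr rfl
    intro n _
    rw [sum_product]
    simp only [one_mul]
  have e2 : ∑ t ∈ I ×ˢ (A ×ˢ A),
      (∑ b ∈ B, f (t.1 + (t.2.1 + b)) * f (t.1 + (t.2.2 + b))) ^ 2 = Q4 I A B f f f f := by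
    rw [q4_row]
    apply sum_congr rfl
    intro t _
    rw [pow_two]
  have e3 : ∑ _t ∈ I ×ˢ (A ×ˢ A), (1 : ℝ) ^ 2 = (I.card : ℝ) * (A.card : ℝ) ^ 2 := by
    rw [sum_const, card_product, card_product, nsmul_eq_mul]
    push_cast
    ring
  rw [e1, e2, e3] at h
  exact h

end DegL

open GcsL DegL in
theorem deg : S_DEG := by
  classical
  intro I A B f hf
  have f0 : ∀ m, 0 ≤ f m := fun m => by rcases hf m with h | h <;> rw [h] <;> norm_num
  have f1 : ∀ m, f m ≤ 1 := fun m => by rcases hf m with h | h <;> rw [h] <;> norm_num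
  have hb := qb_bound I A B f
  have ha := qa_bound I A B f
  set T := Q4 I A B f f f f with hT
  set R := √(T * I.card) with hR
  set P : ℕ → ℕ → ℕ → ℕ → ℕ → ℝ := fun n a a' b b' =>
    f (n + (a + b)) * f (n + (a' + b)) * f (n + (a + b')) * f (n + (a' + b')) with hP
  have P0 : ∀ n a a' b b', 0 ≤ P n a a' b b' := fun n a a' b b' =>
    mul_nonneg (mul_nonneg (mul_nonneg (f0 _) (f0 _)) (f0 _)) (f0 _)
  -- two bounds of the product
  have Pb : ∀ n a a' b b', P n a a' b b' ≤ f (n + (a + b)) * f (n + (a + b')) := by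
    intro n a a' b b'
    have h1 := f0 (n + (a + b))
    have h2 := f0 (n + (a + b'))
    have h3 := f0 (n + (a' + b))
    have h4 := f0 (n + (a' + b'))
    have h5 : f (n + (a' + b)) * f (n + (a' + b')) ≤ 1 := by
      calc f (n + (a' + b)) * f (n + (a' + b')) ≤ 1 * 1 :=
            mul_le_mul (f1 _) (f1 _) h4 zero_le_one
        _ = 1 := one_mul 1
    calc P n a a' b b' = (f (n + (a + b)) * f (n + (a + b'))) *
          (f (n + (a' + b)) * f (n + (a' + b'))) := by rw [hP]; ring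
      _ ≤ (f (n + (a + b)) * f (n + (a + b'))) * 1 :=
          mul_le_mul_of_nonneg_left h5 (mul_nonneg h1 h2)
      _ = _ := mul_one _
  have Pa : ∀ n a a' b b', P n a a' b b' ≤ f (n + (a + b)) * f (n + (a' + b)) := by
    intro n a a' b b'
    have h1 := f0 (n + (a + b))
    have h2 := f0 (n + (a + b'))
    have h3 := f0 (n + (a' + b))
    have h4 := f0 (n + (a' + b'))
    have h5 : f (n + (a + b')) * f (n + (a' + b')) ≤ 1 := by
      calc f (n + (a + b')) * f (n + (a' + b')) ≤ 1 * 1 :=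
            mul_le_mul (f1 _) (f1 _) h4 zero_le_one
        _ = 1 := one_mul 1
    calc P n a a' b b' = (f (n + (a + b)) * f (n + (a' + b))) *
          (f (n + (a + b')) * f (n + (a' + b'))) := by rw [hP]; ring
      _ ≤ (f (n + (a + b)) * f (n + (a' + b))) * 1 :=
          mul_le_mul_of_nonneg_left h5 (mul_nonneg h1 h3)
      _ = _ := mul_one _
  -- the sum over the family
  have hfam : ∑ n ∈ I, ∑ q ∈ fam A B, f (n + (q.1 + q.2.2.1)) * f (n + (q.2.1 + q.2.2.1)) *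
      f (n + (q.1 + q.2.2.2)) * f (n + (q.2.1 + q.2.2.2)) =
      ∑ n ∈ I, ∑ a ∈ A, ∑ a' ∈ A, ∑ b ∈ B, ∑ b' ∈ B,
        (if a ≠ a' ∧ b ≠ b' ∧ Nat.dist a a' ≠ Nat.dist b b' then P n a a' b b' else 0) := by
    apply sum_congr rfl
    intro n _
    unfold fam
    rw [sum_filter, sum_product]
    apply sum_congr rfl
    intro a _
    rw [sum_product]
    apply sum_congr rfl
    intro a' _
    rw [sum_product]
  have hTe : T = ∑ n ∈ I, ∑ a ∈ A, ∑ a' ∈ A, ∑ b ∈ B, ∑ b' ∈ B, P n a a' b b' := rfl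
  -- the pointwise bound
  have hpt : ∀ n a a' b b', P n a a' b b' ≤
      (if a ≠ a' ∧ b ≠ b' ∧ Nat.dist a a' ≠ Nat.dist b b' then P n a a' b b' else 0) +
      (if a = a' then P n a a' b b' else 0) + (if b = b' then P n a a' b b' else 0) +
      (if a + b' = a' + b then P n a a' b b' else 0) +
      (if a + b = a' + b' then P n a a' b b' else 0) := by
    intro n a a' b b'
    have hp := P0 n a a' b b'
    have n1 : ∀ (c : Prop) [Decidable c], 0 ≤ (if c then P n a a' b b' else 0) := by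
      intro c _
      split_ifs
      · exact hp
      · exact le_rfl
    by_cases h1 : a = a'
    · have := n1 (a ≠ a' ∧ b ≠ b' ∧ Nat.dist a a' ≠ Nat.dist b b')
      have := n1 (b = b')
      have := n1 (a + b' = a' + b)
      have := n1 (a + b = a' + b')
      rw [if_pos h1]
      linarith
    by_cases h2 : b = b'
    · have := n1 (a ≠ a' ∧ b ≠ b' ∧ Nat.dist a a' ≠ Nat.dist b b')
      have := n1 (a = a')
      have := n1 (a + b' = a' + b)
      have := n1 (a + b = a' + b')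
      rw [if_pos h2]
      linarith
    by_cases h3 : Nat.dist a a' = Nat.dist b b'
    · have h4 : a + b' = a' + b ∨ a + b = a' + b' := by
        unfold Nat.dist at h3
        omega
      rcases h4 with h4 | h4
      · have := n1 (a ≠ a' ∧ b ≠ b' ∧ Nat.dist a a' ≠ Nat.dist b b')
        have := n1 (a = a')
        have := n1 (b = b')
        have := n1 (a + b = a' + b')
        rw [if_pos h4]
        linarith
      · have := n1 (a ≠ a' ∧ b ≠ b' ∧ Nat.dist a a' ≠ Nat.dist b b')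
        have := n1 (a = a')
        have := n1 (b = b')
        have := n1 (a + b' = a' + b)
        rw [if_pos h4]
        linarith
    · have := n1 (a = a')
      have := n1 (b = b')
      have := n1 (a + b' = a' + b)
      have := n1 (a + b = a' + b')
      rw [if_pos (show a ≠ a' ∧ b ≠ b' ∧ Nat.dist a a' ≠ Nat.dist b b' from ⟨h1, h2, h3⟩)]
      linarith
  -- the four sums
  have s1 : ∑ n ∈ I, ∑ a ∈ A, ∑ a' ∈ A, ∑ b ∈ B, ∑ b' ∈ B,
      (if a = a' then P n a a' b b' else 0) ≤ B.card * R := by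
    refine le_trans ?_ hb
    apply sum_le_sum
    intro n _
    rw [← sum4 A B (fun a a' b b' => if a = a' then P n a a' b b' else 0)]
    apply sum_le_sum
    intro b _
    apply sum_le_sum
    intro b' _
    apply sum_le_sum
    intro a _
    exact one_index A (fun a' => a = a') (fun a' => P n a a' b b') _
      (fun x y hx hy => hx.symm.trans hy) (fun a' => Pb n a a' b b') (mul_nonneg (f0 _) (f0 _))
  have s234 : ∀ (c : ℕ → ℕ → ℕ → ℕ → Prop) [∀ a a' b b', Decidable (c a a' b b')],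
      (∀ a a' b x y, c a a' b x → c a a' b y → x = y) →
      ∑ n ∈ I, ∑ a ∈ A, ∑ a' ∈ A, ∑ b ∈ B, ∑ b' ∈ B,
        (if c a a' b b' then P n a a' b b' else 0) ≤ A.card * R := by
    intro c _ hc
    refine le_trans ?_ ha
    apply sum_le_sum
    intro n _
    apply sum_le_sum
    intro a _
    apply sum_le_sum
    intro a' _
    apply sum_le_sum
    intro b _
    exact one_index B (fun b' => c a a' b b') (fun b' => P n a a' b b') _
      (fun x y hx hy => hc a a' b x y hx hy) (fun b' => Pa n a a' b b')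
      (mul_nonneg (f0 _) (f0 _))
  have s2 := s234 (fun _ _ b b' => b = b') (fun _ _ _ x y hx hy => hx.symm.trans hy)
  have s3 := s234 (fun a a' b b' => a + b' = a' + b) (fun a a' b x y hx hy => by omega)
  have s4 := s234 (fun a a' b b' => a + b = a' + b') (fun a a' b x y hx hy => by omega)
  have htot : T ≤ (∑ n ∈ I, ∑ a ∈ A, ∑ a' ∈ A, ∑ b ∈ B, ∑ b' ∈ B,
        (if a ≠ a' ∧ b ≠ b' ∧ Nat.dist a a' ≠ Nat.dist b b' then P n a a' b b' else 0)) +
      (∑ n ∈ I, ∑ a ∈ A, ∑ a' ∈ A, ∑ b ∈ B, ∑ b' ∈ B,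
        (if a = a' then P n a a' b b' else 0)) +
      (∑ n ∈ I, ∑ a ∈ A, ∑ a' ∈ A, ∑ b ∈ B, ∑ b' ∈ B,
        (if b = b' then P n a a' b b' else 0)) +
      (∑ n ∈ I, ∑ a ∈ A, ∑ a' ∈ A, ∑ b ∈ B, ∑ b' ∈ B,
        (if a + b' = a' + b then P n a a' b b' else 0)) +
      (∑ n ∈ I, ∑ a ∈ A, ∑ a' ∈ A, ∑ b ∈ B, ∑ b' ∈ B,
        (if a + b = a' + b' then P n a a' b b' else 0)) := by
    rw [hTe]
    simp only [← sum_add_distrib]
    exact sum_le_sum (fun n _ => sum_le_sum (fun a _ => sum_le_sum (fun a' _ =>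
      sum_le_sum (fun b _ => sum_le_sum (fun b' _ => hpt n a a' b b')))))
  rw [hfam]
  have e : ((B.card : ℝ) + 3 * A.card) * R = B.card * R + A.card * R + A.card * R + A.card * R := by
    ring
  rw [e]
  linarith

end Pool.Agent.Helper34K9.PQ
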