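import Pool.Agent.Helper34K9.PQ.Stm

/-!
PQ (MP_092512_nt): the leaves GCS and BOX (the inequality of Cauchy, Schwarz and Gowers).
-/

set_option autoImplicit false

namespace Pool.Agent.Helper34K9.PQ

open Finset

namespace GcsL

theorem sum4 (A B : Finset ℕ) (G : ℕ → ℕ → ℕ → ℕ → ℝ) :
    ∑ b ∈ B, ∑ b' ∈ B, ∑ a ∈ A, ∑ a' ∈ A, G a a' b b' =
      ∑ a ∈ A, ∑ a' ∈ A, ∑ b ∈ B, ∑ b' ∈ B, G a a' b b' := by
  calc ∑ b ∈ B, ∑ b' ∈ B, ∑ a ∈ A, ∑ a' ∈ A, G a a' b b' =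
      ∑ b ∈ B, ∑ a ∈ A, ∑ b' ∈ B, ∑ a' ∈ A, G a a' b b' :=
        sum_congr rfl (fun b _ => sum_comm)
    _ = ∑ a ∈ A, ∑ b ∈ B, ∑ b' ∈ B, ∑ a' ∈ A, G a a' b b' := sum_comm
    _ = ∑ a ∈ A, ∑ b ∈ B, ∑ a' ∈ A, ∑ b' ∈ B, G a a' b b' :=
        sum_congr rfl (fun a _ => sum_congr rfl (fun b _ => sum_comm))
    _ = ∑ a ∈ A, ∑ a' ∈ A, ∑ b ∈ B, ∑ b' ∈ B, G a a' b b' :=
        sum_congr rfl (fun a _ => sum_comm)

theorem q4_col (I A B : Finset ℕ) (f1 f2 f3 f4 : ℕ → ℝ) :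
    Q4 I A B f1 f2 f3 f4 = ∑ t ∈ I ×ˢ (B ×ˢ B),
      (∑ a ∈ A, f1 (t.1 + (a + t.2.1)) * f3 (t.1 + (a + t.2.2))) *
        ∑ a' ∈ A, f2 (t.1 + (a' + t.2.1)) * f4 (t.1 + (a' + t.2.2)) := by
  rw [sum_product]
  unfold Q4
  apply sum_congr rfl
  intro n _
  rw [sum_product]
  simp only
  rw [← sum4 A B (fun a a' b b' =>
    f1 (n + (a + b)) * f2 (n + (a' + b)) * f3 (n + (a + b')) * f4 (n + (a' + b')))]
  apply sum_congr rfl
  intro b _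
  apply sum_congr rfl
  intro b' _
  rw [sum_mul_sum]
  apply sum_congr rfl
  intro a _
  apply sum_congr rfl
  intro a' _
  ring

theorem q4_row (I A B : Finset ℕ) (f1 f2 f3 f4 : ℕ → ℝ) :
    Q4 I A B f1 f2 f3 f4 = ∑ t ∈ I ×ˢ (A ×ˢ A),
      (∑ b ∈ B, f1 (t.1 + (t.2.1 + b)) * f2 (t.1 + (t.2.2 + b))) *
        ∑ b' ∈ B, f3 (t.1 + (t.2.1 + b')) * f4 (t.1 + (t.2.2 + b')) := by
  rw [sum_product]
  unfold Q4
  apply sum_congr rfl
  intro n _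
  rw [sum_product]
  simp only
  apply sum_congr rfl
  intro a _
  apply sum_congr rfl
  intro a' _
  rw [sum_mul_sum]
  apply sum_congr rfl
  intro b _
  apply sum_congr rfl
  intro b' _
  ring

theorem q4_self_nonneg (I A B : Finset ℕ) (f : ℕ → ℝ) : 0 ≤ Q4 I A B f f f f := by
  rw [q4_row]
  exact sum_nonneg (fun t _ => mul_self_nonneg _)

theorem cs1 (I A B : Finset ℕ) (f g : ℕ → ℝ) :
    Q4 I A B f g g g ^ 2 ≤ Q4 I A B f f g g * Q4 I A B g g g g := by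
  rw [q4_col I A B f g g g, q4_col I A B f f g g, q4_col I A B g g g g]
  have h := sum_mul_sq_le_sq_mul_sq (I ×ˢ (B ×ˢ B))
    (fun t : ℕ × ℕ × ℕ => ∑ a ∈ A, f (t.1 + (a + t.2.1)) * g (t.1 + (a + t.2.2)))
    (fun t : ℕ × ℕ × ℕ => ∑ a ∈ A, g (t.1 + (a + t.2.1)) * g (t.1 + (a + t.2.2)))
  simp only [pow_two] at h ⊢
  exact h

theorem cs2 (I A B : Finset ℕ) (f g : ℕ → ℝ) :
    Q4 I A B f f g g ^ 2 ≤ Q4 I A B f f f f * Q4 I A B g g g g := by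
  rw [q4_row I A B f f g g, q4_row I A B f f f f, q4_row I A B g g g g]
  have h := sum_mul_sq_le_sq_mul_sq (I ×ˢ (A ×ˢ A))
    (fun t : ℕ × ℕ × ℕ => ∑ b ∈ B, f (t.1 + (t.2.1 + b)) * f (t.1 + (t.2.2 + b)))
    (fun t : ℕ × ℕ × ℕ => ∑ b ∈ B, g (t.1 + (t.2.1 + b)) * g (t.1 + (t.2.2 + b)))
  simp only [pow_two] at h ⊢
  exact h

end GcsL

open GcsL

theorem gcs : S_GCS := by
  intro I A B f g
  have h1 := cs1 I A B f g
  have h2 := cs2 I A B f g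
  have h3 := q4_self_nonneg I A B g
  calc Q4 I A B f g g g ^ 4 = (Q4 I A B f g g g ^ 2) ^ 2 := by ring
    _ ≤ (Q4 I A B f f g g * Q4 I A B g g g g) ^ 2 := pow_le_pow_left₀ (sq_nonneg _) h1 2
    _ = Q4 I A B f f g g ^ 2 * Q4 I A B g g g g ^ 2 := by ring
    _ ≤ (Q4 I A B f f f f * Q4 I A B g g g g) * Q4 I A B g g g g ^ 2 :=
        mul_le_mul_of_nonneg_right h2 (sq_nonneg _)
    _ = Q4 I A B f f f f * Q4 I A B g g g g ^ 3 := by ring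

theorem box : S_BOX := by
  intro I A B f
  have h := gcs I A B f (fun _ => 1)
  set S : ℝ := ∑ n ∈ I, ∑ a ∈ A, ∑ b ∈ B, f (n + (a + b)) with hS
  have e1 : Q4 I A B f (fun _ => 1) (fun _ => 1) (fun _ => 1) = A.card * B.card * S := by
    unfold Q4
    simp only [mul_one, sum_const, nsmul_eq_mul]
    rw [hS, mul_sum]
    apply sum_congr rfl
    intro n _
    rw [mul_sum]
    apply sum_congr rfl
    intro a _
    rw [← mul_sum]
    ring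
  have e2 : Q4 I A B (fun _ => 1) (fun _ => 1) (fun _ => 1) (fun _ => 1) =
      I.card * (A.card : ℝ) ^ 2 * (B.card : ℝ) ^ 2 := by
    unfold Q4
    simp only [mul_one, sum_const, nsmul_eq_mul]
    ring
  rw [e1, e2] at h
  have h0 := q4_self_nonneg I A B f
  rcases A.eq_empty_or_nonempty with hA | hA
  · have : S = 0 := by rw [hS, hA]; simp
    rw [this]
    have : (0 : ℝ) ^ 4 = 0 := by norm_num
    rw [this]
    positivity
  rcases B.eq_empty_or_nonempty with hB | hB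
  · have : S = 0 := by rw [hS, hB]; simp
    rw [this]
    have : (0 : ℝ) ^ 4 = 0 := by norm_num
    rw [this]
    positivity
  have hA0 : (0 : ℝ) < A.card := by exact_mod_cast hA.card_pos
  have hB0 : (0 : ℝ) < B.card := by exact_mod_cast hB.card_pos
  have hpos : (0 : ℝ) < (A.card : ℝ) ^ 4 * (B.card : ℝ) ^ 4 := by positivity
  have h2 : ((A.card : ℝ) ^ 4 * (B.card : ℝ) ^ 4) * S ^ 4 ≤
      ((A.card : ℝ) ^ 4 * (B.card : ℝ) ^ 4) *
        ((I.card : ℝ) ^ 3 * (A.card : ℝ) ^ 2 * (B.card : ℝ) ^ 2 * Q4 I A B f f f f) := by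
    calc ((A.card : ℝ) ^ 4 * (B.card : ℝ) ^ 4) * S ^ 4 = (A.card * B.card * S) ^ 4 := by ring
      _ ≤ _ := h
      _ = _ := by ring
  exact le_of_mul_le_mul_left h2 hpos

end Pool.Agent.Helper34K9.PQ
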