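import Pool.Agent.Helper34K9.PQ.L1

set_option autoImplicit false

/-! One prime and three rough numbers, from below: the asymptotic form. -/

namespace Pool.Agent.Helper34K9.PQ

open Finset H343E
open Pool.Agent.H442R2.EHI (lis)

open Classical in
theorem l1_half (ε : ℝ) (hε : 0 < ε) (hε1 : ε ≤ 1 / 2) : ∃ X₀ : ℕ, ∀ X : ℕ, X₀ ≤ X → ∀ m₀ m₁ : ℕ, ε * X ≤ m₀ →
    (m₀ : ℝ) + ε * X ≤ m₁ → m₁ ≤ X → ∀ s : Fin 4 → ℕ, (∀ i, s i ≤ X) →
    (1 - ε) * (((m₁ : ℝ) - m₀) / Real.log X) * (PV (ww X) s / V (ww X)) ≤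
      (((Ioc m₀ m₁).filter (fun n => (n + s 0).Prime ∧ ∀ i, Rough (ww X) (n + s i) ∨ i = 0)).card : ℝ) := by
  obtain ⟨C, hC, hF⟩ := flb
  obtain ⟨b1, hb1⟩ := exists_pow_lt_of_lt_one (show 0 < ε / 8 by positivity) (show (1 / 2 : ℝ) < 1 by norm_num)
  set b := max (C * 5) b1 with hb
  have hbC : C * 5 ≤ b := le_max_left _ _
  have hbε : (1 / 2 : ℝ) ^ b ≤ ε / 8 := (pow_le_pow_of_le_one (by norm_num) (by norm_num) (le_max_right _ _)).trans hb1.le
  set z0 := C * 5 + 5 with hz0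
  set W0 : ℕ := ∏ p ∈ primes z0, p with hW0
  obtain ⟨Cv, N0, hV⟩ := Pool.Agent.H373R2.T7.Vz_low
  set n1 := C * b with hn1
  set B' := 2 * n1 + 1 with hB'
  set A' := 4 * n1 + 8 * Cv + 3 with hA'
  obtain ⟨C', hC', x0, hsw⟩ := Pool.Agent.Helper82K9.PR.swL A' B'
  set K1 : ℝ := W0 * 4 * 2 ^ (4 * n1) * (4 * C' * 2 ^ A') with hK1
  have hK10 : 0 ≤ K1 := by positivity
  obtain ⟨X1, hX1⟩ := Pool.Agent.H373R2.T7.ev_L' (max (max (z0 : ℝ) (N0 : ℝ)) (max (max (2 * 4 ^ (2 * n1) * W0 : ℝ) (-2 * Real.log ε))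
    (max (K1 * 4 / ε ^ 2) (8 / ε))))
  obtain ⟨X2, hX2⟩ := Pool.Agent.H373R2.T7.ev_log' 1 (2 / ε)
  set X3 := ⌈(x0 + 2 : ℝ) / ε⌉₊ with hX3
  refine ⟨max (max X1 X2) (max X3 2), fun X hX m₀ m₁ hm0 hm01 hm1 s hs => ?_⟩
  have g1 := hX1 X ((le_max_left _ _).trans ((le_max_left _ _).trans hX))
  have g2 := hX2 X ((le_max_right _ _).trans ((le_max_left _ _).trans hX))
  have g3 : X3 ≤ X := (le_max_left _ _).trans ((le_max_right _ _).trans hX)
  have g4 : 2 ≤ X := (le_max_right _ _).trans ((le_max_right _ _).trans hX)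
  rw [max_le_iff, max_le_iff, max_le_iff, max_le_iff, max_le_iff] at g1
  obtain ⟨⟨hLz, hLN⟩, ⟨⟨hLW, hLε⟩, hLK, hL8⟩⟩ := g1
  set L := Real.log X with hL
  have hz5 : (5 : ℝ) ≤ z0 := by
    rw [hz0]; push_cast
    have : (0 : ℝ) ≤ (C : ℝ) := Nat.cast_nonneg _
    linarith
  have hL5 : 5 ≤ L := hz5.trans hLz
  have hL0 : 0 < L := by linarith
  have hXr : (2 : ℝ) ≤ X := by exact_mod_cast g4
  have hX0 : (0 : ℝ) < X := by linarith
  set w := ww X with hw
  have hwL : L ≤ w := Nat.le_ceil _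
  have hwL2 : (w : ℝ) ≤ 2 * L := by
    have : (w : ℝ) < L + 1 := Nat.ceil_lt_add_one hL0.le
    linarith
  have hw5 : 5 ≤ w := by
    have : (5 : ℝ) ≤ w := hL5.trans hwL
    exact_mod_cast this
  have hzw : z0 ≤ w := by
    have : (z0 : ℝ) ≤ w := hLz.trans hwL
    exact_mod_cast this
  have hNw : N0 ≤ w := by
    have : (N0 : ℝ) ≤ w := hLN.trans hwL
    exact_mod_cast this
  have hsq : √(X : ℝ) ≤ X := by
    rw [Real.sqrt_le_left hX0.le]
    nlinarith
  have h2L : 2 * L ≤ ε * X := by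
    rw [pow_one] at g2
    have h1 : 2 / ε * L ≤ X := g2.trans hsq
    have h2 : 2 / ε * L = 2 * L / ε := by ring
    rw [h2, div_le_iff₀ hε] at h1
    linarith
  have hwm : w ≤ m₀ := by
    have : (w : ℝ) ≤ m₀ := by linarith
    exact_mod_cast this
  have hwX : (w : ℝ) ≤ X := by
    have : ε * X ≤ X := by nlinarith
    linarith
  set J := Pool.Agent.H373R2.T7.JJ w with hJ
  have hJ1 : w ≤ 2 ^ 2 ^ J := (Pool.Agent.H373R2.T7.JJ_lt w).le
  have hJ2 : 2 ^ 2 ^ J ≤ w ^ 2 := Pool.Agent.H373R2.T7.JJ_le w (by omega)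
  have hJ3 : J + 2 ≤ 2 * w := Pool.Agent.H373R2.T7.JJ_small w (by omega)
  set D : ℕ := (2 ^ 2 ^ J) ^ (C * b) with hD
  have hDL : (D : ℝ) ≤ (2 * L) ^ (2 * n1) := by
    have h1 : D ≤ (w ^ 2) ^ n1 := Nat.pow_le_pow_left hJ2 _
    have h2 : (D : ℝ) ≤ ((w : ℝ) ^ 2) ^ n1 := by exact_mod_cast h1
    refine h2.trans ?_
    rw [← pow_mul]
    exact pow_le_pow_left₀ (Nat.cast_nonneg _) hwL2 _
  have hJL : (J : ℝ) + 2 ≤ 4 * L := by
    have h1 : ((J + 2 : ℕ) : ℝ) ≤ ((2 * w : ℕ) : ℝ) := by exact_mod_cast hJ3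
    push_cast at h1
    linarith
  -- the windows
  set t := s 0 with ht
  set y1 := m₀ + t with hy1
  set y2 := m₁ + t with hy2
  have hm01' : m₀ ≤ m₁ := by
    have : (m₀ : ℝ) ≤ m₁ := by nlinarith
    exact_mod_cast this
  have hy12 : y1 ≤ y2 := by omega
  have hy2X : (y2 : ℝ) ≤ 2 * X := by
    have h1 : y2 ≤ 2 * X := by
      have := hs 0
      omega
    exact_mod_cast h1
  have hy1X : ε * X ≤ y1 := by
    have : (m₀ : ℝ) ≤ y1 := by
      rw [hy1]; push_cast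
      have : (0 : ℝ) ≤ t := Nat.cast_nonneg _
      linarith
    linarith
  have hεX : (x0 + 2 : ℝ) ≤ ε * X := by
    have h1 : (x0 + 2 : ℝ) / ε ≤ X := (Nat.le_ceil _).trans (Nat.cast_le.2 g3)
    rw [div_le_iff₀ hε] at h1
    linarith
  have hlow : ∀ y : ℕ, y1 ≤ y → y ≤ y2 → x0 ≤ y ∧ 2 ≤ y ∧ L / 2 ≤ Real.log y ∧ (y : ℝ) ≤ 2 * X := by
    intro y h1 h2
    have h1' : (y1 : ℝ) ≤ y := by exact_mod_cast h1
    have h2' : (y : ℝ) ≤ y2 := by exact_mod_cast h2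
    have h3 : ε * X ≤ y := hy1X.trans h1'
    have h4 : (x0 : ℝ) + 2 ≤ y := hεX.trans h3
    refine ⟨?_, ?_, ?_, h2'.trans hy2X⟩
    · have : (x0 : ℝ) ≤ y := by linarith
      exact_mod_cast this
    · have : (2 : ℝ) ≤ y := by
        have : (0 : ℝ) ≤ x0 := Nat.cast_nonneg _
        linarith
      exact_mod_cast this
    · have h5 : Real.log (ε * X) ≤ Real.log y := Real.log_le_log (by positivity) h3
      rw [Real.log_mul hε.ne' hX0.ne'] at h5
      linarith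
  set Li := lis y2 - lis y1 with hLi
  have hLi1 : (1 - ε / 8) * (((m₁ : ℝ) - m₀) / L) ≤ Li := by
    have h1 := lis_diff y1 y2 (hlow y1 le_rfl hy12).2.1 hy12
    have h2 : Real.log y2 ≤ L + 1 := by
      have h3 : Real.log y2 ≤ Real.log (2 * X) := by
        apply Real.log_le_log _ hy2X
        have := (hlow y2 hy12 le_rfl).2.1
        exact_mod_cast (by omega : 0 < y2)
      rw [Real.log_mul (by norm_num) hX0.ne'] at h3
      have := Real.log_two_lt_d9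
      linarith
    have h3 : 0 < Real.log y2 := by
      have := (hlow y2 hy12 le_rfl).2.2.1
      linarith
    have h4 : ((y2 : ℝ) - y1) = (m₁ : ℝ) - m₀ := by
      rw [hy1, hy2]; push_cast; ring
    have h5 : 0 ≤ (m₁ : ℝ) - m₀ := by
      have : (m₀ : ℝ) ≤ m₁ := by exact_mod_cast hm01'
      linarith
    refine le_trans ?_ h1
    rw [h4]
    rw [mul_div_assoc', div_le_div_iff₀ hL0 h3]
    have h6 : (1 - ε / 8) * Real.log y2 ≤ L := by
      have h7 : (1 - ε / 8) * Real.log y2 ≤ (1 - ε / 8) * (L + 1) := mul_le_mul_of_nonneg_left h2 (by linarith)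
      rw [div_le_iff₀ hε] at hL8
      nlinarith
    calc (1 - ε / 8) * ((m₁ : ℝ) - m₀) * Real.log y2 = ((m₁ : ℝ) - m₀) * ((1 - ε / 8) * Real.log y2) := by ring
      _ ≤ ((m₁ : ℝ) - m₀) * L := mul_le_mul_of_nonneg_left h6 h5
  have hmm : ε * X ≤ (m₁ : ℝ) - m₀ := by linarith
  have hLi0 : 0 ≤ Li := by
    refine le_trans ?_ hLi1
    have h1 : 0 ≤ (m₁ : ℝ) - m₀ := by
      have : 0 ≤ ε * X := by positivity
      linarith
    have h2 : 0 ≤ 1 - ε / 8 := by linarith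
    positivity
  set E : ℝ := 4 * C' * 2 ^ A' * (X / L ^ A') with hE
  have hE0 : 0 ≤ E := by positivity
  have hEy : ∀ y : ℕ, y1 ≤ y → y ≤ y2 → C' * (y / Real.log y ^ A') ≤ E / 2 := by
    intro y h1 h2
    obtain ⟨_, _, h3, h4⟩ := hlow y h1 h2
    have h5 : (L / 2) ^ A' ≤ Real.log y ^ A' := pow_le_pow_left₀ (by positivity) h3 _
    have h6 : (y : ℝ) / Real.log y ^ A' ≤ 2 * X / (L / 2) ^ A' :=
      div_le_div₀ (by positivity) h4 (by positivity) h5
    calc C' * (y / Real.log y ^ A') ≤ C' * (2 * X / (L / 2) ^ A') := mul_le_mul_of_nonneg_left h6 hC'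
      _ = E / 2 := by
        rw [hE, div_pow]
        field_simp
        ring
  have hqB : ∀ q : ℕ, q ≤ W0 * D → ∀ y : ℕ, y1 ≤ y → y ≤ y2 → (q : ℝ) ≤ Real.log y ^ B' := by
    intro q hq y h1 h2
    obtain ⟨_, _, h3, _⟩ := hlow y h1 h2
    have h5 : (L / 2) ^ B' ≤ Real.log y ^ B' := pow_le_pow_left₀ (by positivity) h3 _
    refine le_trans ?_ h5
    have h6 : (q : ℝ) ≤ W0 * D := by exact_mod_cast hq
    refine h6.trans ?_
    calc (W0 : ℝ) * D ≤ W0 * (2 * L) ^ (2 * n1) := by gcongr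
      _ ≤ (L / 2) ^ B' := by
        rw [hB', pow_succ, div_pow, mul_pow, div_mul_div_comm, le_div_iff₀ (by positivity)]
        have h7 : (2 : ℝ) ^ (2 * n1) * 2 ^ (2 * n1) = 4 ^ (2 * n1) := by
          rw [← mul_pow]; norm_num
        calc (W0 : ℝ) * (2 ^ (2 * n1) * L ^ (2 * n1)) * (2 ^ (2 * n1) * 2) =
            (2 * (2 ^ (2 * n1) * 2 ^ (2 * n1)) * W0) * L ^ (2 * n1) := by ring
          _ = (2 * 4 ^ (2 * n1) * W0) * L ^ (2 * n1) := by rw [h7]
          _ ≤ L * L ^ (2 * n1) := by gcongr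
          _ = L ^ (2 * n1) * L := by ring
  have key := low_all C hF b J z0 w hbC (by omega) (by omega) hzw hJ1 m₀ m₁ hwm s Li E hLi0 hE0 (by
    intro q hq1 hq v hv
    rw [ap_eq m₀ m₁ (s 0) q v hm01']
    have ha1 : (v + s 0) % q < q := Nat.mod_lt _ hq1
    have ha2 : ((v + s 0) % q).Coprime q := by
      have h1 : (v + s 0) % q ≡ v + s 0 [MOD q] := Nat.mod_modEq _ _
      rw [Nat.Coprime, h1.gcd_eq]
      exact hv
    have h1 := hsw y1 (hlow y1 le_rfl hy12).1 q _ hq1 (hqB q hq y1 le_rfl hy12) ha1 ha2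
    have h2 := hsw y2 (hlow y2 hy12 le_rfl).1 q _ hq1 (hqB q hq y2 hy12 le_rfl) ha1 ha2
    have h3 := hEy y1 le_rfl hy12
    have h4 := hEy y2 hy12 le_rfl
    have e : piAP (m₁ + s 0) q ((v + s 0) % q) - piAP (m₀ + s 0) q ((v + s 0) % q) - Li / (Nat.totient q : ℝ) =
      (piAP y2 q ((v + s 0) % q) - lis y2 / (Nat.totient q : ℝ)) - (piAP y1 q ((v + s 0) % q) - lis y1 / (Nat.totient q : ℝ)) := by
      rw [hLi, hy1, hy2, sub_div]; ring
    rw [e]
    refine (abs_sub _ _).trans ?_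
    linarith)
  by_cases hPV : PV w s = 0
  · rw [hPV, zero_div, mul_zero]
    exact Nat.cast_nonneg _
  · set R := PV w s / V w with hR
    have hVp := V_pos w
    have hR1 : (1 / L ^ Cv) ^ 8 ≤ R := by
      have h1 := PV_low w s hPV
      have h2 : PV w s ≤ R := by
        rw [hR, le_div_iff₀ hVp]
        have := V_le_one w
        have h0 := PV_nonneg w s
        nlinarith
      have h3 : 1 / Real.log w ^ Cv ≤ V w := hV w hNw
      have hwr : (5 : ℝ) ≤ w := by exact_mod_cast hw5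
      have h4 : 0 < Real.log w := Real.log_pos (by linarith)
      have h5 : Real.log w ≤ L := Real.log_le_log (by linarith) hwX
      have h6 : 1 / L ^ Cv ≤ 1 / Real.log w ^ Cv :=
        one_div_le_one_div_of_le (by positivity) (pow_le_pow_left₀ h4.le h5 _)
      have h7 : (1 / L ^ Cv) ^ 8 ≤ V w ^ 8 := pow_le_pow_left₀ (by positivity) (h6.trans h3) 8
      exact h7.trans (h1.trans h2)
    have hR0 : 0 < R := lt_of_lt_of_le (by positivity) hR1
    set M : ℝ := ((m₁ : ℝ) - m₀) / L with hM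
    have hM0 : ε * X / L ≤ M := div_le_div_of_nonneg_right hmm hL0.le
    have hMp : 0 < M := lt_of_lt_of_le (by positivity) hM0
    have herr : (W0 : ℝ) * (((J : ℝ) + 2) * ((D : ℝ) * D * E)) ≤ ε / 4 * (M * R) := by
      have h1 : (W0 : ℝ) * (((J : ℝ) + 2) * ((D : ℝ) * D * E)) ≤
          W0 * ((4 * L) * ((2 * L) ^ (2 * n1) * (2 * L) ^ (2 * n1) * E)) := by gcongr
      have h2 : W0 * ((4 * L) * ((2 * L) ^ (2 * n1) * (2 * L) ^ (2 * n1) * E)) = K1 * (X / L ^ (8 * Cv + 2)) := by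
        rw [hE, hK1, hA', mul_pow]
        have h3 : L ^ (4 * n1 + 8 * Cv + 3) = L ^ (2 * n1) * L ^ (2 * n1) * L * L ^ (8 * Cv + 2) := by
          rw [← pow_add, ← pow_succ, ← pow_add]; congr 1; ring
        have h4 : (2 : ℝ) ^ (4 * n1) = 2 ^ (2 * n1) * 2 ^ (2 * n1) := by
          rw [← pow_add]; congr 1; ring
        rw [h3, h4]
        field_simp
      have h3 : K1 * (X / L ^ (8 * Cv + 2)) ≤ ε / 4 * ((ε * X / L) * (1 / L ^ Cv) ^ 8) := by
        have h4 : K1 ≤ ε ^ 2 / 4 * L := by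
          rw [div_le_iff₀ (by positivity)] at hLK
          linarith
        have h5 : ε / 4 * ((ε * X / L) * (1 / L ^ Cv) ^ 8) = (ε ^ 2 / 4 * L) * (X / L ^ (8 * Cv + 2)) := by
          have h6 : L ^ (8 * Cv + 2) = (L ^ Cv) ^ 8 * L * L := by
            rw [← pow_mul, pow_add, mul_comm Cv 8]; ring
          rw [h6, div_pow, one_pow]
          field_simp
        rw [h5]
        gcongr
      rw [h2] at h1
      refine h1.trans (h3.trans ?_)
      gcongr
    have h8 : (1 - ε) * M * R ≤ (1 - (1 / 2 : ℝ) ^ b) * (Li * R) - (W0 : ℝ) * (((J : ℝ) + 2) * ((D : ℝ) * D * E)) := by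
      have h9 : (1 - ε / 8) * (((1 - ε / 8) * M) * R) ≤ (1 - (1 / 2 : ℝ) ^ b) * (Li * R) := by
        have h10 : 0 ≤ 1 - ε / 8 := by linarith
        have h11 : (1 - ε / 8) * M * R ≤ Li * R := mul_le_mul_of_nonneg_right hLi1 hR0.le
        have h12 : 0 ≤ (1 - ε / 8) * M * R := by positivity
        exact mul_le_mul (by linarith) h11 h12 (by linarith)
      have h13 : 0 < M * R := by positivity
      nlinarith
    exact h8.trans key

/-- (L1) -/
theorem l1 : S_L1 := by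
  intro ε hε
  obtain ⟨X₀, h⟩ := l1_half (min ε (1 / 2)) (lt_min hε (by norm_num)) (min_le_right _ _)
  refine ⟨max X₀ 3, fun X hX m₀ m₁ h1 h2 h3 s hs => ?_⟩
  have hX3 : 3 ≤ X := (le_max_right _ _).trans hX
  have hXr : (3 : ℝ) ≤ X := by exact_mod_cast hX3
  have h4 : min ε (1 / 2) * X ≤ ε * X := mul_le_mul_of_nonneg_right (min_le_left _ _) (Nat.cast_nonneg _)
  have h5 := h X ((le_max_left _ _).trans hX) m₀ m₁ (h4.trans h1) (by linarith) h3 s hs
  refine le_trans ?_ h5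
  have hL : 0 < Real.log X := Real.log_pos (by linarith)
  have h6 : 0 ≤ (m₁ : ℝ) - m₀ := by
    have : 0 ≤ ε * X := by positivity
    linarith
  have h7 : 0 ≤ PV (ww X) s / V (ww X) := div_nonneg (PV_nonneg _ _) (V_pos _).le
  have h8 : 1 - ε ≤ 1 - min ε (1 / 2) := by linarith [min_le_left ε (1 / 2)]
  have h9 : 0 ≤ ((m₁ : ℝ) - m₀) / Real.log X := by positivity
  exact mul_le_mul_of_nonneg_right (mul_le_mul_of_nonneg_right h8 h9) h7

end Pool.Agent.Helper34K9.PQ
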