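import Mathlib
import Pool.Agent.Helper34K9.PQ.Inv

/-!
# [TAIL]: the singular series and its truncations
-/

set_option autoImplicit false

namespace Pool.Agent.Helper34K9.PQ.H48

open Finset

/-- the factor of the singular series -/
noncomputable def fac (s : Fin 4 → ℕ) (p : ℕ) : ℝ := (1 - (nu s p : ℝ) / p) / (1 - 1 / (p : ℝ)) ^ 4

theorem one_sub_inv_pos {p : ℕ} (hp : 2 ≤ p) : (0 : ℝ) < 1 - 1 / (p : ℝ) := by
  have : (2 : ℝ) ≤ p := by exact_mod_cast hp
  rw [sub_pos, div_lt_one (by linarith)]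
  linarith

theorem SS_eq (y : ℕ) (s : Fin 4 → ℕ) : SS y s = ∏ p ∈ primes y, fac s p := by
  unfold SS PV V fac
  rw [Finset.prod_div_distrib, Finset.prod_pow]

theorem fac_nonneg (s : Fin 4 → ℕ) {p : ℕ} (hp : 2 ≤ p) : 0 ≤ fac s p := by
  unfold fac
  refine div_nonneg ?_ (pow_nonneg (one_sub_inv_pos hp).le _)
  have h1 : (nu s p : ℝ) ≤ p := by exact_mod_cast nu_le s p
  have h2 : (0 : ℝ) < p := by exact_mod_cast (by omega : 0 < p)
  rw [sub_nonneg, div_le_one h2]
  exact h1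

theorem SS_nonneg (y : ℕ) (s : Fin 4 → ℕ) : 0 ≤ SS y s := by
  rw [SS_eq]
  refine Finset.prod_nonneg fun p hp => fac_nonneg s ?_
  exact (Finset.mem_filter.1 hp).2.two_le

theorem primes_split {y z : ℕ} (h : y ≤ z) (f : ℕ → ℝ) :
    ∏ p ∈ primes z, f p = (∏ p ∈ primes y, f p) * ∏ p ∈ (Ioc y z).filter Nat.Prime, f p := by
  unfold primes
  rw [← Finset.prod_union]
  · congr 1
    ext p
    simp only [Finset.mem_union, Finset.mem_filter, Finset.mem_Icc, Finset.mem_Ioc]
    constructor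
    · rintro ⟨⟨h1, h2⟩, h3⟩
      by_cases h4 : p ≤ y
      · exact Or.inl ⟨⟨h1, h4⟩, h3⟩
      · exact Or.inr ⟨⟨by omega, h2⟩, h3⟩
    · rintro (⟨⟨h1, h2⟩, h3⟩ | ⟨⟨h1, h2⟩, h3⟩)
      · exact ⟨⟨h1, by omega⟩, h3⟩
      · exact ⟨⟨by omega, h2⟩, h3⟩
  · rw [Finset.disjoint_left]
    intro p hp hp'
    have h1 := (Finset.mem_Icc.1 (Finset.mem_filter.1 hp).1).2
    have h2 := (Finset.mem_Ioc.1 (Finset.mem_filter.1 hp').1).1
    omega

/-- lower bound for the factors -/
theorem fac_ge (s : Fin 4 → ℕ) {p : ℕ} (hp : 4 ≤ p) : 1 - 16 * ((p : ℝ) ^ 2)⁻¹ ≤ fac s p := by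
  unfold fac
  have hp' : (4 : ℝ) ≤ p := by exact_mod_cast hp
  have hpos : (0 : ℝ) < p := by linarith
  rw [le_div_iff₀ (pow_pos (one_sub_inv_pos (by omega)) 4)]
  have h1 : (nu s p : ℝ) ≤ 4 := by exact_mod_cast nu_le_four s p (by omega)
  have h2 : 1 - 4 / (p : ℝ) ≤ 1 - (nu s p : ℝ) / p := by
    have := div_le_div_of_nonneg_right h1 hpos.le
    linarith
  refine le_trans ?_ h2
  set u : ℝ := 1 / (p : ℝ) with hu
  have hu0 : 0 < u := by positivity
  have hu1 : u ≤ 1 / 4 := by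
    rw [hu]
    exact one_div_le_one_div_of_le (by norm_num) hp'
  have e1 : ((p : ℝ) ^ 2)⁻¹ = u ^ 2 := by rw [hu]; field_simp
  have e2 : 4 / (p : ℝ) = 4 * u := by rw [hu]; ring
  rw [e1, e2]
  have h3 : (1 - u) ^ 4 ≤ 1 - 4 * u + 6 * u ^ 2 := by nlinarith [pow_pos hu0 3, pow_pos hu0 2]
  have h4 : 0 ≤ 1 - 16 * u ^ 2 := by nlinarith
  calc (1 - 16 * u ^ 2) * (1 - u) ^ 4 ≤ (1 - 16 * u ^ 2) * (1 - 4 * u + 6 * u ^ 2) :=
        mul_le_mul_of_nonneg_left h3 h4
    _ ≤ 1 - 4 * u := by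
        have : 0 ≤ u ^ 2 * (10 - 64 * u + 96 * u ^ 2) := by
          refine mul_nonneg (sq_nonneg _) ?_
          nlinarith
        nlinarith

/-- a product of numbers near 1 from below -/
theorem prod_ge {ι : Type} (s : Finset ι) (a : ι → ℝ) (h0 : ∀ i ∈ s, 0 ≤ a i)
    (h1 : ∀ i ∈ s, a i ≤ 1) : 1 - ∑ i ∈ s, a i ≤ ∏ i ∈ s, (1 - a i) := by
  classical
  induction s using Finset.induction_on with
  | empty => simp
  | insert j s hj ih =>
    rw [Finset.sum_insert hj, Finset.prod_insert hj]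
    have ih' := ih (fun i hi => h0 i (Finset.mem_insert_of_mem hi))
      (fun i hi => h1 i (Finset.mem_insert_of_mem hi))
    have hj0 := h0 j (Finset.mem_insert_self _ _)
    have hj1 := h1 j (Finset.mem_insert_self _ _)
    have hs : 0 ≤ ∑ i ∈ s, a i :=
      Finset.sum_nonneg fun i hi => h0 i (Finset.mem_insert_of_mem hi)
    have : (1 - a j) * (1 - ∑ i ∈ s, a i) ≤ (1 - a j) * ∏ i ∈ s, (1 - a i) :=
      mul_le_mul_of_nonneg_left ih' (by linarith)
    nlinarith [mul_nonneg hj0 hs]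

/-- the tail product from below -/
theorem tail_ge (s : Fin 4 → ℕ) {z y : ℕ} (hz : 4 ≤ z) (h : z ≤ y) :
    1 - 16 / (z : ℝ) ≤ ∏ p ∈ (Ioc z y).filter Nat.Prime, fac s p := by
  have hzpos : (0 : ℝ) < z := by exact_mod_cast (by omega : 0 < z)
  have h1 : ∏ p ∈ (Ioc z y).filter Nat.Prime, (1 - 16 * ((p : ℝ) ^ 2)⁻¹) ≤
      ∏ p ∈ (Ioc z y).filter Nat.Prime, fac s p := by
    refine Finset.prod_le_prod ?_ ?_
    · intro p hp
      have h2 : z < p := (Finset.mem_Ioc.1 (Finset.mem_filter.1 hp).1).1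
      have h3 : (4 : ℝ) ≤ p := by exact_mod_cast (by omega : 4 ≤ p)
      rw [sub_nonneg, ← div_eq_mul_inv, div_le_one (by positivity)]
      nlinarith
    · intro p hp
      have h2 : z < p := (Finset.mem_Ioc.1 (Finset.mem_filter.1 hp).1).1
      exact fac_ge s (by omega)
  refine le_trans ?_ h1
  have h4 := prod_ge ((Ioc z y).filter Nat.Prime) (fun p : ℕ => 16 * ((p : ℝ) ^ 2)⁻¹)
    (fun p _ => by positivity) (by
      intro p hp
      have h2 : z < p := (Finset.mem_Ioc.1 (Finset.mem_filter.1 hp).1).1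
      have h3 : (4 : ℝ) ≤ p := by exact_mod_cast (by omega : 4 ≤ p)
      show 16 * ((p : ℝ) ^ 2)⁻¹ ≤ 1
      rw [← div_eq_mul_inv, div_le_one (by positivity)]
      nlinarith)
  refine le_trans ?_ h4
  have h5 : ∑ p ∈ (Ioc z y).filter Nat.Prime, 16 * ((p : ℝ) ^ 2)⁻¹ ≤ 16 / (z : ℝ) := by
    rw [← Finset.mul_sum]
    have h6 : ∑ p ∈ (Ioc z y).filter Nat.Prime, ((p : ℝ) ^ 2)⁻¹ ≤
        ∑ p ∈ Ioc z y, ((p : ℝ) ^ 2)⁻¹ :=
      Finset.sum_le_sum_of_subset_of_nonneg (Finset.filter_subset _ _)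
        (fun p _ _ => by positivity)
    have h7 := sum_Ioc_inv_sq_le_sub (α := ℝ) (k := z) (n := y) (by omega) h
    have h8 : (0 : ℝ) ≤ (y : ℝ)⁻¹ := by positivity
    rw [div_eq_mul_inv]
    linarith
  linarith

/-- the four classes are different if `p` does not divide the differences -/
theorem nu_pat {d e p : ℕ} (hp : 1 ≤ p) (hd : ¬ p ∣ d) (he : ¬ p ∣ e) (hs : ¬ p ∣ d + e)
    (hde : ¬ p ∣ Nat.dist d e) : nu (pat d e) p = 4 := by
  classical
  rw [nu_eq _ p hp]
  have hd' : (d : ZMod p) ≠ 0 := fun h => hd ((ZMod.natCast_eq_zero_iff _ _).1 h)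
  have he' : (e : ZMod p) ≠ 0 := fun h => he ((ZMod.natCast_eq_zero_iff _ _).1 h)
  have hs' : (d : ZMod p) + e ≠ 0 := fun h => hs ((ZMod.natCast_eq_zero_iff _ _).1 (by
    rw [Nat.cast_add]; exact h))
  have hde' : (d : ZMod p) ≠ e := by
    intro h
    apply hde
    rcases le_total d e with hle | hle
    · rw [Nat.dist_eq_sub_of_le hle, ← ZMod.natCast_eq_zero_iff, Nat.cast_sub hle, h, sub_self]
    · rw [Nat.dist_eq_sub_of_le_right hle, ← ZMod.natCast_eq_zero_iff, Nat.cast_sub hle, h,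
        sub_self]
  rw [Finset.card_image_of_injective, Finset.card_univ, Fintype.card_fin]
  have hinj : Function.Injective (fun i : Fin 4 => ((pat d e i : ℕ) : ZMod p)) := by
    intro i j hij
    fin_cases i <;> fin_cases j <;> simp [pat] at hij ⊢
    · exact hd' hij.symm
    · exact he' hij.symm
    · exact hs' hij.symm
    · exact hd' hij
    · exact hde' hij
    · exact he' hij
    · exact he' hij
    · exact hde' hij.symm
    · exact hd' hij
    · exact hs' hij
    · exact he' hij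
    · exact hd' hij
  intro i j hij
  exact hinj (neg_injective hij)

theorem one_sub_ge_exp {u : ℝ} (h0 : 0 ≤ u) (h1 : u ≤ 1 / 2) : Real.exp (-(2 * u)) ≤ 1 - u := by
  have h2 : 1 + 2 * u ≤ Real.exp (2 * u) := by
    have := Real.add_one_le_exp (2 * u)
    linarith
  rw [Real.exp_neg]
  rw [inv_le_comm₀ (Real.exp_pos _) (by linarith)]
  refine le_trans ?_ h2
  rw [inv_le_comm₀ (by linarith) (by linarith), ← one_div, div_le_iff₀ (by linarith)]
  nlinarith

theorem fac_le_exp (s : Fin 4 → ℕ) {p : ℕ} (hp : 2 ≤ p) : fac s p ≤ Real.exp (8 / (p : ℝ)) := by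
  unfold fac
  have hp' : (2 : ℝ) ≤ p := by exact_mod_cast hp
  have hpos : (0 : ℝ) < p := by linarith
  rw [div_le_iff₀ (pow_pos (one_sub_inv_pos hp) 4)]
  have h1 : 1 - (nu s p : ℝ) / p ≤ 1 := by
    have : (0 : ℝ) ≤ (nu s p : ℝ) / p := by positivity
    linarith
  refine h1.trans ?_
  have h2 := one_sub_ge_exp (u := 1 / (p : ℝ)) (by positivity)
    (one_div_le_one_div_of_le (by norm_num) hp')
  have h3 : Real.exp (-(8 / (p : ℝ))) ≤ (1 - 1 / (p : ℝ)) ^ 4 := by
    calc Real.exp (-(8 / (p : ℝ))) = Real.exp (-(2 * (1 / (p : ℝ)))) ^ 4 := by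
          rw [← Real.exp_nat_mul]; congr 1; push_cast; ring
      _ ≤ _ := pow_le_pow_left₀ (Real.exp_pos _).le h2 4
  calc (1 : ℝ) = Real.exp (8 / (p : ℝ)) * Real.exp (-(8 / (p : ℝ))) := by
        rw [← Real.exp_add]; simp
    _ ≤ _ := mul_le_mul_of_nonneg_left h3 (Real.exp_pos _).le

theorem fac_le_one {s : Fin 4 → ℕ} {p : ℕ} (hp : 2 ≤ p) (h : nu s p = 4) : fac s p ≤ 1 := by
  unfold fac
  rw [div_le_one (pow_pos (one_sub_inv_pos hp) 4), h]
  have h1 := one_add_mul_le_pow (a := -(1 / (p : ℝ))) (by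
    have := one_sub_inv_pos hp; linarith) 4
  have h2 : (1 : ℝ) + ((4 : ℕ) : ℝ) * -(1 / (p : ℝ)) = 1 - ((4 : ℕ) : ℝ) / p := by ring
  rw [h2] at h1
  have h3 : (1 + -(1 / (p : ℝ))) = 1 - 1 / (p : ℝ) := by ring
  rw [h3] at h1
  exact h1

/-- the tail product from above -/
theorem tail_le {X y z d e : ℕ} {L : ℝ} (hL : L = Real.log X) (hL1 : 2 ≤ L) (hy : L ≤ y)
    (hd : 0 < d) (he : 0 < e) (hde : d ≠ e) (hdX : d ≤ X) (heX : e ≤ X) :
    ∏ p ∈ (Ioc y z).filter Nat.Prime, fac (pat d e) p ≤ Real.exp (40 / Real.log L) := by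
  classical
  set D : ℕ := d * e * (d + e) * Nat.dist d e with hD
  have hlogL : 0 < Real.log L := Real.log_pos (by linarith)
  have hXpos : 0 < X := by omega
  have hdist : 0 < Nat.dist d e := Nat.dist_pos_of_ne hde
  have hD0 : D ≠ 0 := by positivity
  have hDle : D ≤ 2 * X ^ 4 := by
    have h1 : Nat.dist d e ≤ X := by
      rcases le_total d e with h | h
      · rw [Nat.dist_eq_sub_of_le h]; omega
      · rw [Nat.dist_eq_sub_of_le_right h]; omega
    calc D ≤ X * X * (X + X) * X := by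
          rw [hD]
          exact Nat.mul_le_mul (Nat.mul_le_mul (Nat.mul_le_mul hdX heX) (Nat.add_le_add hdX heX)) h1
      _ = 2 * X ^ 4 := by ring
  have hlogD : Real.log D ≤ 5 * L := by
    have h1 : Real.log (D : ℝ) ≤ Real.log (2 * (X : ℝ) ^ 4) := by
      refine Real.log_le_log (by exact_mod_cast Nat.pos_of_ne_zero hD0) ?_
      exact_mod_cast hDle
    have h2 : Real.log (2 * (X : ℝ) ^ 4) = Real.log 2 + 4 * L := by
      rw [Real.log_mul (by norm_num) (by positivity), Real.log_pow, hL]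
      norm_num
    have h3 : Real.log 2 ≤ 1 := by
      have := Real.log_two_lt_d9
      linarith
    linarith
  set S := ((Ioc y z).filter Nat.Prime).filter (fun p => p ∣ D) with hS
  have hcard : (S.card : ℝ) * Real.log L ≤ 5 * L := by
    have h1 : (S.card : ℝ) * Real.log L ≤ ∑ p ∈ S, Real.log p := by
      rw [← nsmul_eq_mul]
      refine Finset.card_nsmul_le_sum _ _ _ fun p hp => ?_
      have h2 : y < p := (Finset.mem_Ioc.1 (Finset.mem_filter.1 (Finset.mem_filter.1 hp).1).1).1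
      have h3 : (y : ℝ) < p := by exact_mod_cast h2
      exact Real.log_le_log (by linarith) (by linarith)
    have h4 : ∑ p ∈ S, Real.log p = Real.log ((∏ p ∈ S, p : ℕ) : ℝ) := by
      rw [Nat.cast_prod, Real.log_prod]
      intro p hp
      have := (Finset.mem_filter.1 (Finset.mem_filter.1 hp).1).2.pos
      exact_mod_cast this.ne'
    have h5 : (∏ p ∈ S, p) ∣ D := by
      have h6 : S ⊆ D.primeFactors := by
        intro p hp
        rw [Nat.mem_primeFactors]
        exact ⟨(Finset.mem_filter.1 (Finset.mem_filter.1 hp).1).2,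
          (Finset.mem_filter.1 hp).2, hD0⟩
      exact (Finset.prod_dvd_prod_of_subset _ _ _ h6).trans (Nat.prod_primeFactors_dvd D)
    have h7 : (∏ p ∈ S, p) ≤ D := Nat.le_of_dvd (Nat.pos_of_ne_zero hD0) h5
    have h8 : 0 < ∏ p ∈ S, p := Finset.prod_pos fun p hp =>
      (Finset.mem_filter.1 (Finset.mem_filter.1 hp).1).2.pos
    rw [h4] at h1
    have h9 : Real.log ((∏ p ∈ S, p : ℕ) : ℝ) ≤ Real.log D :=
      Real.log_le_log (by exact_mod_cast h8) (by exact_mod_cast h7)
    linarith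
  have hprod : ∏ p ∈ (Ioc y z).filter Nat.Prime, fac (pat d e) p ≤
      ∏ p ∈ (Ioc y z).filter Nat.Prime, (if p ∣ D then Real.exp (8 / L) else 1) := by
    refine Finset.prod_le_prod ?_ ?_
    · intro p hp
      exact fac_nonneg _ (Finset.mem_filter.1 hp).2.two_le
    · intro p hp
      have hpp := (Finset.mem_filter.1 hp).2
      have h2 : y < p := (Finset.mem_Ioc.1 (Finset.mem_filter.1 hp).1).1
      have h3 : (y : ℝ) < p := by exact_mod_cast h2
      split_ifs with hpD
      · refine (fac_le_exp _ hpp.two_le).trans ?_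
        rw [Real.exp_le_exp]
        exact div_le_div_of_nonneg_left (by norm_num) (by linarith) (by linarith)
      · refine fac_le_one hpp.two_le (nu_pat hpp.one_lt.le ?_ ?_ ?_ ?_)
        · intro h; exact hpD (by rw [hD]; exact ((h.mul_right e).mul_right _).mul_right _)
        · intro h; exact hpD (by rw [hD]; exact ((h.mul_left d).mul_right _).mul_right _)
        · intro h; exact hpD (by rw [hD]; exact (h.mul_left _).mul_right _)
        · intro h; exact hpD (by rw [hD]; exact h.mul_left _)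
  refine hprod.trans ?_
  rw [Finset.prod_ite, Finset.prod_const, Finset.prod_const_one, mul_one, ← Real.exp_nat_mul,
    Real.exp_le_exp]
  change (S.card : ℝ) * (8 / L) ≤ 40 / Real.log L
  rw [le_div_iff₀ hlogL]
  have hLpos : 0 < L := by linarith
  have : (S.card : ℝ) * (8 / L) * Real.log L = 8 / L * ((S.card : ℝ) * Real.log L) := by ring
  rw [this]
  calc 8 / L * ((S.card : ℝ) * Real.log L) ≤ 8 / L * (5 * L) :=
        mul_le_mul_of_nonneg_left hcard (by positivity)
    _ = 40 := by field_simp; norm_num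

theorem tail_main : S_TAIL := by
  intro ε hε
  have hlim : Filter.Tendsto (fun X : ℕ => Real.log X) Filter.atTop Filter.atTop :=
    Real.tendsto_log_atTop.comp tendsto_natCast_atTop_atTop
  have hlim2 : Filter.Tendsto (fun X : ℕ => Real.log (Real.log X)) Filter.atTop Filter.atTop :=
    Real.tendsto_log_atTop.comp hlim
  have hlog : 0 < Real.log (1 + ε) := Real.log_pos (by linarith)
  have hev := (hlim.eventually_ge_atTop (16 * (1 + ε) / ε + 4)).and
    (hlim2.eventually_ge_atTop (40 / Real.log (1 + ε) + 1))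
  obtain ⟨X₀, hX₀⟩ := Filter.eventually_atTop.1 hev
  refine ⟨X₀, fun X hX y z hy hz d e hd he hde hdX heX => ?_⟩
  obtain ⟨h1, h2⟩ := hX₀ X hX
  have hpos : 0 < 16 * (1 + ε) / ε := by positivity
  have hpos2 : 0 < 40 / Real.log (1 + ε) := by positivity
  have hL2 : 2 ≤ Real.log X := by linarith
  rcases le_total y z with h | h
  · rw [SS_eq, SS_eq, primes_split h]
    rw [← SS_eq]
    have h3 := tail_le (X := X) (y := y) (z := z) rfl hL2 hy hd he hde hdX heX
    have h4 : Real.exp (40 / Real.log (Real.log X)) ≤ 1 + ε := by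
      rw [← Real.le_log_iff_exp_le (show (0 : ℝ) < 1 + ε by linarith)]
      rw [div_le_iff₀ (by linarith)]
      have h5 : 40 / Real.log (1 + ε) ≤ Real.log (Real.log X) := by linarith
      rw [div_le_iff₀ hlog] at h5
      linarith
    rw [mul_comm]
    exact mul_le_mul_of_nonneg_right (h3.trans h4) (SS_nonneg _ _)
  · rw [SS_eq z, SS_eq y, primes_split h, ← SS_eq z]
    have hz4 : (4 : ℝ) ≤ z := by linarith
    have h3 := tail_ge (pat d e) (z := z) (y := y) (by exact_mod_cast hz4) h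
    have h6 : 1 ≤ (1 + ε) * ∏ p ∈ (Ioc z y).filter Nat.Prime, fac (pat d e) p := by
      have hzpos : (0 : ℝ) < z := by linarith
      have h7 : 16 * (1 + ε) / ε ≤ z := by linarith
      rw [div_le_iff₀ hε] at h7
      have h8 : 1 ≤ (1 + ε) * (1 - 16 / (z : ℝ)) := by
        have h9 : (1 + ε) * (16 / (z : ℝ)) ≤ ε := by
          rw [← mul_div_assoc, div_le_iff₀ hzpos]
          linarith
        linarith
      exact h8.trans (mul_le_mul_of_nonneg_left h3 (by linarith))
    have h10 := mul_le_mul_of_nonneg_left h6 (SS_nonneg z (pat d e))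
    linarith

end Pool.Agent.Helper34K9.PQ.H48

namespace Pool.Agent.Helper34K9.PQ

/-- [TAIL] -/
theorem tail : S_TAIL := H48.tail_main

end Pool.Agent.Helper34K9.PQ
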