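import Pool.Agent.Helper34K9.PQ.Loc
import Pool.Agent.Helper32K9.Mark.Fund

set_option autoImplicit false
set_option maxHeartbeats 1000000

/-! Rough quadruples, from above. -/

namespace Pool.Agent.Helper34K9.PQ

open Finset Filter
open Pool.Agent.H373R2.T7 (pz PerB nuB Vz Vz_low)
open Pool.Agent.Helper32K9.Mark (fund_int sqrt_small)
open Pool.Agent.TH464.PO (Sf)
open Pool.Agent.W123.RP (Vq)

/-- the condition -/
def Qs (s : Fin 4 → ℕ) (p n : ℕ) : Prop := ∃ i, p ∣ n + s i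

theorem nuB_Qs (s : Fin 4 → ℕ) (p : ℕ) : nuB (Qs s) p = nu s p := by
  classical
  unfold nuB nu Qs
  congr

theorem perB_Qs (s : Fin 4 → ℕ) : PerB (Qs s) 4 := by
  refine ⟨fun p n => ?_, fun p _ => ?_⟩
  · unfold Qs
    refine exists_congr fun i => ?_
    rw [Nat.dvd_iff_mod_eq_zero, Nat.dvd_iff_mod_eq_zero, Nat.mod_add_mod]
  · rw [nuB_Qs]
    exact nu_le_four s p

theorem Vq_Qs (s : Fin 4 → ℕ) (y : ℕ) : Vq (Qs s) y = PV y s := by
  unfold Vq PV
  refine prod_congr rfl fun p _ => ?_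
  rw [nuB_Qs]

theorem Sf_iff (s : Fin 4 → ℕ) (y n : ℕ) : Sf (Qs s) y n ↔ ∀ i, Rough y (n + s i) := by
  unfold Sf Qs Rough
  constructor
  · intro h i p hp hd
    exact h p hp ⟨i, hd⟩
  · rintro h p hp ⟨i, hd⟩
    exact h i p hp hd

open Classical in
/-- the zero case -/
theorem count_zero (s : Fin 4 → ℕ) (y m₀ m₁ : ℕ) (h : PV y s = 0) :
    ((Ioc m₀ m₁).filter (fun n => ∀ i, Rough y (n + s i))).card = 0 := by
  unfold PV at h
  obtain ⟨p, hp, h0⟩ := prod_eq_zero_iff.1 h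
  have hpp := (mem_primes.1 hp).2
  have hp0 : (0 : ℝ) < p := by exact_mod_cast hpp.pos
  have h1 : (nu s p : ℝ) = p := by
    have h2 : (nu s p : ℝ) / p = 1 := by linarith
    rwa [div_eq_one_iff_eq hp0.ne'] at h2
  have h2 : nu s p = p := by exact_mod_cast h1
  rw [card_eq_zero, filter_eq_empty_iff]
  intro n _ hn
  have h3 : (range p).filter (fun c => ∃ i, p ∣ c + s i) = range p := by
    refine eq_of_subset_of_card_le (filter_subset _ _) ?_
    rw [card_range]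
    unfold nu at h2
    exact h2.symm.le
  have h4 : n % p ∈ (range p).filter (fun c => ∃ i, p ∣ c + s i) := by
    rw [h3, mem_range]
    exact Nat.mod_lt _ hpp.pos
  obtain ⟨_, i, hi⟩ := mem_filter.1 h4
  refine hn i p hp ?_
  rw [Nat.dvd_iff_mod_eq_zero, Nat.add_mod, Nat.mod_mod, ← Nat.add_mod, ← Nat.dvd_iff_mod_eq_zero] at hi
  exact hi

theorem ww_tendsto : Tendsto (fun X : ℕ => ww X) atTop atTop := by
  unfold ww
  exact tendsto_nat_ceil_atTop.comp (Real.tendsto_log_atTop.comp tendsto_natCast_atTop_atTop)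

theorem ww_pow (K : ℕ) (ε : ℝ) (hε : 0 < ε) : ∀ᶠ X : ℕ in atTop, ((ww X : ℕ) : ℝ) ^ K ≤ ε * X := by
  have h1 : Tendsto (fun x : ℝ => Real.log x ^ K / x) atTop (nhds 0) := by
    have := Real.isLittleO_pow_log_id_atTop (n := K)
    exact this.tendsto_div_nhds_zero
  have h2 := (h1.comp tendsto_natCast_atTop_atTop).eventually (eventually_le_nhds (show (0 : ℝ) < ε / 2 ^ K by positivity))
  filter_upwards [h2, (Real.tendsto_log_atTop.comp tendsto_natCast_atTop_atTop).eventually_ge_atTop 1,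
    eventually_gt_atTop 0] with X h3 h4 h5
  simp only [Function.comp] at h3 h4
  have hX : (0 : ℝ) < X := by exact_mod_cast h5
  have h6 : ((ww X : ℕ) : ℝ) ≤ 2 * Real.log X := by
    unfold ww
    have := Nat.ceil_lt_add_one (show 0 ≤ Real.log X by linarith)
    linarith
  calc ((ww X : ℕ) : ℝ) ^ K ≤ (2 * Real.log X) ^ K := pow_le_pow_left₀ (Nat.cast_nonneg _) h6 K
    _ = 2 ^ K * Real.log X ^ K := mul_pow _ _ _
    _ ≤ ε * X := by
        rw [div_le_div_iff₀ hX (by positivity)] at h3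
        linarith

theorem u4 : S_U4 := by
  classical
  intro ε hε
  obtain ⟨K, y₀, hK, hF⟩ := fund_int 4 (by norm_num) (ε / 2) (by positivity)
  obtain ⟨C, N0, hV⟩ := Vz_low
  obtain ⟨y₁, hS⟩ := sqrt_small (8 * C) (ε / 2) (by positivity)
  obtain ⟨X₀, hX₀⟩ := eventually_atTop.1 ((ww_pow K ε hε).and
    (ww_tendsto.eventually_ge_atTop (max (max y₀ y₁) (max N0 3))))
  refine ⟨X₀, fun X hX m₀ m₁ hm hd s => ?_⟩
  obtain ⟨h1, h2⟩ := hX₀ X hX
  set y := ww X with hy
  have hy0 : y₀ ≤ y := by omega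
  have hy1 : y₁ ≤ y := by omega
  have hyN : N0 ≤ y := by omega
  have hy3 : 3 ≤ y := by omega
  set Y := m₁ - m₀ with hY
  have hYr : (Y : ℝ) = m₁ - m₀ := by rw [hY, Nat.cast_sub hm]
  have hYm : m₀ + Y = m₁ := by omega
  have hyK : y ^ K ≤ Y := by
    have : ((y ^ K : ℕ) : ℝ) ≤ (Y : ℝ) := by
      push_cast
      rw [hYr]
      exact h1.trans hd
    exact_mod_cast this
  have hyY : y ≤ Y := by
    calc y = y ^ 1 := (pow_one y).symm
      _ ≤ y ^ K := Nat.pow_le_pow_right (by omega) hK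
      _ ≤ Y := hyK
  rw [← hYr]
  by_cases hz : PV y s = 0
  · rw [count_zero s y m₀ m₁ hz, hz]
    simp
  have h3 := (abs_le.1 (hF y hy0 m₀ Y hyK (Qs s) (perB_Qs s))).2
  rw [Vq_Qs, hYm] at h3
  have h4 : (Ioc m₀ m₁).filter (Sf (Qs s) y) = (Ioc m₀ m₁).filter (fun n => ∀ i, Rough y (n + s i)) := by
    refine filter_congr fun n _ => ?_
    exact Sf_iff s y n
  rw [h4] at h3
  have h5 : 1 / Real.log y ^ (8 * C) ≤ PV y s := by
    refine le_trans ?_ (PV_low y s hz)
    have h6 : 1 / Real.log y ^ C ≤ V y := hV y hyN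
    have hl : 0 < Real.log y := Real.log_pos (by exact_mod_cast (by omega : 1 < y))
    calc 1 / Real.log y ^ (8 * C) = (1 / Real.log y ^ C) ^ 8 := by
          rw [div_pow, one_pow, ← pow_mul, mul_comm]
      _ ≤ V y ^ 8 := pow_le_pow_left₀ (by positivity) h6 8
  have h6 := hS y hy1 Y hyY
  have h7 : ε / 2 * Y / Real.log y ^ (8 * C) ≤ ε / 2 * (Y * PV y s) := by
    calc ε / 2 * Y / Real.log y ^ (8 * C) = ε / 2 * Y * (1 / Real.log y ^ (8 * C)) := by ring
      _ ≤ ε / 2 * Y * PV y s := mul_le_mul_of_nonneg_left h5 (by positivity)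
      _ = ε / 2 * (Y * PV y s) := by ring
  linarith

end Pool.Agent.Helper34K9.PQ
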