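import Pool.Agent.Helper34K9.PQ.Loc
import Pool.Agent.H373R2.T7.Fund

/-! # Quadruples of primes, from above: [UP] -/

set_option autoImplicit false

namespace Pool.Agent.Helper34K9.PQ

open Finset Filter

namespace UpL

/-- reciprocals as a homomorphism -/
noncomputable def inv1 : ℕ →* ℝ where
  toFun n := (n : ℝ)⁻¹
  map_one' := by simp
  map_mul' a b := by push_cast; rw [mul_inv]

theorem log_le (y : ℕ) : Real.log (y + 1 : ℕ) ≤ ∏ p ∈ primes y, (1 - 1 / (p : ℝ))⁻¹ := by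
  have h := (EulerProduct.summable_and_hasSum_smoothNumbers_prod_primesBelow_geometric
    (f := inv1) (fun {p} hp => by
      simp only [inv1, MonoidHom.coe_mk, OneHom.coe_mk, norm_inv, Real.norm_natCast]
      exact inv_lt_one_of_one_lt₀ (by exact_mod_cast hp.one_lt)) (y + 1))
  have h2 : HasSum (fun m : (y + 1).smoothNumbers => ((m : ℕ) : ℝ)⁻¹)
      (∏ p ∈ (y + 1).primesBelow, (1 - (p : ℝ)⁻¹)⁻¹) := h.2
  have hpr : primes y = (y + 1).primesBelow := by
    ext p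
    rw [mem_primes, Nat.mem_primesBelow]
    constructor
    · rintro ⟨h1, h2⟩
      exact ⟨by omega, h2⟩
    · rintro ⟨h1, h2⟩
      exact ⟨by omega, h2⟩
  have hprod : ∏ p ∈ primes y, (1 - 1 / (p : ℝ))⁻¹ = ∏ p ∈ (y + 1).primesBelow, (1 - (p : ℝ)⁻¹)⁻¹ := by
    rw [hpr]
    simp only [one_div]
  rw [hprod, ← h2.tsum_eq]
  have hmem : ∀ m ∈ Icc 1 y, m ∈ (y + 1).smoothNumbers := by
    intro m hm
    rw [Finset.mem_Icc] at hm
    exact Nat.mem_smoothNumbers_of_lt (by omega) (by omega)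
  set T : Finset (y + 1).smoothNumbers := (Icc 1 y).attach.image fun m => ⟨m.1, hmem m.1 m.2⟩ with hT
  have h3 : ∑ m ∈ T, ((m : ℕ) : ℝ)⁻¹ = ∑ m ∈ Icc 1 y, (m : ℝ)⁻¹ := by
    rw [hT, sum_image]
    · exact sum_attach (Icc 1 y) (fun m => (m : ℝ)⁻¹)
    · intro a _ b _ hab
      simp only [Subtype.mk.injEq] at hab
      exact Subtype.ext hab
  have h4 : ∑ m ∈ T, ((m : ℕ) : ℝ)⁻¹ ≤ ∑' m : (y + 1).smoothNumbers, ((m : ℕ) : ℝ)⁻¹ :=
    h2.summable.sum_le_tsum T fun m _ => by positivity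
  have h5 := log_add_one_le_harmonic y
  have h6 : ((harmonic y : ℚ) : ℝ) = ∑ m ∈ Icc 1 y, (m : ℝ)⁻¹ := by
    rw [harmonic_eq_sum_Icc]; push_cast; rfl
  rw [h6] at h5
  rw [h3] at h4
  exact h5.trans h4

theorem V_le (y : ℕ) (hy : 2 ≤ y) : V y ≤ 1 / Real.log y := by
  have h1 := log_le y
  have hlog : 0 < Real.log y := Real.log_pos (by exact_mod_cast hy)
  have h2 : Real.log y ≤ Real.log (y + 1 : ℕ) :=
    Real.log_le_log (by positivity) (by push_cast; linarith)
  rw [prod_inv_distrib] at h1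
  have h3 : Real.log y ≤ (V y)⁻¹ := h2.trans h1
  have h4 := V_pos y
  rw [le_div_iff₀ hlog]
  calc V y * Real.log y ≤ V y * (V y)⁻¹ := by gcongr
    _ = 1 := mul_inv_cancel₀ h4.ne'

end UpL

open Classical in
theorem up : S_UP := by
  obtain ⟨K₀, x0, hK₀, hfund⟩ := Pool.Agent.H373R2.T7.sys_fund 4 (by norm_num) 1 one_pos
  obtain ⟨K, hK, hK2⟩ : ∃ K, K₀ ≤ K ∧ 2 ≤ K := ⟨max K₀ 2, le_max_left _ _, le_max_right _ _⟩
  have hKr : (0 : ℝ) < K := by positivity
  have hev : ∀ᶠ X : ℕ in atTop, Real.log X + 1 + ((x0 : ℝ) + 2) ≤ (X : ℝ) ^ (1 / (K : ℝ)) ∧ 3 ≤ X := by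
    have h1 : Tendsto (fun X : ℕ => (X : ℝ)) atTop atTop := tendsto_natCast_atTop_atTop
    have hpos : (0 : ℝ) < 1 / K := by positivity
    have h2 : Tendsto (fun x : ℝ => x ^ (1 / (K : ℝ))) atTop atTop := tendsto_rpow_atTop hpos
    have h3 : ∀ᶠ x : ℝ in atTop, Real.log x ≤ (1 / 2) * x ^ (1 / (K : ℝ)) := by
      have h4 := isLittleO_log_rpow_atTop hpos
      have h5 := h4.bound (show (0 : ℝ) < 1 / 2 by norm_num)
      filter_upwards [h5, eventually_ge_atTop 1] with x hx hx1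
      rw [Real.norm_eq_abs, Real.norm_eq_abs, abs_of_nonneg (Real.log_nonneg hx1),
        abs_of_nonneg (by positivity)] at hx
      exact hx
    have h6 : ∀ᶠ x : ℝ in atTop, 2 * (1 + ((x0 : ℝ) + 2)) ≤ x ^ (1 / (K : ℝ)) :=
      h2.eventually_ge_atTop _
    filter_upwards [h1.eventually h3, h1.eventually h6, eventually_ge_atTop 3] with X ha hb hc
    exact ⟨by linarith, hc⟩
  obtain ⟨X₀, hX₀⟩ := eventually_atTop.1 hev
  refine ⟨2 * (2 * K) ^ 4, by positivity, X₀, fun X hX => ?_⟩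
  obtain ⟨hX1, hX3⟩ := hX₀ X hX
  have hXr : (3 : ℝ) ≤ X := by exact_mod_cast hX3
  set w : ℝ := (X : ℝ) ^ (1 / (K : ℝ)) with hw
  have hlX : 0 < Real.log X := Real.log_pos (by linarith)
  have hw0 : 0 ≤ w := by positivity
  set z : ℕ := ⌊w⌋₊ with hz
  have hzw : (z : ℝ) ≤ w := Nat.floor_le hw0
  have hwz : w < z + 1 := Nat.lt_floor_add_one w
  have hwK : w ^ K = X := by
    rw [hw, ← Real.rpow_natCast, ← Real.rpow_mul (by positivity), one_div,
      inv_mul_cancel₀ hKr.ne', Real.rpow_one]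
  have hzK : z ^ K ≤ X := by
    have h1 : ((z ^ K : ℕ) : ℝ) ≤ X := by
      push_cast
      rw [← hwK]
      exact pow_le_pow_left₀ (by positivity) hzw K
    exact_mod_cast h1
  have hzx : (x0 : ℝ) + 2 ≤ z := by linarith
  have hzx0 : x0 + 2 ≤ z := by exact_mod_cast hzx
  have hz2 : 2 ≤ z := by omega
  have hzK0 : z ^ K₀ ≤ X := (Nat.pow_le_pow_right (by omega) hK).trans hzK
  have hz22 : z ^ 2 ≤ X := (Nat.pow_le_pow_right (by omega) hK2).trans hzK
  have hzsqrt : (z : ℝ) ≤ √X := by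
    apply Real.le_sqrt_of_sq_le
    exact_mod_cast hz22
  refine ⟨z, by linarith, fun s => ?_⟩
  -- the sieve
  obtain ⟨Q, hQd⟩ : ∃ Q : ℕ → ℕ → Prop, ∀ p n, Q p n ↔ ∃ i, p ∣ n + s i :=
    ⟨fun p n => ∃ i, p ∣ n + s i, fun _ _ => Iff.rfl⟩
  have hnu : ∀ p, Pool.Agent.H373R2.T7.nuB Q p = nu s p := by
    intro p
    unfold Pool.Agent.H373R2.T7.nuB nu
    apply congrArg Finset.card
    ext c
    simp only [mem_filter, hQd]
  have hQ : Pool.Agent.H373R2.T7.PerB Q 4 := by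
    refine ⟨fun p n => ?_, fun p _ => ?_⟩
    · rw [hQd, hQd]
      apply exists_congr
      intro i
      rw [Nat.dvd_iff_mod_eq_zero, Nat.dvd_iff_mod_eq_zero, Nat.mod_add_mod]
    · rw [hnu]
      exact nu_le_four s p
  have hs := hfund X z (by omega) hzK0 Q hQ X
  have hPV : ∏ p ∈ Pool.Agent.H373R2.T7.pz z, (1 - (Pool.Agent.H373R2.T7.nuB Q p : ℝ) / p) = PV z s := by
    simp only [hnu]
    rfl
  rw [hPV] at hs
  have hs2 := (abs_le.1 hs).2
  -- the count
  have hsub : (Icc 1 X).filter (fun n => ∀ i, (n + s i).Prime) ⊆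
      ((Icc 1 X).filter (fun n : ℕ => ∀ p ∈ Pool.Agent.H373R2.T7.pz z, ¬ Q p n)) ∪
        (univ : Finset (Fin 4)).biUnion (fun i => (Icc 1 X).filter (fun n => n + s i ≤ z)) := by
    intro n hn
    rw [mem_filter] at hn
    obtain ⟨hn1, hn2⟩ := hn
    rw [mem_union]
    by_cases h : ∃ i, n + s i ≤ z
    · right
      obtain ⟨i, hi⟩ := h
      rw [mem_biUnion]
      exact ⟨i, mem_univ i, mem_filter.2 ⟨hn1, hi⟩⟩
    · left
      push Not at h
      rw [mem_filter]
      refine ⟨hn1, fun p hp => ?_⟩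
      rw [hQd]
      rintro ⟨i, hi⟩
      have hp' := mem_primes.1 (show p ∈ primes z from hp)
      have h3 := ((Nat.prime_dvd_prime_iff_eq hp'.2 (hn2 i)).1 hi)
      have h4 := h i
      omega
  have hcard : (((Icc 1 X).filter (fun n => ∀ i, (n + s i).Prime)).card : ℝ) ≤
      (((Icc 1 X).filter (fun n : ℕ => ∀ p ∈ Pool.Agent.H373R2.T7.pz z, ¬ Q p n)).card : ℝ) + 4 * z := by
    have h1 := card_le_card hsub
    have h2 := h1.trans (card_union_le _ _)
    have h3 : ((univ : Finset (Fin 4)).biUnion (fun i => (Icc 1 X).filter (fun n => n + s i ≤ z))).card ≤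
        4 * z := by
      refine card_biUnion_le.trans ?_
      have h4 : ∀ i ∈ (univ : Finset (Fin 4)), ((Icc 1 X).filter (fun n => n + s i ≤ z)).card ≤ z := by
        intro i _
        have h5 : (Icc 1 X).filter (fun n => n + s i ≤ z) ⊆ Icc 1 z := by
          intro n hn
          rw [mem_filter, mem_Icc] at hn
          rw [mem_Icc]
          omega
        have h6 := card_le_card h5
        rwa [Nat.card_Icc, Nat.add_sub_cancel] at h6
      refine (sum_le_sum h4).trans ?_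
      simp
    have h7 := h2.trans (Nat.add_le_add_left h3 _)
    exact_mod_cast h7
  -- the singular series
  have hV := V_pos z
  have hlz : Real.log X / (2 * K) ≤ Real.log z := by
    have h1 : (X : ℝ) ≤ ((z : ℝ) + 1) ^ K := by
      rw [← hwK]
      exact pow_le_pow_left₀ hw0 hwz.le K
    have hzr : (2 : ℝ) ≤ z := by exact_mod_cast hz2
    have h2 : (z : ℝ) + 1 ≤ (z : ℝ) ^ 2 := by nlinarith
    have h3 : (X : ℝ) ≤ ((z : ℝ) ^ 2) ^ K := h1.trans (pow_le_pow_left₀ (by positivity) h2 K)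
    have h4 := Real.log_le_log (by linarith) h3
    rw [Real.log_pow, Real.log_pow] at h4
    rw [div_le_iff₀ (by positivity)]
    push_cast at h4
    linarith
  have hlz0 : 0 < Real.log z := lt_of_lt_of_le (by positivity) hlz
  have hVle : V z ≤ 2 * K / Real.log X := by
    refine (UpL.V_le z hz2).trans ?_
    rw [div_le_div_iff₀ hlz0 hlX]
    rw [div_le_iff₀ (by positivity)] at hlz
    linarith
  have hV4 : V z ^ 4 ≤ (2 * K / Real.log X) ^ 4 := pow_le_pow_left₀ hV.le hVle 4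
  have hSS : PV z s = SS z s * V z ^ 4 := by
    unfold SS
    rw [div_mul_cancel₀ _ (pow_pos hV 4).ne']
  have hSS0 : 0 ≤ SS z s := div_nonneg (PV_nonneg z s) (pow_nonneg hV.le 4)
  have hmain : X * PV z s ≤ X * (SS z s * (2 * K / Real.log X) ^ 4) := by
    rw [hSS]
    gcongr
  have e : 2 * (X * (SS z s * (2 * K / Real.log X) ^ 4)) =
      2 * (2 * K) ^ 4 * (X / Real.log X ^ 4) * SS z s := by
    rw [div_pow]
    ring
  have hsq : (0 : ℝ) ≤ √X := Real.sqrt_nonneg _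
  rw [← e]
  linarith

end Pool.Agent.Helper34K9.PQ
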