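import Pool.Agent.Helper34K9.PQ.Cnt
import Pool.Agent.Helper34K9.PQ.Deg
import Pool.Agent.Helper34K9.PQ.Gcs
import Pool.Agent.Helper34K9.PQ.Inv
import Pool.Agent.Helper34K9.PQ.Tail
import Pool.Agent.Helper34K9.PQ.U4
import Pool.Agent.Helper34K9.PQ.Up
import Pool.Agent.Helper34K9.PQ.L1F

set_option autoImplicit false

/-! The lower bound for the sum over the parallelograms. -/

namespace Pool.Agent.Helper34K9.PQ

open Finset

open Classical in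
/-- the primes -/
noncomputable def fp (m : ℕ) : ℝ := if m.Prime then 1 else 0

open Classical in
/-- the rough numbers -/
noncomputable def fr (w m : ℕ) : ℝ := if Rough w m then 1 else 0

open Classical in
/-- the number of the quadruples of primes -/
noncomputable def NQ (X d e : ℕ) : ℝ := (((Icc 1 X).filter (fun p => ∀ i, (p + pat d e i).Prime)).card : ℝ)

/-- the first difference -/
def dd (q : ℕ × ℕ × ℕ × ℕ) : ℕ := Nat.dist q.1 q.2.1

/-- the second difference -/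
def ee (q : ℕ × ℕ × ℕ × ℕ) : ℕ := Nat.dist q.2.2.1 q.2.2.2

lemma q4_swap (I A B : Finset ℕ) (f1 f2 f3 f4 : ℕ → ℝ) : Q4 I A B f1 f2 f3 f4 =
    ∑ a ∈ A, ∑ a' ∈ A, ∑ b ∈ B, ∑ b' ∈ B, ∑ n ∈ I,
      f1 (n + (a + b)) * f2 (n + (a' + b)) * f3 (n + (a + b')) * f4 (n + (a' + b')) := by
  unfold Q4
  rw [sum_comm]
  apply sum_congr rfl
  intro a _
  rw [sum_comm]
  apply sum_congr rfl
  intro a' _
  rw [sum_comm]
  apply sum_congr rfl
  intro b _
  rw [sum_comm]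

open Classical in
lemma cnt_M (I : Finset ℕ) (w a a' b b' : ℕ) :
    ∑ n ∈ I, fp (n + (a + b)) * fr w (n + (a' + b)) * fr w (n + (a + b')) * fr w (n + (a' + b')) =
      ((I.filter (fun n => (n + sh a a' b b' 0).Prime ∧ ∀ i, Rough w (n + sh a a' b b' i) ∨ i = 0)).card : ℝ) := by
  rw [natCast_card_filter]
  apply sum_congr rfl
  intro n _
  have hiff : ((n + sh a a' b b' 0).Prime ∧ ∀ i, Rough w (n + sh a a' b b' i) ∨ i = 0) ↔
      ((n + (a + b)).Prime ∧ Rough w (n + (a' + b)) ∧ Rough w (n + (a + b')) ∧ Rough w (n + (a' + b'))) := by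
    constructor
    · intro h
      exact ⟨h.1, (h.2 1).resolve_right (by decide), (h.2 2).resolve_right (by decide), (h.2 3).resolve_right (by decide)⟩
    · rintro ⟨h0, h1, h2, h3⟩
      refine ⟨h0, fun i => ?_⟩
      fin_cases i
      · exact Or.inr rfl
      · exact Or.inl h1
      · exact Or.inl h2
      · exact Or.inl h3
  unfold fp fr
  by_cases h0 : (n + (a + b)).Prime <;> by_cases h1 : Rough w (n + (a' + b)) <;>
    by_cases h2 : Rough w (n + (a + b')) <;> by_cases h3 : Rough w (n + (a' + b')) <;>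
    simp [h0, h1, h2, h3, hiff]

open Classical in
lemma cnt_G (I : Finset ℕ) (P : ℕ → Prop) (f : ℕ → ℝ) (hf : ∀ m, f m = if P m then 1 else 0) (a a' b b' : ℕ) :
    ∑ n ∈ I, f (n + (a + b)) * f (n + (a' + b)) * f (n + (a + b')) * f (n + (a' + b')) =
      ((I.filter (fun n => ∀ i, P (n + sh a a' b b' i))).card : ℝ) := by
  rw [natCast_card_filter]
  apply sum_congr rfl
  intro n _
  have hiff : (∀ i, P (n + sh a a' b b' i)) ↔
      (P (n + (a + b)) ∧ P (n + (a' + b)) ∧ P (n + (a + b')) ∧ P (n + (a' + b'))) := by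
    constructor
    · intro h
      exact ⟨h 0, h 1, h 2, h 3⟩
    · rintro ⟨h0, h1, h2, h3⟩ i
      fin_cases i
      · exact h0
      · exact h1
      · exact h2
      · exact h3
  rw [hf, hf, hf, hf]
  by_cases h0 : P (n + (a + b)) <;> by_cases h1 : P (n + (a' + b)) <;>
    by_cases h2 : P (n + (a + b')) <;> by_cases h3 : P (n + (a' + b')) <;>
    simp [h0, h1, h2, h3, hiff]

lemma nu_const (t p : ℕ) (hp : 0 < p) : nu (fun _ => t) p = 1 := by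
  classical
  have h := card_Om (fun _ => t) p hp
  have h2 : Om (fun _ => t) p = ∅ := by
    rw [eq_empty_iff_forall_notMem]
    intro c hc
    obtain ⟨_, h3, i, h4⟩ := mem_Om.1 hc
    exact h3 h4
  rw [h2, card_empty] at h
  omega

lemma PV_const (t w : ℕ) : PV w (fun _ => t) = V w := by
  unfold PV V
  apply prod_congr rfl
  intro p hp
  rw [nu_const t p (mem_primes.1 hp).2.pos, Nat.cast_one]

/-- the sum over all quadruples is at least the sum over those with four different shifts -/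
lemma fam_le (A B : Finset ℕ) (g : ℕ → ℕ → ℕ → ℕ → ℝ) (hg : ∀ a a' b b', 0 ≤ g a a' b b') :
    ∑ q ∈ fam A B, g q.1 q.2.1 q.2.2.1 q.2.2.2 ≤ ∑ a ∈ A, ∑ a' ∈ A, ∑ b ∈ B, ∑ b' ∈ B, g a a' b b' := by
  have h1 : ∑ a ∈ A, ∑ a' ∈ A, ∑ b ∈ B, ∑ b' ∈ B, g a a' b b' = ∑ q ∈ A ×ˢ A ×ˢ B ×ˢ B, g q.1 q.2.1 q.2.2.1 q.2.2.2 := by
    rw [sum_product]
    apply sum_congr rfl
    intro a _
    rw [sum_product]
    apply sum_congr rfl
    intro a' _
    rw [sum_product]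
  rw [h1]
  apply sum_le_sum_of_subset_of_nonneg (filter_subset _ _)
  intro q _ _
  exact hg _ _ _ _

lemma SS_inv (w a a' b b' : ℕ) : SS w (sh a a' b b') = SS w (pat (Nat.dist a a') (Nat.dist b b')) := by
  unfold SS PV
  congr 1
  apply prod_congr rfl
  intro p hp
  rw [inv a a' b b' p (mem_primes.1 hp).2.one_le]

lemma num1 (η N L Sg V T M G : ℝ) (hη : 0 < η) (hη1 : η ≤ 1 / 16) (hN0 : 0 < N) (hL0 : 0 < L) (hSg0 : 0 ≤ Sg) (hV : 0 < V)
    (hT0 : 0 ≤ T) (hG0 : 0 ≤ G) (hMl : (1 - η) * (N / L) * (Sg / V) ≤ M) (hGu : G ≤ (1 + η) * N * Sg)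
    (hgcs : M ^ 4 ≤ T * G ^ 3) : (1 - 7 * η) * (N / L ^ 4) * (Sg / V ^ 4) ≤ T := by
  rcases hSg0.eq_or_lt with h0 | h0
  · rw [← h0, zero_div, mul_zero]
    exact hT0
  · have hη' : 0 < 1 - η := by linarith
    have hx0 : 0 < (1 - η) * (N / L) * (Sg / V) := by positivity
    have h1 : ((1 - η) * (N / L) * (Sg / V)) ^ 4 ≤ M ^ 4 := pow_le_pow_left₀ hx0.le hMl 4
    have h2 : T * G ^ 3 ≤ T * ((1 + η) * N * Sg) ^ 3 :=
      mul_le_mul_of_nonneg_left (pow_le_pow_left₀ hG0 hGu 3) hT0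
    have h3 : ((1 - η) * (N / L) * (Sg / V)) ^ 4 ≤ T * ((1 + η) * N * Sg) ^ 3 := h1.trans (hgcs.trans h2)
    have h4 : 0 < ((1 + η) * N * Sg) ^ 3 := by positivity
    have h5 : (1 - 7 * η) * (N / L ^ 4) * (Sg / V ^ 4) * ((1 + η) * N * Sg) ^ 3 ≤ ((1 - η) * (N / L) * (Sg / V)) ^ 4 := by
      have h6 : (1 - 7 * η) * (1 + η) ^ 3 ≤ (1 - η) ^ 4 := by
        nlinarith [pow_pos hη 2, pow_pos hη 3, pow_pos hη 4]
      have h7 : (1 - 7 * η) * (N / L ^ 4) * (Sg / V ^ 4) * ((1 + η) * N * Sg) ^ 3 =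
        ((1 - 7 * η) * (1 + η) ^ 3) * ((N / L * (Sg / V)) ^ 4) := by
        field_simp
      have h8 : ((1 - η) * (N / L) * (Sg / V)) ^ 4 = (1 - η) ^ 4 * ((N / L * (Sg / V)) ^ 4) := by
        ring
      rw [h7, h8]
      exact mul_le_mul_of_nonneg_right h6 (by positivity)
    exact le_of_mul_le_mul_right (h5.trans h3) h4

lemma num2 (η N L a b F T : ℝ) (hη1 : η ≤ 1 / 16) (hN0 : 0 < N) (hL0 : 0 < L) (ha : 0 < a) (hb : 0 < b)
    (h1 : F ^ 4 ≤ N ^ 3 * a ^ 2 * b ^ 2 * T) (h2 : (1 - η) * (N / L) * (a * b) ≤ F) :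
    (1 - η) ^ 4 * (N / L ^ 4) * (a ^ 2 * b ^ 2) ≤ T := by
  have hη' : 0 < 1 - η := by linarith
  have h3 : ((1 - η) * (N / L) * (a * b)) ^ 4 ≤ F ^ 4 := pow_le_pow_left₀ (by positivity) h2 4
  have h4 : 0 < N ^ 3 * a ^ 2 * b ^ 2 := by positivity
  have h5 : (1 - η) ^ 4 * (N / L ^ 4) * (a ^ 2 * b ^ 2) * (N ^ 3 * a ^ 2 * b ^ 2) =
      ((1 - η) * (N / L) * (a * b)) ^ 4 := by
    field_simp
  apply le_of_mul_le_mul_right _ h4
  rw [h5]
  refine (h3.trans h1).trans (le_of_eq ?_)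
  ring

lemma num3 (η N L a b T : ℝ) (hη : 0 < η) (hη1 : η ≤ 1 / 16) (hN0 : 0 < N) (hL0 : 0 < L) (ha : 0 < a) (hb : 0 < b)
    (hT0 : 0 ≤ T) (hA : 16 * L ^ 2 ≤ η * a) (hB : 16 * L ^ 2 ≤ η * b)
    (hTB : (1 - η) ^ 4 * (N / L ^ 4) * (a ^ 2 * b ^ 2) ≤ T) : (b + 3 * a) * √(T * N) ≤ η * T := by
  have h1 : (b + 3 * a) * L ^ 2 ≤ η / 4 * (a * b) := by
    have h2 : b * (16 * L ^ 2) ≤ b * (η * a) := mul_le_mul_of_nonneg_left hA hb.le
    have h3 : a * (16 * L ^ 2) ≤ a * (η * b) := mul_le_mul_of_nonneg_left hB ha.le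
    nlinarith
  have h2 : (b + 3 * a) ^ 2 * N ≤ η ^ 2 * T := by
    have h3 : ((b + 3 * a) * L ^ 2) ^ 2 ≤ (η / 4 * (a * b)) ^ 2 :=
      pow_le_pow_left₀ (by positivity) h1 2
    have h4 : (1 / 16 : ℝ) ≤ (1 - η) ^ 4 := by
      have h5 : (1 / 2 : ℝ) ≤ 1 - η := by linarith
      calc (1 / 16 : ℝ) = (1 / 2) ^ 4 := by norm_num
        _ ≤ (1 - η) ^ 4 := pow_le_pow_left₀ (by norm_num) h5 4
    have h5 : (1 / 16 : ℝ) * ((N / L ^ 4) * (a ^ 2 * b ^ 2)) ≤ T := by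
      refine le_trans ?_ hTB
      rw [mul_assoc ((1 - η) ^ 4)]
      exact mul_le_mul_of_nonneg_right h4 (by positivity)
    have h6 : (b + 3 * a) ^ 2 * N ≤ η ^ 2 * ((1 / 16 : ℝ) * ((N / L ^ 4) * (a ^ 2 * b ^ 2))) := by
      have h7 : η ^ 2 * ((1 / 16 : ℝ) * ((N / L ^ 4) * (a ^ 2 * b ^ 2))) =
        (η / 4 * (a * b)) ^ 2 * N / L ^ 4 := by ring
      rw [h7, le_div_iff₀ (by positivity)]
      calc (b + 3 * a) ^ 2 * N * L ^ 4 = ((b + 3 * a) * L ^ 2) ^ 2 * N := by ring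
        _ ≤ (η / 4 * (a * b)) ^ 2 * N := mul_le_mul_of_nonneg_right h3 hN0.le
    exact h6.trans (mul_le_mul_of_nonneg_left h5 (by positivity))
  have h3 : ((b + 3 * a) * √(T * N)) ^ 2 ≤ (η * T) ^ 2 := by
    rw [mul_pow, Real.sq_sqrt (by positivity)]
    calc (b + 3 * a) ^ 2 * (T * N) = ((b + 3 * a) ^ 2 * N) * T := by ring
      _ ≤ (η ^ 2 * T) * T := mul_le_mul_of_nonneg_right h2 hT0
      _ = (η * T) ^ 2 := by ring
  exact (sq_le_sq₀ (by positivity) (by positivity)).1 h3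

lemma num4 (η N L X Z S T R : ℝ) (hη : 0 < η) (hη1 : η ≤ 1 / 16) (hL0 : 0 < L) (hX0 : 0 < X) (hZ : 0 ≤ Z)
    (hNX : (1 - 2 * η) * X ≤ N) (h1 : Z ≤ S) (hTS : (1 - 7 * η) * (N / L ^ 4) * S ≤ T) (hR : (1 - η) * T ≤ R) :
    (1 - 12 * η) * (X / L ^ 4) * Z ≤ R := by
  have h4 : (1 - 2 * η) * (X / L ^ 4) ≤ N / L ^ 4 := by
    rw [mul_div_assoc']
    exact div_le_div_of_nonneg_right hNX (by positivity)
  have h5 : (1 - 7 * η) * ((1 - 2 * η) * (X / L ^ 4)) * Z ≤ T := by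
    refine le_trans ?_ hTS
    have h6 : 0 ≤ 1 - 7 * η := by linarith
    have h7 : 0 ≤ 1 - 2 * η := by linarith
    have h8 : 0 ≤ (1 - 2 * η) * (X / L ^ 4) := by positivity
    exact mul_le_mul (mul_le_mul_of_nonneg_left h4 h6) h1 hZ (mul_nonneg h6 (h8.trans h4))
  have h6 : (1 - 12 * η) * (X / L ^ 4) * Z ≤ (1 - η) * ((1 - 7 * η) * ((1 - 2 * η) * (X / L ^ 4)) * Z) := by
    have h7 : (1 - 12 * η) ≤ (1 - η) * ((1 - 7 * η) * (1 - 2 * η)) := by nlinarith [pow_pos hη 2, pow_pos hη 3]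
    calc (1 - 12 * η) * (X / L ^ 4) * Z = (1 - 12 * η) * ((X / L ^ 4) * Z) := by ring
      _ ≤ ((1 - η) * ((1 - 7 * η) * (1 - 2 * η))) * ((X / L ^ 4) * Z) := mul_le_mul_of_nonneg_right h7 (by positivity)
      _ = _ := by ring
  exact (h6.trans (mul_le_mul_of_nonneg_left h5 (by linarith))).trans hR

lemma num5 (η N L X Z T R : ℝ) (hη1 : η ≤ 1 / 16) (hL0 : 0 < L) (hX0 : 0 < X) (hZ : 0 ≤ Z)
    (hNX : (1 - 2 * η) * X ≤ N) (hTB : (1 - η) ^ 4 * (N / L ^ 4) * Z ≤ T) (hR : (1 - η) * T ≤ R) :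
    1 / 2 * (X / L ^ 4) * Z ≤ R := by
  have h4 : (1 - 2 * η) * (X / L ^ 4) ≤ N / L ^ 4 := by
    rw [mul_div_assoc']
    exact div_le_div_of_nonneg_right hNX (by positivity)
  have hη' : 0 ≤ 1 - η := by linarith
  have h5 : (1 - η) ^ 4 * ((1 - 2 * η) * (X / L ^ 4)) * Z ≤ T := by
    refine le_trans ?_ hTB
    exact mul_le_mul_of_nonneg_right (mul_le_mul_of_nonneg_left h4 (by positivity)) hZ
  have h6 : 1 / 2 * (X / L ^ 4) * Z ≤ (1 - η) * ((1 - η) ^ 4 * ((1 - 2 * η) * (X / L ^ 4)) * Z) := by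
    have h7 : (1 / 2 : ℝ) ≤ (1 - η) * ((1 - η) ^ 4 * (1 - 2 * η)) := by
      have h8 : (15 / 16 : ℝ) ≤ 1 - η := by linarith
      have h9 : (14 / 16 : ℝ) ≤ 1 - 2 * η := by linarith
      calc (1 / 2 : ℝ) ≤ (15 / 16) * ((15 / 16) ^ 4 * (14 / 16)) := by norm_num
        _ ≤ (1 - η) * ((1 - η) ^ 4 * (1 - 2 * η)) := by gcongr
    calc 1 / 2 * (X / L ^ 4) * Z = 1 / 2 * ((X / L ^ 4) * Z) := by ring
      _ ≤ ((1 - η) * ((1 - η) ^ 4 * (1 - 2 * η))) * ((X / L ^ 4) * Z) :=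
        mul_le_mul_of_nonneg_right h7 (by positivity)
      _ = _ := by ring
  exact (h6.trans (mul_le_mul_of_nonneg_left h5 hη')).trans hR

theorem core (η : ℝ) (hη : 0 < η) (hη1 : η ≤ 1 / 16) : ∃ X₀ : ℕ, ∀ X : ℕ, X₀ ≤ X → ∀ A B : Finset ℕ,
    (∀ a ∈ A, (a : ℝ) ≤ η / 4 * X) → (∀ b ∈ B, (b : ℝ) ≤ η / 4 * X) →
    16 / η * Real.log X ^ 2 ≤ A.card → 16 / η * Real.log X ^ 2 ≤ B.card →
    (1 - 12 * η) * (X / Real.log X ^ 4) * ∑ q ∈ fam A B, SS (ww X) (pat (dd q) (ee q)) ≤ ∑ q ∈ fam A B, NQ X (dd q) (ee q) ∧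
    1 / 2 * (X / Real.log X ^ 4) * ((A.card : ℝ) ^ 2 * (B.card : ℝ) ^ 2) ≤ ∑ q ∈ fam A B, NQ X (dd q) (ee q) := by
  classical
  obtain ⟨X1, hX1⟩ := l1 η hη
  obtain ⟨X2, hX2⟩ := u4 η hη
  obtain ⟨X3, hX3⟩ : ∃ n : ℕ, (2 : ℝ) / η ≤ n := ⟨_, Nat.le_ceil _⟩
  refine ⟨max (max X1 X2) (max X3 3), fun X hX A B hA hB hAc hBc => ?_⟩
  have g1 := hX1 X ((le_max_left _ _).trans ((le_max_left _ _).trans hX))
  have g2 := hX2 X ((le_max_right _ _).trans ((le_max_left _ _).trans hX))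
  have g3 : X3 ≤ X := (le_max_left _ _).trans ((le_max_right _ _).trans hX)
  have g4 : 3 ≤ X := (le_max_right _ _).trans ((le_max_right _ _).trans hX)
  have hXr : (3 : ℝ) ≤ X := by exact_mod_cast g4
  have hX0 : (0 : ℝ) < X := by linarith
  have hηX : 2 ≤ η * X := by
    have h1 : (2 : ℝ) / η ≤ X := hX3.trans (Nat.cast_le.2 g3)
    rw [div_le_iff₀ hη] at h1
    linarith
  have hL1 : 1 < Real.log X := by
    rw [Real.lt_log_iff_exp_lt hX0]
    have := Real.exp_one_lt_d9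
    linarith
  generalize hL : Real.log X = L at *
  have hL0 : 0 < L := by linarith
  generalize hw : ww X = w at *
  have hV := V_pos w
  obtain ⟨Δ, hΔ1, hΔ2⟩ : ∃ Δ : ℕ, (Δ : ℝ) ≤ η / 4 * X ∧ ∀ c : ℕ, (c : ℝ) ≤ η / 4 * X → c ≤ Δ :=
    ⟨⌊η / 4 * X⌋₊, Nat.floor_le (by positivity), fun c hc => Nat.le_floor hc⟩
  have hA' : ∀ a ∈ A, a ≤ Δ := fun a ha => hΔ2 a (hA a ha)
  have hB' : ∀ b ∈ B, b ≤ Δ := fun b hb => hΔ2 b (hB b hb)
  have h2Δ : 2 * Δ ≤ X := by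
    have : ((2 * Δ : ℕ) : ℝ) ≤ X := by
      push_cast
      nlinarith
    exact_mod_cast this
  obtain ⟨m0, hm0l, hm0u⟩ : ∃ m : ℕ, η * X ≤ m ∧ (m : ℝ) < η * X + 1 :=
    ⟨⌈η * X⌉₊, Nat.le_ceil _, Nat.ceil_lt_add_one (by positivity)⟩
  obtain ⟨m1, hm1⟩ : ∃ m : ℕ, m = X - 2 * Δ := ⟨_, rfl⟩
  have hm1r : (m1 : ℝ) = X - 2 * Δ := by
    rw [hm1, Nat.cast_sub h2Δ]; push_cast; ring
  have hm1X : m1 ≤ X := by omega
  obtain ⟨N, hN⟩ : ∃ N : ℝ, N = (m1 : ℝ) - m0 := ⟨_, rfl⟩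
  have hNX : (1 - 2 * η) * X ≤ N := by
    rw [hN, hm1r]
    nlinarith
  have hNη : η * X ≤ N := by nlinarith
  have hN0 : 0 < N := by linarith
  have hm01 : m0 ≤ m1 := by
    have : (m0 : ℝ) ≤ m1 := by linarith
    exact_mod_cast this
  obtain ⟨I, hI⟩ : ∃ I : Finset ℕ, I = Ioc m0 m1 := ⟨_, rfl⟩
  have hIc : (I.card : ℝ) = N := by
    rw [hI, hN, Nat.card_Ioc, Nat.cast_sub hm01]
  have hshX : ∀ a ∈ A, ∀ a' ∈ A, ∀ b ∈ B, ∀ b' ∈ B, ∀ i, sh a a' b b' i ≤ X := by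
    intro a ha a' ha' b hb b' hb' i
    have h1 := hA' a ha
    have h2 := hA' a' ha'
    have h3 := hB' b hb
    have h4 := hB' b' hb'
    fin_cases i
    · show a + b ≤ X
      omega
    · show a' + b ≤ X
      omega
    · show a + b' ≤ X
      omega
    · show a' + b' ≤ X
      omega
  have hSg0 : 0 ≤ ∑ a ∈ A, ∑ a' ∈ A, ∑ b ∈ B, ∑ b' ∈ B, PV w (sh a a' b b') :=
    sum_nonneg fun a _ => sum_nonneg fun a' _ => sum_nonneg fun b _ => sum_nonneg fun b' _ => PV_nonneg _ _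
  have hMl : (1 - η) * (N / L) * ((∑ a ∈ A, ∑ a' ∈ A, ∑ b ∈ B, ∑ b' ∈ B, PV w (sh a a' b b')) / V w) ≤
      Q4 I A B fp (fr w) (fr w) (fr w) := by
    rw [q4_swap, sum_div, mul_sum]
    apply sum_le_sum
    intro a ha
    rw [sum_div, mul_sum]
    apply sum_le_sum
    intro a' ha'
    rw [sum_div, mul_sum]
    apply sum_le_sum
    intro b hb
    rw [sum_div, mul_sum]
    apply sum_le_sum
    intro b' hb'
    rw [cnt_M, hI, hN]
    exact g1 m0 m1 hm0l (by linarith) hm1X (sh a a' b b') (hshX a ha a' ha' b hb b' hb')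
  have hGu : Q4 I A B (fr w) (fr w) (fr w) (fr w) ≤ (1 + η) * N * ∑ a ∈ A, ∑ a' ∈ A, ∑ b ∈ B, ∑ b' ∈ B, PV w (sh a a' b b') := by
    rw [q4_swap, mul_sum]
    apply sum_le_sum
    intro a _
    rw [mul_sum]
    apply sum_le_sum
    intro a' _
    rw [mul_sum]
    apply sum_le_sum
    intro b _
    rw [mul_sum]
    apply sum_le_sum
    intro b' _
    rw [cnt_G I (Rough w) (fr w) (fun m => rfl), hI, hN]
    exact g2 m0 m1 hm01 (by rw [← hN]; exact hNη) (sh a a' b b')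
  have hT0 : 0 ≤ Q4 I A B fp fp fp fp := GcsL.q4_self_nonneg I A B fp
  have hTS := num1 η N L _ (V w) _ _ _ hη hη1 hN0 hL0 hSg0 hV hT0 (GcsL.q4_self_nonneg I A B (fr w)) hMl hGu
    (gcs I A B fp (fr w))
  -- the sizes
  have hAc' : 16 * L ^ 2 ≤ η * A.card := by
    have h1 : 16 / η * L ^ 2 = 16 * L ^ 2 / η := by ring
    rw [h1, div_le_iff₀ hη] at hAc
    linarith
  have hBc' : 16 * L ^ 2 ≤ η * B.card := by
    have h1 : 16 / η * L ^ 2 = 16 * L ^ 2 / η := by ring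
    rw [h1, div_le_iff₀ hη] at hBc
    linarith
  have hL2 : 0 < L ^ 2 := by positivity
  have hA0 : (0 : ℝ) < A.card := by
    by_contra h
    have h1 : (A.card : ℝ) = 0 := le_antisymm (not_lt.1 h) (Nat.cast_nonneg _)
    rw [h1] at hAc'
    linarith
  have hB0 : (0 : ℝ) < B.card := by
    by_contra h
    have h1 : (B.card : ℝ) = 0 := le_antisymm (not_lt.1 h) (Nat.cast_nonneg _)
    rw [h1] at hBc'
    linarith
  have hbox := box I A B fp
  rw [hIc] at hbox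
  have hfirst : (1 - η) * (N / L) * (A.card * B.card) ≤ ∑ n ∈ I, ∑ a ∈ A, ∑ b ∈ B, fp (n + (a + b)) := by
    rw [sum_comm]
    have h3 : ∀ a ∈ A, (1 - η) * (N / L) * B.card ≤ ∑ n ∈ I, ∑ b ∈ B, fp (n + (a + b)) := by
      intro a ha
      rw [sum_comm]
      have h4 : ∀ b ∈ B, (1 - η) * (N / L) ≤ ∑ n ∈ I, fp (n + (a + b)) := by
        intro b hb
        have h5 := g1 m0 m1 hm0l (by linarith) hm1X (fun _ => a + b) (fun _ => by
          have h6 := hA' a ha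
          have h7 := hB' b hb
          show a + b ≤ X
          omega)
        rw [PV_const, div_self hV.ne', mul_one, ← hN, ← hI] at h5
        refine h5.trans ?_
        unfold fp
        rw [← natCast_card_filter]
        apply Nat.cast_le.2
        apply card_le_card
        intro n hn
        rw [mem_filter] at hn ⊢
        exact ⟨hn.1, hn.2.1⟩
      have h5 := sum_le_sum h4
      rw [sum_const, nsmul_eq_mul] at h5
      linarith
    have h4 := sum_le_sum h3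
    rw [sum_const, nsmul_eq_mul] at h4
    linarith
  have hTB := num2 η N L A.card B.card _ _ hη1 hN0 hL0 hA0 hB0 hbox hfirst
  have hsq := num3 η N L A.card B.card _ hη hη1 hN0 hL0 hA0 hB0 hT0 hAc' hBc' hTB
  have hdeg := deg I A B fp (fun m => by
    unfold fp
    split_ifs
    · exact Or.inr rfl
    · exact Or.inl rfl)
  rw [hIc] at hdeg
  have hcnt : ∑ n ∈ I, ∑ q ∈ fam A B, fp (n + (q.1 + q.2.2.1)) * fp (n + (q.2.1 + q.2.2.1)) * fp (n + (q.1 + q.2.2.2)) *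
      fp (n + (q.2.1 + q.2.2.2)) ≤ ∑ q ∈ fam A B, NQ X (dd q) (ee q) := by
    rw [sum_comm]
    apply sum_le_sum
    intro q hq
    unfold fam at hq
    rw [mem_filter, mem_product, mem_product, mem_product] at hq
    have h1 := hA' _ hq.1.1
    have h2 := hA' _ hq.1.2.1
    have h3 := hB' _ hq.1.2.2.1
    have h4 := hB' _ hq.1.2.2.2
    rw [cnt_G I Nat.Prime fp (fun m => by unfold fp; by_cases h : m.Prime <;> simp [h]), hI]
    unfold NQ dd ee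
    apply Nat.cast_le.2
    convert cnt q.1 q.2.1 q.2.2.1 q.2.2.2 m0 m1 X (by omega) (by omega) (by omega) (by omega)
  have hmain : (1 - η) * Q4 I A B fp fp fp fp ≤ ∑ q ∈ fam A B, NQ X (dd q) (ee q) := by
    refine le_trans ?_ hcnt
    refine le_trans ?_ hdeg
    linarith
  have hs0 : 0 ≤ ∑ q ∈ fam A B, SS w (pat (dd q) (ee q)) :=
    sum_nonneg fun q _ => div_nonneg (PV_nonneg _ _) (pow_nonneg hV.le 4)
  have h1 : ∑ q ∈ fam A B, SS w (pat (dd q) (ee q)) ≤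
      (∑ a ∈ A, ∑ a' ∈ A, ∑ b ∈ B, ∑ b' ∈ B, PV w (sh a a' b b')) / V w ^ 4 := by
    have h2 := fam_le A B (fun a a' b b' => SS w (sh a a' b b')) (fun a a' b b' =>
      div_nonneg (PV_nonneg _ _) (pow_nonneg hV.le 4))
    have h3 : ∑ q ∈ fam A B, SS w (pat (dd q) (ee q)) = ∑ q ∈ fam A B, SS w (sh q.1 q.2.1 q.2.2.1 q.2.2.2) := by
      apply sum_congr rfl
      intro q _
      rw [SS_inv]
      rfl
    rw [h3]
    refine h2.trans (le_of_eq ?_)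
    simp only [SS, sum_div]
  exact ⟨num4 η N L X _ _ _ _ hη hη1 hL0 hX0 hs0 hNX h1 hTS hmain,
    num5 η N L X _ _ _ hη1 hL0 hX0 (by positivity) hNX hTB hmain⟩

end Pool.Agent.Helper34K9.PQ
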