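import Pool.Agent.Helper34K9.PQ.Stm2
import Pool.Agent.Helper34K9.PQ.Deg

/-!
PQ (MP_092512_nt): the leaf DG2 (degenerate quadruples, without the terms `b = b'`).
-/

set_option autoImplicit false

namespace Pool.Agent.Helper34K9.PQ

open Finset

namespace Dg2L

open DegL

variable (I A B : Finset ℕ) (f : ℕ → ℝ)

theorem qe_eq : QE I A B f f f f =
    ∑ n ∈ I, ∑ q ∈ B.offDiag, (∑ a ∈ A, f (n + (a + q.1)) * f (n + (a + q.2))) ^ 2 := by
  unfold QE
  apply sum_congr rfl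
  intro n _
  have h1 : ∀ a ∈ A, (∑ a' ∈ A, ∑ q ∈ B.offDiag,
      f (n + (a + q.1)) * f (n + (a' + q.1)) * f (n + (a + q.2)) * f (n + (a' + q.2))) =
      ∑ q ∈ B.offDiag, ∑ a' ∈ A,
        f (n + (a + q.1)) * f (n + (a' + q.1)) * f (n + (a + q.2)) * f (n + (a' + q.2)) :=
    fun a _ => sum_comm
  rw [sum_congr rfl h1, sum_comm]
  apply sum_congr rfl
  intro q _
  rw [pow_two, sum_mul_sum]
  apply sum_congr rfl
  intro a _
  apply sum_congr rfl
  intro a' _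
  ring

theorem qe_bound : ∑ n ∈ I, ∑ q ∈ B.offDiag, ∑ a ∈ A, f (n + (a + q.1)) * f (n + (a + q.2)) ≤
    B.card * √(QE I A B f f f f * I.card) := by
  have hQ : 0 ≤ QE I A B f f f f := by
    rw [qe_eq]
    exact sum_nonneg fun n _ => sum_nonneg fun q _ => sq_nonneg _
  apply le_sqrt_of_sq (by positivity)
  have h := sum_mul_sq_le_sq_mul_sq (I ×ˢ B.offDiag) (fun _ : ℕ × ℕ × ℕ => (1 : ℝ))
    (fun t : ℕ × ℕ × ℕ => ∑ a ∈ A, f (t.1 + (a + t.2.1)) * f (t.1 + (a + t.2.2)))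
  have e1 : ∑ t ∈ I ×ˢ B.offDiag, (1 : ℝ) *
      (∑ a ∈ A, f (t.1 + (a + t.2.1)) * f (t.1 + (a + t.2.2))) =
      ∑ n ∈ I, ∑ q ∈ B.offDiag, ∑ a ∈ A, f (n + (a + q.1)) * f (n + (a + q.2)) := by
    rw [sum_product]
    simp only [one_mul]
  have e2 : ∑ t ∈ I ×ˢ B.offDiag,
      (∑ a ∈ A, f (t.1 + (a + t.2.1)) * f (t.1 + (a + t.2.2))) ^ 2 = QE I A B f f f f := by
    rw [qe_eq, sum_product]
  have e3 : ∑ _t ∈ I ×ˢ B.offDiag, (1 : ℝ) ^ 2 ≤ (I.card : ℝ) * (B.card : ℝ) ^ 2 := by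
    rw [sum_const, card_product, nsmul_eq_mul]
    have h2 : (B.offDiag.card : ℝ) ≤ (B.card : ℝ) ^ 2 := by
      have h3 : B.offDiag.card ≤ B.card ^ 2 := by
        rw [offDiag_card, pow_two]
        exact Nat.sub_le _ _
      exact_mod_cast h3
    push_cast
    have h4 : (0 : ℝ) ≤ I.card := Nat.cast_nonneg _
    nlinarith [mul_le_mul_of_nonneg_left h2 h4]
  rw [e1, e2] at h
  exact h.trans (mul_le_mul_of_nonneg_right e3 hQ)

end Dg2L

open DegL Dg2L in
theorem dg2 : S_DG2 := by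
  classical
  intro I A B f hf
  have f0 : ∀ m, 0 ≤ f m := fun m => by rcases hf m with h | h <;> rw [h] <;> norm_num
  have f1 : ∀ m, f m ≤ 1 := fun m => by rcases hf m with h | h <;> rw [h] <;> norm_num
  have hb := qe_bound I A B f
  set R := √(QE I A B f f f f * I.card) with hR
  set P : ℕ → ℕ → ℕ → ℕ → ℕ → ℝ := fun n a a' b b' =>
    f (n + (a + b)) * f (n + (a' + b)) * f (n + (a + b')) * f (n + (a' + b')) with hP
  have P0 : ∀ n a a' b b', 0 ≤ P n a a' b b' := fun n a a' b b' =>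
    mul_nonneg (mul_nonneg (mul_nonneg (f0 _) (f0 _)) (f0 _)) (f0 _)
  have Pb : ∀ n a a' b b', P n a a' b b' ≤ f (n + (a + b)) * f (n + (a + b')) := by
    intro n a a' b b'
    have h1 := f0 (n + (a + b))
    have h2 := f0 (n + (a + b'))
    have h5 : f (n + (a' + b)) * f (n + (a' + b')) ≤ 1 := by
      calc f (n + (a' + b)) * f (n + (a' + b')) ≤ 1 * 1 :=
            mul_le_mul (f1 _) (f1 _) (f0 _) zero_le_one
        _ = 1 := one_mul 1
    calc P n a a' b b' = (f (n + (a + b)) * f (n + (a + b'))) *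
          (f (n + (a' + b)) * f (n + (a' + b'))) := by rw [hP]; ring
      _ ≤ (f (n + (a + b)) * f (n + (a + b'))) * 1 :=
          mul_le_mul_of_nonneg_left h5 (mul_nonneg h1 h2)
      _ = _ := mul_one _
  have hO : B.offDiag = (B ×ˢ B).filter (fun q => q.1 ≠ q.2) := by
    ext q
    rw [mem_offDiag, mem_filter, mem_product, and_assoc]
  -- the sum over the family
  have hfam : ∑ n ∈ I, ∑ q ∈ fam A B, f (n + (q.1 + q.2.2.1)) * f (n + (q.2.1 + q.2.2.1)) *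
      f (n + (q.1 + q.2.2.2)) * f (n + (q.2.1 + q.2.2.2)) =
      ∑ n ∈ I, ∑ a ∈ A, ∑ a' ∈ A, ∑ q ∈ B.offDiag,
        (if a ≠ a' ∧ Nat.dist a a' ≠ Nat.dist q.1 q.2 then P n a a' q.1 q.2 else 0) := by
    apply sum_congr rfl
    intro n _
    unfold fam
    rw [sum_filter, sum_product]
    apply sum_congr rfl
    intro a _
    rw [sum_product]
    apply sum_congr rfl
    intro a' _
    rw [hO, sum_filter]
    apply sum_congr rfl
    intro q _
    by_cases h1 : q.1 = q.2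
    · rw [if_neg (fun h : a ≠ a' ∧ q.1 ≠ q.2 ∧ Nat.dist a a' ≠ Nat.dist q.1 q.2 => h.2.1 h1),
        if_neg (fun h : q.1 ≠ q.2 => h h1)]
    · rw [if_pos h1]
      by_cases h2 : a ≠ a' ∧ Nat.dist a a' ≠ Nat.dist q.1 q.2
      · rw [if_pos h2, if_pos (show a ≠ a' ∧ q.1 ≠ q.2 ∧ Nat.dist a a' ≠ Nat.dist q.1 q.2 from
          ⟨h2.1, h1, h2.2⟩)]
      · rw [if_neg h2, if_neg (fun h : a ≠ a' ∧ q.1 ≠ q.2 ∧ Nat.dist a a' ≠ Nat.dist q.1 q.2 =>
          h2 ⟨h.1, h.2.2⟩)]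
  have hTe : QE I A B f f f f =
      ∑ n ∈ I, ∑ a ∈ A, ∑ a' ∈ A, ∑ q ∈ B.offDiag, P n a a' q.1 q.2 := rfl
  -- the pointwise bound
  have hpt : ∀ n a a' : ℕ, ∀ q ∈ B.offDiag, P n a a' q.1 q.2 ≤
      (if a ≠ a' ∧ Nat.dist a a' ≠ Nat.dist q.1 q.2 then P n a a' q.1 q.2 else 0) +
      (if a = a' then P n a a' q.1 q.2 else 0) +
      (if a + q.2 = a' + q.1 then P n a a' q.1 q.2 else 0) +
      (if a + q.1 = a' + q.2 then P n a a' q.1 q.2 else 0) := by
    intro n a a' q _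
    have hp := P0 n a a' q.1 q.2
    have n1 : ∀ (c : Prop) [Decidable c], 0 ≤ (if c then P n a a' q.1 q.2 else 0) := by
      intro c _
      split_ifs
      · exact hp
      · exact le_rfl
    by_cases h1 : a = a'
    · have := n1 (a ≠ a' ∧ Nat.dist a a' ≠ Nat.dist q.1 q.2)
      have := n1 (a + q.2 = a' + q.1)
      have := n1 (a + q.1 = a' + q.2)
      rw [if_pos h1]
      linarith
    by_cases h3 : Nat.dist a a' = Nat.dist q.1 q.2
    · have h4 : a + q.2 = a' + q.1 ∨ a + q.1 = a' + q.2 := by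
        unfold Nat.dist at h3
        omega
      rcases h4 with h4 | h4
      · have := n1 (a ≠ a' ∧ Nat.dist a a' ≠ Nat.dist q.1 q.2)
        have := n1 (a = a')
        have := n1 (a + q.1 = a' + q.2)
        rw [if_pos h4]
        linarith
      · have := n1 (a ≠ a' ∧ Nat.dist a a' ≠ Nat.dist q.1 q.2)
        have := n1 (a = a')
        have := n1 (a + q.2 = a' + q.1)
        rw [if_pos h4]
        linarith
    · have := n1 (a = a')
      have := n1 (a + q.2 = a' + q.1)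
      have := n1 (a + q.1 = a' + q.2)
      rw [if_pos (show a ≠ a' ∧ Nat.dist a a' ≠ Nat.dist q.1 q.2 from ⟨h1, h3⟩)]
      linarith
  -- the three sums
  have s123 : ∀ (c : ℕ → ℕ → ℕ → ℕ → Prop) [∀ a a' b b', Decidable (c a a' b b')],
      (∀ a b b' x y, c a x b b' → c a y b b' → x = y) →
      ∑ n ∈ I, ∑ a ∈ A, ∑ a' ∈ A, ∑ q ∈ B.offDiag,
        (if c a a' q.1 q.2 then P n a a' q.1 q.2 else 0) ≤ B.card * R := by
    intro c _ hc
    refine le_trans ?_ hb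
    apply sum_le_sum
    intro n _
    have h1 : ∀ a ∈ A, (∑ a' ∈ A, ∑ q ∈ B.offDiag,
        (if c a a' q.1 q.2 then P n a a' q.1 q.2 else 0)) =
        ∑ q ∈ B.offDiag, ∑ a' ∈ A, (if c a a' q.1 q.2 then P n a a' q.1 q.2 else 0) :=
      fun a _ => sum_comm
    rw [sum_congr rfl h1, sum_comm]
    apply sum_le_sum
    intro q _
    apply sum_le_sum
    intro a _
    exact one_index A (fun a' => c a a' q.1 q.2) (fun a' => P n a a' q.1 q.2) _
      (fun x y hx hy => hc a q.1 q.2 x y hx hy) (fun a' => Pb n a a' q.1 q.2)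
      (mul_nonneg (f0 _) (f0 _))
  have s1 := s123 (fun a a' _ _ => a = a') (fun _ _ _ x y hx hy => hx.symm.trans hy)
  have s3 := s123 (fun a a' b b' => a + b' = a' + b) (fun a b b' x y hx hy => by omega)
  have s4 := s123 (fun a a' b b' => a + b = a' + b') (fun a b b' x y hx hy => by omega)
  have htot : QE I A B f f f f ≤ (∑ n ∈ I, ∑ a ∈ A, ∑ a' ∈ A, ∑ q ∈ B.offDiag,
        (if a ≠ a' ∧ Nat.dist a a' ≠ Nat.dist q.1 q.2 then P n a a' q.1 q.2 else 0)) +
      (∑ n ∈ I, ∑ a ∈ A, ∑ a' ∈ A, ∑ q ∈ B.offDiag,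
        (if a = a' then P n a a' q.1 q.2 else 0)) +
      (∑ n ∈ I, ∑ a ∈ A, ∑ a' ∈ A, ∑ q ∈ B.offDiag,
        (if a + q.2 = a' + q.1 then P n a a' q.1 q.2 else 0)) +
      (∑ n ∈ I, ∑ a ∈ A, ∑ a' ∈ A, ∑ q ∈ B.offDiag,
        (if a + q.1 = a' + q.2 then P n a a' q.1 q.2 else 0)) := by
    rw [hTe]
    simp only [← sum_add_distrib]
    exact sum_le_sum (fun n _ => sum_le_sum (fun a _ => sum_le_sum (fun a' _ =>
      sum_le_sum (fun q hq => hpt n a a' q hq))))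
  rw [hfam]
  have e : 3 * (B.card : ℝ) * R = B.card * R + B.card * R + B.card * R := by
    ring
  rw [e]
  linarith

end Pool.Agent.Helper34K9.PQ
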