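import Pool.Agent.Helper34K9.PQ.Stm2
import Pool.Agent.Helper34K9.PQ.Gcs
import Pool.Agent.Helper34K9.PQ.Dg2

set_option autoImplicit false

/-! Inequalities of Cauchy and Schwarz with and without the terms `b = b'`. -/

namespace Pool.Agent.Helper34K9.PQ

open Finset

lemma sum_split (B : Finset ℕ) (F : ℕ → ℕ → ℝ) :
    ∑ b ∈ B, ∑ b' ∈ B, F b b' = ∑ q ∈ B.offDiag, F q.1 q.2 + ∑ b ∈ B, F b b := by
  rw [← sum_product', ← diag_union_offDiag, sum_union (disjoint_diag_offDiag B), sum_diag, add_comm]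

lemma qe_col (I A B : Finset ℕ) (f g : ℕ → ℝ) : QE I A B f g f g = ∑ t ∈ I ×ˢ B.offDiag,
    (∑ a ∈ A, f (t.1 + (a + t.2.1)) * f (t.1 + (a + t.2.2))) *
      ∑ a' ∈ A, g (t.1 + (a' + t.2.1)) * g (t.1 + (a' + t.2.2)) := by
  rw [sum_product]
  unfold QE
  apply sum_congr rfl
  intro n _
  have h1 : ∀ a ∈ A, (∑ a' ∈ A, ∑ q ∈ B.offDiag,
      f (n + (a + q.1)) * g (n + (a' + q.1)) * f (n + (a + q.2)) * g (n + (a' + q.2))) =
      ∑ q ∈ B.offDiag, ∑ a' ∈ A,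
        f (n + (a + q.1)) * g (n + (a' + q.1)) * f (n + (a + q.2)) * g (n + (a' + q.2)) :=
    fun a _ => sum_comm
  rw [sum_congr rfl h1, sum_comm]
  apply sum_congr rfl
  intro q _
  rw [sum_mul_sum]
  apply sum_congr rfl
  intro a _
  apply sum_congr rfl
  intro a' _
  ring

/-- (SPL) -/
theorem spl : S_SPL := by
  intro I A B f g hf hg
  refine ⟨?_, ?_, ?_, ?_, ?_⟩
  · unfold Q4 QE PB
    rw [← sum_add_distrib]
    apply sum_congr rfl
    intro n _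
    rw [← sum_add_distrib]
    apply sum_congr rfl
    intro a _
    rw [← sum_add_distrib]
    apply sum_congr rfl
    intro a' _
    rw [sum_split B (fun b b' => f (n + (a + b)) * g (n + (a' + b)) * f (n + (a + b')) * g (n + (a' + b')))]
    congr 1
    apply sum_congr rfl
    intro b _
    rcases hf (n + (a + b)) with h1 | h1 <;> rcases hg (n + (a' + b)) with h2 | h2 <;> rw [h1, h2] <;> norm_num
  · rw [GcsL.q4_row]
    have h := sum_mul_sq_le_sq_mul_sq (I ×ˢ (A ×ˢ A)) (fun _ : ℕ × ℕ × ℕ => (1 : ℝ))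
      (fun t : ℕ × ℕ × ℕ => ∑ b ∈ B, f (t.1 + (t.2.1 + b)) * g (t.1 + (t.2.2 + b)))
    have e1 : ∑ t ∈ I ×ˢ (A ×ˢ A), (1 : ℝ) * (∑ b ∈ B, f (t.1 + (t.2.1 + b)) * g (t.1 + (t.2.2 + b))) = PB I A B f g := by
      unfold PB
      rw [sum_product]
      apply sum_congr rfl
      intro n _
      rw [sum_product]
      simp only [one_mul]
    have e2 : ∑ _t ∈ I ×ˢ (A ×ˢ A), (1 : ℝ) ^ 2 = (I.card : ℝ) * (A.card : ℝ) ^ 2 := by
      rw [sum_const, card_product, card_product, nsmul_eq_mul]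
      push_cast
      ring
    rw [e1, e2] at h
    simp only [pow_two] at h ⊢
    exact h
  · have h := sum_mul_sq_le_sq_mul_sq (I ×ˢ B.offDiag)
      (fun t : ℕ × ℕ × ℕ => ∑ a ∈ A, f (t.1 + (a + t.2.1)) * f (t.1 + (a + t.2.2)))
      (fun t : ℕ × ℕ × ℕ => ∑ a ∈ A, g (t.1 + (a + t.2.1)) * g (t.1 + (a + t.2.2)))
    rw [← qe_col] at h
    have e1 : ∑ t ∈ I ×ˢ B.offDiag, (∑ a ∈ A, f (t.1 + (a + t.2.1)) * f (t.1 + (a + t.2.2))) ^ 2 = QE I A B f f f f := by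
      rw [Dg2L.qe_eq, sum_product]
    have e2 : ∑ t ∈ I ×ˢ B.offDiag, (∑ a ∈ A, g (t.1 + (a + t.2.1)) * g (t.1 + (a + t.2.2))) ^ 2 ≤ Q4 I A B g g g g := by
      rw [GcsL.q4_col]
      simp only [pow_two]
      apply sum_le_sum_of_subset_of_nonneg
      · apply product_subset_product (Subset.refl _)
        rw [← diag_union_offDiag]
        exact subset_union_right
      · intro t _ _
        exact mul_self_nonneg _
    rw [e1] at h
    refine h.trans (mul_le_mul_of_nonneg_left e2 ?_)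
    rw [Dg2L.qe_eq]
    exact sum_nonneg fun n _ => sum_nonneg fun q _ => sq_nonneg _
  · rw [GcsL.q4_row I A B f g g g, GcsL.q4_row I A B f g f g, GcsL.q4_row I A B g g g g]
    have h := sum_mul_sq_le_sq_mul_sq (I ×ˢ (A ×ˢ A))
      (fun t : ℕ × ℕ × ℕ => ∑ b ∈ B, f (t.1 + (t.2.1 + b)) * g (t.1 + (t.2.2 + b)))
      (fun t : ℕ × ℕ × ℕ => ∑ b ∈ B, g (t.1 + (t.2.1 + b)) * g (t.1 + (t.2.2 + b)))
    simp only [pow_two] at h ⊢
    exact h
  · rw [Dg2L.qe_eq]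
    exact sum_nonneg fun n _ => sum_nonneg fun q _ => sq_nonneg _

end Pool.Agent.Helper34K9.PQ
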