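import Pool.Agent.Helper34K9.PQ.Stm

set_option autoImplicit false

/-! Statements for the form with unequal sizes. -/

namespace Pool.Agent.Helper34K9.PQ

open Finset

/-- the sum over the parallelograms with `b ≠ b'` -/
def QE (I A B : Finset ℕ) (f1 f2 f3 f4 : ℕ → ℝ) : ℝ :=
  ∑ n ∈ I, ∑ a ∈ A, ∑ a' ∈ A, ∑ q ∈ B.offDiag,
    f1 (n + (a + q.1)) * f2 (n + (a' + q.1)) * f3 (n + (a + q.2)) * f4 (n + (a' + q.2))

/-- the degenerate terms `b = b'` -/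
def PB (I A B : Finset ℕ) (f g : ℕ → ℝ) : ℝ := ∑ n ∈ I, ∑ a ∈ A, ∑ a' ∈ A, ∑ b ∈ B, f (n + (a + b)) * g (n + (a' + b))

/-- (SPL) inequalities of Cauchy and Schwarz with and without the terms `b = b'` -/
def S_SPL : Prop := ∀ (I A B : Finset ℕ) (f g : ℕ → ℝ), (∀ m, f m = 0 ∨ f m = 1) → (∀ m, g m = 0 ∨ g m = 1) →
  Q4 I A B f g f g = QE I A B f g f g + PB I A B f g ∧
  PB I A B f g ^ 2 ≤ (I.card : ℝ) * (A.card : ℝ) ^ 2 * Q4 I A B f g f g ∧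
  QE I A B f g f g ^ 2 ≤ QE I A B f f f f * Q4 I A B g g g g ∧
  Q4 I A B f g g g ^ 2 ≤ Q4 I A B f g f g * Q4 I A B g g g g ∧
  0 ≤ QE I A B f f f f

/-- (DG2) the degenerate quadruples, if `A` is large -/
def S_DG2 : Prop := ∀ (I A B : Finset ℕ) (f : ℕ → ℝ), (∀ m, f m = 0 ∨ f m = 1) →
  QE I A B f f f f - 3 * (B.card : ℝ) * √(QE I A B f f f f * I.card) ≤
    ∑ n ∈ I, ∑ q ∈ fam A B, f (n + (q.1 + q.2.2.1)) * f (n + (q.2.1 + q.2.2.1)) * f (n + (q.1 + q.2.2.2)) *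
      f (n + (q.2.1 + q.2.2.2))

open Classical in
/-- (UL) rough numbers, from below -/
def S_UL : Prop := ∀ ε : ℝ, 0 < ε → ∃ X₀ : ℕ, ∀ X : ℕ, X₀ ≤ X → ∀ m₀ m₁ : ℕ, m₀ ≤ m₁ → ε * X ≤ (m₁ : ℝ) - m₀ → ∀ t : ℕ,
  (1 - ε) * ((m₁ : ℝ) - m₀) * V (ww X) ≤ (((Ioc m₀ m₁).filter (fun n => Rough (ww X) (n + t))).card : ℝ)

/-- (VL) the theorem of Mertens, from below -/
def S_VL : Prop := ∃ c : ℝ, 0 < c ∧ ∃ X₀ : ℕ, ∀ X : ℕ, X₀ ≤ X → c / Real.log (Real.log X) ≤ V (ww X)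

end Pool.Agent.Helper34K9.PQ
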