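import Pool.Agent.Helper34K9.PQ.U4
import Pool.Agent.Helper34K9.PQ.Stm2

set_option autoImplicit false
set_option maxHeartbeats 1000000

/-! Rough numbers, from below. -/

namespace Pool.Agent.Helper34K9.PQ

open Finset Filter
open Pool.Agent.H373R2.T7 (pz PerB nuB Vz Vz_low)
open Pool.Agent.Helper32K9.Mark (fund_int sqrt_small)
open Pool.Agent.TH464.PO (Sf)
open Pool.Agent.W123.RP (Vq)

namespace UlL

theorem nu_one (t p : ℕ) : nu (fun _ => t) p ≤ 1 := by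
  classical
  unfold nu
  rw [card_le_one]
  intro a ha b hb
  rw [mem_filter, mem_range] at ha hb
  obtain ⟨ha1, _, ha2⟩ := ha
  obtain ⟨hb1, _, hb2⟩ := hb
  exact class_unique ha1 hb1 ha2 hb2

theorem V_le_PV (t y : ℕ) : V y ≤ PV y (fun _ => t) := by
  unfold V PV
  apply Finset.prod_le_prod
  · intro p hp
    have h2 : (2 : ℝ) ≤ p := by exact_mod_cast (mem_primes.1 hp).2.two_le
    have h3 : 1 / (p : ℝ) ≤ 1 / 2 := one_div_le_one_div_of_le (by norm_num) h2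
    linarith
  · intro p hp
    have h2 : (2 : ℝ) ≤ p := by exact_mod_cast (mem_primes.1 hp).2.two_le
    have h1 : (nu (fun _ => t) p : ℝ) ≤ 1 := by exact_mod_cast nu_one t p
    have h4 : (nu (fun _ => t) p : ℝ) / p ≤ 1 / p := div_le_div_of_nonneg_right h1 (by linarith)
    linarith

end UlL

open UlL

theorem ul : S_UL := by
  classical
  intro ε hε
  rcases le_or_gt 1 ε with hε1 | hε1
  · refine ⟨0, fun X _ m₀ m₁ hm _ t => ?_⟩
    have h1 : (0 : ℝ) ≤ (m₁ : ℝ) - m₀ := by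
      have : (m₀ : ℝ) ≤ m₁ := by exact_mod_cast hm
      linarith
    have h2 : (0 : ℝ) ≤ ((m₁ : ℝ) - m₀) * V (ww X) := mul_nonneg h1 (V_pos _).le
    have h3 : (1 - ε) * ((m₁ : ℝ) - m₀) * V (ww X) ≤ 0 := by
      rw [mul_assoc]
      exact mul_nonpos_of_nonpos_of_nonneg (by linarith) h2
    exact h3.trans (Nat.cast_nonneg _)
  obtain ⟨K, y₀, hK, hF⟩ := fund_int 4 (by norm_num) (ε / 2) (by positivity)
  obtain ⟨C, N0, hV⟩ := Vz_low
  obtain ⟨y₁, hS⟩ := sqrt_small C (ε / 2) (by positivity)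
  obtain ⟨X₀, hX₀⟩ := eventually_atTop.1 ((ww_pow K ε hε).and
    (ww_tendsto.eventually_ge_atTop (max (max y₀ y₁) (max N0 3))))
  refine ⟨X₀, fun X hX m₀ m₁ hm hd t => ?_⟩
  obtain ⟨h1, h2⟩ := hX₀ X hX
  set y := ww X with hy
  have hy0 : y₀ ≤ y := by omega
  have hy1 : y₁ ≤ y := by omega
  have hyN : N0 ≤ y := by omega
  have hy3 : 3 ≤ y := by omega
  set Y := m₁ - m₀ with hY
  have hYr : (Y : ℝ) = m₁ - m₀ := by rw [hY, Nat.cast_sub hm]
  have hYm : m₀ + Y = m₁ := by omega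
  have hyK : y ^ K ≤ Y := by
    have : ((y ^ K : ℕ) : ℝ) ≤ (Y : ℝ) := by
      push_cast
      rw [hYr]
      exact h1.trans hd
    exact_mod_cast this
  have hyY : y ≤ Y := by
    calc y = y ^ 1 := (pow_one y).symm
      _ ≤ y ^ K := Nat.pow_le_pow_right (by omega) hK
      _ ≤ Y := hyK
  rw [← hYr]
  have h3 := (abs_le.1 (hF y hy0 m₀ Y hyK (Qs fun _ => t) (perB_Qs fun _ => t))).1
  rw [Vq_Qs, hYm] at h3
  have h4 : (Ioc m₀ m₁).filter (Sf (Qs fun _ => t) y) = (Ioc m₀ m₁).filter (fun n => Rough y (n + t)) := by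
    refine filter_congr fun n _ => ?_
    rw [Sf_iff]
    exact ⟨fun h => h 0, fun h _ => h⟩
  rw [h4] at h3
  have h5 : 1 / Real.log y ^ C ≤ V y := hV y hyN
  have h6 := hS y hy1 Y hyY
  have h7 : ε / 2 * Y / Real.log y ^ C ≤ ε / 2 * (Y * V y) := by
    calc ε / 2 * Y / Real.log y ^ C = ε / 2 * Y * (1 / Real.log y ^ C) := by ring
      _ ≤ ε / 2 * Y * V y := mul_le_mul_of_nonneg_left h5 (by positivity)
      _ = ε / 2 * (Y * V y) := by ring
  have h8 : (Y : ℝ) * V y ≤ Y * PV y (fun _ => t) := mul_le_mul_of_nonneg_left (V_le_PV t y) (Nat.cast_nonneg _)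
  have h9 : (1 - ε / 2) * ((Y : ℝ) * V y) ≤ (1 - ε / 2) * (Y * PV y (fun _ => t)) :=
    mul_le_mul_of_nonneg_left h8 (by linarith)
  have h10 : (1 - ε) * (Y : ℝ) * V y = (1 - ε / 2) * ((Y : ℝ) * V y) - ε / 2 * (Y * V y) := by ring
  rw [h10]
  linarith

end Pool.Agent.Helper34K9.PQ
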