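import Pool.Agent.Helper34K9.PQ.Core
import Pool.Agent.Helper34K9.PQ.Spl
import Pool.Agent.Helper34K9.PQ.Dg2
import Pool.Agent.Helper34K9.PQ.Ul
import Pool.Agent.Helper86K9.PQ.Vl

set_option autoImplicit false

/-! The lower bound for the sum over the parallelograms, unequal sizes. -/

namespace Pool.Agent.Helper34K9.PQ

open Finset

lemma numA (η N L Sg V M G QG P QEfg QEf a b : ℝ) (hη : 0 < η) (hη1 : η ≤ 1 / 32) (hN0 : 0 < N) (hL0 : 0 < L) (hV : 0 < V)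
    (ha : 0 < a) (hb : 0 < b) (hG0 : 0 ≤ G) (hQf0 : 0 ≤ QEf) (hMl : (1 - η) * (N / L) * (Sg / V) ≤ M) (hGu : G ≤ (1 + η) * N * Sg)
    (hGl : (1 - η) ^ 4 * (N * V ^ 4) * (a ^ 2 * b ^ 2) ≤ G)
    (h1 : M ^ 2 ≤ QG * G) (h2 : QG = QEfg + P) (h3 : P ^ 2 ≤ N * a ^ 2 * QG) (h4 : QEfg ^ 2 ≤ QEf * G)
    (hB : 2 * L ≤ η * (V * b)) :
    (1 - 9 * η) * (N / L ^ 4) * (Sg / V ^ 4) ≤ QEf ∧ 3 / 4 * (a ^ 2 * b ^ 2) ≤ Sg / V ^ 4 := by
  have hη' : 0 < 1 - η := by linarith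
  have hGp : 0 < G := lt_of_lt_of_le (by positivity) hGl
  have hSg : 0 < Sg := by
    by_contra h
    have : (1 + η) * N * Sg ≤ 0 := mul_nonpos_of_nonneg_of_nonpos (by positivity) (not_lt.1 h)
    linarith
  -- the size of `Sg`
  have hS1 : 3 / 4 * (a ^ 2 * b ^ 2) ≤ Sg / V ^ 4 := by
    have h5 : (1 - η) ^ 4 * (N * V ^ 4) * (a ^ 2 * b ^ 2) ≤ (1 + η) * N * Sg := hGl.trans hGu
    have h6 : N * ((1 - η) ^ 4 * V ^ 4 * (a ^ 2 * b ^ 2)) ≤ N * ((1 + η) * Sg) := by linarith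
    have h7 := le_of_mul_le_mul_left h6 hN0
    rw [le_div_iff₀ (by positivity)]
    have h8 : 3 / 4 * (1 + η) ≤ (1 - η) ^ 4 := by
      have h9 : (31 / 32 : ℝ) ≤ 1 - η := by linarith
      calc 3 / 4 * (1 + η) ≤ 3 / 4 * (33 / 32) := by linarith
        _ ≤ (31 / 32) ^ 4 := by norm_num
        _ ≤ (1 - η) ^ 4 := pow_le_pow_left₀ (by norm_num) h9 4
    have h9 : 3 / 4 * (1 + η) * (V ^ 4 * (a ^ 2 * b ^ 2)) ≤ (1 - η) ^ 4 * (V ^ 4 * (a ^ 2 * b ^ 2)) :=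
      mul_le_mul_of_nonneg_right h8 (by positivity)
    have h10 : (1 + η) * (3 / 4 * (a ^ 2 * b ^ 2) * V ^ 4) ≤ (1 + η) * Sg := by linarith
    exact le_of_mul_le_mul_left h10 (by linarith)
  refine ⟨?_, hS1⟩
  have hx0 : 0 < (1 - η) * (N / L) * (Sg / V) := by positivity
  have hM2 : ((1 - η) * (N / L) * (Sg / V)) ^ 2 ≤ QG * G := (pow_le_pow_left₀ hx0.le hMl 2).trans h1
  have hQGp : 0 < QG := by
    by_contra h
    have h5 : QG * G ≤ 0 := mul_nonpos_of_nonpos_of_nonneg (not_lt.1 h) hG0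
    have h6 : 0 < ((1 - η) * (N / L) * (Sg / V)) ^ 2 := by positivity
    linarith
  have hQG : 1 / 2 * (N / L ^ 2) * (V ^ 2 * (a ^ 2 * b ^ 2)) ≤ QG := by
    have h5 : ((1 - η) * (N / L) * (Sg / V)) ^ 2 ≤ QG * ((1 + η) * N * Sg) :=
      hM2.trans (mul_le_mul_of_nonneg_left hGu hQGp.le)
    have h6 : ((1 - η) ^ 2 * (N / L ^ 2) * (Sg / V ^ 2)) * (N * Sg) ≤ ((1 + η) * QG) * (N * Sg) := by
      calc ((1 - η) ^ 2 * (N / L ^ 2) * (Sg / V ^ 2)) * (N * Sg) = ((1 - η) * (N / L) * (Sg / V)) ^ 2 := by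
            field_simp
        _ ≤ QG * ((1 + η) * N * Sg) := h5
        _ = _ := by ring
    have h7 := le_of_mul_le_mul_right h6 (by positivity)
    have h8 : V ^ 2 * (3 / 4 * (a ^ 2 * b ^ 2)) ≤ Sg / V ^ 2 := by
      calc V ^ 2 * (3 / 4 * (a ^ 2 * b ^ 2)) ≤ V ^ 2 * (Sg / V ^ 4) := mul_le_mul_of_nonneg_left hS1 (by positivity)
        _ = Sg / V ^ 2 := by field_simp
    have h9 : (1 - η) ^ 2 * (N / L ^ 2) * (V ^ 2 * (3 / 4 * (a ^ 2 * b ^ 2))) ≤ (1 + η) * QG :=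
      (mul_le_mul_of_nonneg_left h8 (by positivity)).trans h7
    have h10 : 1 / 2 * (1 + η) ≤ (1 - η) ^ 2 * (3 / 4) := by nlinarith
    have h11 : (1 / 2 * (1 + η)) * ((N / L ^ 2) * (V ^ 2 * (a ^ 2 * b ^ 2))) ≤
        ((1 - η) ^ 2 * (3 / 4)) * ((N / L ^ 2) * (V ^ 2 * (a ^ 2 * b ^ 2))) := mul_le_mul_of_nonneg_right h10 (by positivity)
    have h12 : (1 + η) * (1 / 2 * (N / L ^ 2) * (V ^ 2 * (a ^ 2 * b ^ 2))) ≤ (1 + η) * QG := by linarith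
    exact le_of_mul_le_mul_left h12 (by linarith)
  have hP : P ≤ η * QG := by
    have h5 : N * a ^ 2 ≤ η ^ 2 * QG := by
      have h6 : (2 * L) ^ 2 ≤ (η * (V * b)) ^ 2 := pow_le_pow_left₀ (by positivity) hB 2
      have h7 : N * a ^ 2 ≤ η ^ 2 * (1 / 2 * (N / L ^ 2) * (V ^ 2 * (a ^ 2 * b ^ 2))) := by
        have h8 : η ^ 2 * (1 / 2 * (N / L ^ 2) * (V ^ 2 * (a ^ 2 * b ^ 2))) = (N * a ^ 2) * ((η * (V * b)) ^ 2 / (2 * L ^ 2)) := by
          field_simp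
        rw [h8]
        have h9 : 1 ≤ (η * (V * b)) ^ 2 / (2 * L ^ 2) := by
          rw [le_div_iff₀ (by positivity)]
          nlinarith
        have h10 : 0 < N * a ^ 2 := by positivity
        nlinarith
      exact h7.trans (mul_le_mul_of_nonneg_left hQG (by positivity))
    have h6 : P ^ 2 ≤ (η * QG) ^ 2 := by
      refine h3.trans ?_
      calc N * a ^ 2 * QG ≤ (η ^ 2 * QG) * QG := mul_le_mul_of_nonneg_right h5 hQGp.le
        _ = (η * QG) ^ 2 := by ring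
    exact (abs_le_of_sq_le_sq' h6 (by positivity)).2
  have h5 : (1 - η) * QG ≤ QEfg := by linarith
  have h6 : ((1 - η) * QG) ^ 2 ≤ QEf * G := (pow_le_pow_left₀ (by positivity) h5 2).trans h4
  have h7 : (1 - η) ^ 2 * (((1 - η) * (N / L) * (Sg / V)) ^ 4) ≤ QEf * G ^ 3 := by
    calc (1 - η) ^ 2 * (((1 - η) * (N / L) * (Sg / V)) ^ 4) = (1 - η) ^ 2 * (((1 - η) * (N / L) * (Sg / V)) ^ 2) ^ 2 := by ring
      _ ≤ (1 - η) ^ 2 * (QG * G) ^ 2 := by gcongr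
      _ = ((1 - η) * QG) ^ 2 * G ^ 2 := by ring
      _ ≤ (QEf * G) * G ^ 2 := by gcongr
      _ = QEf * G ^ 3 := by ring
  have h8 : QEf * G ^ 3 ≤ QEf * ((1 + η) * N * Sg) ^ 3 :=
    mul_le_mul_of_nonneg_left (pow_le_pow_left₀ hG0 hGu 3) hQf0
  have h9 : 0 < ((1 + η) * N * Sg) ^ 3 := by positivity
  have h10 : (1 - 9 * η) * (N / L ^ 4) * (Sg / V ^ 4) * ((1 + η) * N * Sg) ^ 3 ≤
      (1 - η) ^ 2 * (((1 - η) * (N / L) * (Sg / V)) ^ 4) := by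
    have h11 : (1 - 9 * η) * (1 + η) ^ 3 ≤ (1 - η) ^ 6 := by
      have h12 : 1 - 6 * η ≤ (1 - η) ^ 6 := by
        have := one_add_mul_le_pow (show (-2 : ℝ) ≤ -η by linarith) 6
        push_cast at this
        have e : (1 + -η) ^ 6 = (1 - η) ^ 6 := by ring
        rw [e] at this
        linarith
      refine le_trans ?_ h12
      nlinarith [pow_pos hη 2, pow_pos hη 3, pow_pos hη 4]
    have h12 : (1 - 9 * η) * (N / L ^ 4) * (Sg / V ^ 4) * ((1 + η) * N * Sg) ^ 3 =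
      ((1 - 9 * η) * (1 + η) ^ 3) * ((N / L * (Sg / V)) ^ 4) := by
      field_simp
    have h13 : (1 - η) ^ 2 * (((1 - η) * (N / L) * (Sg / V)) ^ 4) = (1 - η) ^ 6 * ((N / L * (Sg / V)) ^ 4) := by
      ring
    rw [h12, h13]
    exact mul_le_mul_of_nonneg_right h11 (by positivity)
  exact le_of_mul_le_mul_right (h10.trans (h7.trans h8)) h9

lemma numB (η N L Y a b T : ℝ) (hη : 0 < η) (hη1 : η ≤ 1 / 32) (hN0 : 0 < N) (hL0 : 0 < L) (ha : 0 < a) (hb : 0 < b)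
    (hT0 : 0 ≤ T) (hA : 5 * L ^ 2 ≤ η * a) (hY : 3 / 4 * (a ^ 2 * b ^ 2) ≤ Y) (hT : (1 - 9 * η) * (N / L ^ 4) * Y ≤ T) :
    3 * b * √(T * N) ≤ η * T ∧ 17 / 32 * (N / L ^ 4) * (a ^ 2 * b ^ 2) ≤ T := by
  have h0 : 17 / 32 * (N / L ^ 4) * (a ^ 2 * b ^ 2) ≤ T := by
    refine le_trans ?_ hT
    have h1 : (23 / 32 : ℝ) ≤ 1 - 9 * η := by linarith
    have h2 : (N / L ^ 4) * (3 / 4 * (a ^ 2 * b ^ 2)) ≤ (N / L ^ 4) * Y := mul_le_mul_of_nonneg_left hY (by positivity)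
    have h3 : 0 ≤ (N / L ^ 4) * Y := le_trans (by positivity) h2
    have h4 : 23 / 32 * ((N / L ^ 4) * Y) ≤ (1 - 9 * η) * ((N / L ^ 4) * Y) := mul_le_mul_of_nonneg_right h1 h3
    have h5 : 0 ≤ (N / L ^ 4) * (a ^ 2 * b ^ 2) := by positivity
    linarith
  refine ⟨?_, h0⟩
  have h2 : 9 * b ^ 2 * N ≤ η ^ 2 * T := by
    have h3 : (5 * L ^ 2) ^ 2 ≤ (η * a) ^ 2 := pow_le_pow_left₀ (by positivity) hA 2
    have h4 : 9 * b ^ 2 * N ≤ η ^ 2 * (17 / 32 * (N / L ^ 4) * (a ^ 2 * b ^ 2)) := by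
      have h5 : η ^ 2 * (17 / 32 * (N / L ^ 4) * (a ^ 2 * b ^ 2)) = 17 / 32 * (η * a) ^ 2 * b ^ 2 * N / L ^ 4 := by ring
      rw [h5, le_div_iff₀ (by positivity)]
      have h6 : 9 * L ^ 4 ≤ 17 / 32 * (η * a) ^ 2 := by nlinarith [pow_pos hL0 4]
      calc 9 * b ^ 2 * N * L ^ 4 = (9 * L ^ 4) * (b ^ 2 * N) := by ring
        _ ≤ (17 / 32 * (η * a) ^ 2) * (b ^ 2 * N) := mul_le_mul_of_nonneg_right h6 (by positivity)
        _ = _ := by ring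
    exact h4.trans (mul_le_mul_of_nonneg_left h0 (by positivity))
  have h3 : (3 * b * √(T * N)) ^ 2 ≤ (η * T) ^ 2 := by
    rw [mul_pow, Real.sq_sqrt (by positivity)]
    calc (3 * b) ^ 2 * (T * N) = (9 * b ^ 2 * N) * T := by ring
      _ ≤ (η ^ 2 * T) * T := mul_le_mul_of_nonneg_right h2 hT0
      _ = (η * T) ^ 2 := by ring
  exact (sq_le_sq₀ (by positivity) (by positivity)).1 h3

lemma numC (η N L X Z S T R : ℝ) (hη : 0 < η) (hη1 : η ≤ 1 / 32) (hL0 : 0 < L) (hX0 : 0 < X) (hZ : 0 ≤ Z)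
    (hNX : (1 - 2 * η) * X ≤ N) (h1 : Z ≤ S) (hTS : (1 - 9 * η) * (N / L ^ 4) * S ≤ T) (hR : (1 - η) * T ≤ R) :
    (1 - 12 * η) * (X / L ^ 4) * Z ≤ R := by
  have h4 : (1 - 2 * η) * (X / L ^ 4) ≤ N / L ^ 4 := by
    rw [mul_div_assoc']
    exact div_le_div_of_nonneg_right hNX (by positivity)
  have h5 : (1 - 9 * η) * ((1 - 2 * η) * (X / L ^ 4)) * Z ≤ T := by
    refine le_trans ?_ hTS
    have h6 : 0 ≤ 1 - 9 * η := by linarith
    have h7 : 0 ≤ 1 - 2 * η := by linarith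
    have h8 : 0 ≤ (1 - 2 * η) * (X / L ^ 4) := by positivity
    exact mul_le_mul (mul_le_mul_of_nonneg_left h4 h6) h1 hZ (mul_nonneg h6 (h8.trans h4))
  have h6 : (1 - 12 * η) * (X / L ^ 4) * Z ≤ (1 - η) * ((1 - 9 * η) * ((1 - 2 * η) * (X / L ^ 4)) * Z) := by
    have h7 : (1 - 12 * η) ≤ (1 - η) * ((1 - 9 * η) * (1 - 2 * η)) := by
      have h8 : (1 - η) * ((1 - 9 * η) * (1 - 2 * η)) - (1 - 12 * η) = η ^ 2 * (29 - 18 * η) := by ring
      have h9 : 0 ≤ η ^ 2 * (29 - 18 * η) := mul_nonneg (by positivity) (by linarith)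
      linarith
    calc (1 - 12 * η) * (X / L ^ 4) * Z = (1 - 12 * η) * ((X / L ^ 4) * Z) := by ring
      _ ≤ ((1 - η) * ((1 - 9 * η) * (1 - 2 * η))) * ((X / L ^ 4) * Z) := mul_le_mul_of_nonneg_right h7 (by positivity)
      _ = _ := by ring
  exact (h6.trans (mul_le_mul_of_nonneg_left h5 (by linarith))).trans hR

lemma numD (η N L X Z T R : ℝ) (hη1 : η ≤ 1 / 32) (hL0 : 0 < L) (hX0 : 0 < X) (hZ : 0 ≤ Z) (hT0 : 0 ≤ T)
    (hNX : (1 - 2 * η) * X ≤ N) (hTB : 17 / 32 * (N / L ^ 4) * Z ≤ T) (hR : (1 - η) * T ≤ R) :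
    12 / 25 * (X / L ^ 4) * Z ≤ R := by
  have h4 : (1 - 2 * η) * (X / L ^ 4) ≤ N / L ^ 4 := by
    rw [mul_div_assoc']
    exact div_le_div_of_nonneg_right hNX (by positivity)
  have h5 : 30 / 32 * (X / L ^ 4) ≤ N / L ^ 4 := by
    refine le_trans ?_ h4
    apply mul_le_mul_of_nonneg_right _ (by positivity)
    linarith
  have h6 : 17 / 32 * (30 / 32 * (X / L ^ 4)) * Z ≤ T := by
    refine le_trans ?_ hTB
    exact mul_le_mul_of_nonneg_right (mul_le_mul_of_nonneg_left h5 (by norm_num)) hZ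
  have h7 : 31 / 32 * T ≤ (1 - η) * T := mul_le_mul_of_nonneg_right (by linarith) hT0
  have h8 : 0 ≤ (X / L ^ 4) * Z := by positivity
  nlinarith

theorem core2 (η : ℝ) (hη : 0 < η) (hη1 : η ≤ 1 / 32) : ∃ (K : ℝ) (X₀ : ℕ), ∀ X : ℕ, X₀ ≤ X → ∀ A B : Finset ℕ,
    (∀ a ∈ A, (a : ℝ) ≤ η / 4 * X) → (∀ b ∈ B, (b : ℝ) ≤ η / 4 * X) →
    K * Real.log X ^ 2 ≤ A.card → K * (Real.log X * Real.log (Real.log X)) ≤ B.card →
    (1 - 12 * η) * (X / Real.log X ^ 4) * ∑ q ∈ fam A B, SS (ww X) (pat (dd q) (ee q)) ≤ ∑ q ∈ fam A B, NQ X (dd q) (ee q) ∧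
    12 / 25 * (X / Real.log X ^ 4) * ((A.card : ℝ) ^ 2 * (B.card : ℝ) ^ 2) ≤ ∑ q ∈ fam A B, NQ X (dd q) (ee q) := by
  classical
  obtain ⟨X1, hX1⟩ := l1 η hη
  obtain ⟨X2, hX2⟩ := u4 η hη
  obtain ⟨X3, hX3⟩ : ∃ n : ℕ, (2 : ℝ) / η ≤ n := ⟨_, Nat.le_ceil _⟩
  obtain ⟨X5, hX5⟩ := ul η hη
  obtain ⟨c, hc, X6, hX6⟩ := Pool.Agent.Helper86K9.PQ.vl
  obtain ⟨X7, hX7⟩ := Pool.Agent.H373R2.T7.ev_L' 3
  refine ⟨max (5 / η) (2 / (η * c)), max (max (max X1 X2) (max X3 3)) (max X5 (max X6 X7)), fun X hX' A B hA hB hAc hBc => ?_⟩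
  have hX : max (max X1 X2) (max X3 3) ≤ X := (le_max_left _ _).trans hX'
  have g5 := hX5 X ((le_max_left _ _).trans ((le_max_right _ _).trans hX'))
  have g6 := hX6 X ((le_max_left _ _).trans ((le_max_right _ _).trans ((le_max_right _ _).trans hX')))
  have g7 := hX7 X ((le_max_right _ _).trans ((le_max_right _ _).trans ((le_max_right _ _).trans hX')))
  have g1 := hX1 X ((le_max_left _ _).trans ((le_max_left _ _).trans hX))
  have g2 := hX2 X ((le_max_right _ _).trans ((le_max_left _ _).trans hX))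
  have g3 : X3 ≤ X := (le_max_left _ _).trans ((le_max_right _ _).trans hX)
  have g4 : 3 ≤ X := (le_max_right _ _).trans ((le_max_right _ _).trans hX)
  have hXr : (3 : ℝ) ≤ X := by exact_mod_cast g4
  have hX0 : (0 : ℝ) < X := by linarith
  have hηX : 2 ≤ η * X := by
    have h1 : (2 : ℝ) / η ≤ X := hX3.trans (Nat.cast_le.2 g3)
    rw [div_le_iff₀ hη] at h1
    linarith
  have hL1 : 1 < Real.log X := by
    rw [Real.lt_log_iff_exp_lt hX0]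
    have := Real.exp_one_lt_d9
    linarith
  generalize hL : Real.log X = L at *
  have hL0 : 0 < L := by linarith
  generalize hw : ww X = w at *
  have hV := V_pos w
  obtain ⟨Δ, hΔ1, hΔ2⟩ : ∃ Δ : ℕ, (Δ : ℝ) ≤ η / 4 * X ∧ ∀ c : ℕ, (c : ℝ) ≤ η / 4 * X → c ≤ Δ :=
    ⟨⌊η / 4 * X⌋₊, Nat.floor_le (by positivity), fun c hc => Nat.le_floor hc⟩
  have hA' : ∀ a ∈ A, a ≤ Δ := fun a ha => hΔ2 a (hA a ha)
  have hB' : ∀ b ∈ B, b ≤ Δ := fun b hb => hΔ2 b (hB b hb)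
  have h2Δ : 2 * Δ ≤ X := by
    have : ((2 * Δ : ℕ) : ℝ) ≤ X := by
      push_cast
      nlinarith
    exact_mod_cast this
  obtain ⟨m0, hm0l, hm0u⟩ : ∃ m : ℕ, η * X ≤ m ∧ (m : ℝ) < η * X + 1 :=
    ⟨⌈η * X⌉₊, Nat.le_ceil _, Nat.ceil_lt_add_one (by positivity)⟩
  obtain ⟨m1, hm1⟩ : ∃ m : ℕ, m = X - 2 * Δ := ⟨_, rfl⟩
  have hm1r : (m1 : ℝ) = X - 2 * Δ := by
    rw [hm1, Nat.cast_sub h2Δ]; push_cast; ring
  have hm1X : m1 ≤ X := by omega
  obtain ⟨N, hN⟩ : ∃ N : ℝ, N = (m1 : ℝ) - m0 := ⟨_, rfl⟩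
  have hNX : (1 - 2 * η) * X ≤ N := by
    rw [hN, hm1r]
    nlinarith
  have hNη : η * X ≤ N := by nlinarith
  have hN0 : 0 < N := by linarith
  have hm01 : m0 ≤ m1 := by
    have : (m0 : ℝ) ≤ m1 := by linarith
    exact_mod_cast this
  obtain ⟨I, hI⟩ : ∃ I : Finset ℕ, I = Ioc m0 m1 := ⟨_, rfl⟩
  have hIc : (I.card : ℝ) = N := by
    rw [hI, hN, Nat.card_Ioc, Nat.cast_sub hm01]
  have hshX : ∀ a ∈ A, ∀ a' ∈ A, ∀ b ∈ B, ∀ b' ∈ B, ∀ i, sh a a' b b' i ≤ X := by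
    intro a ha a' ha' b hb b' hb' i
    have h1 := hA' a ha
    have h2 := hA' a' ha'
    have h3 := hB' b hb
    have h4 := hB' b' hb'
    fin_cases i
    · show a + b ≤ X
      omega
    · show a' + b ≤ X
      omega
    · show a + b' ≤ X
      omega
    · show a' + b' ≤ X
      omega
  have hSg0 : 0 ≤ ∑ a ∈ A, ∑ a' ∈ A, ∑ b ∈ B, ∑ b' ∈ B, PV w (sh a a' b b') :=
    sum_nonneg fun a _ => sum_nonneg fun a' _ => sum_nonneg fun b _ => sum_nonneg fun b' _ => PV_nonneg _ _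
  have hMl : (1 - η) * (N / L) * ((∑ a ∈ A, ∑ a' ∈ A, ∑ b ∈ B, ∑ b' ∈ B, PV w (sh a a' b b')) / V w) ≤
      Q4 I A B fp (fr w) (fr w) (fr w) := by
    rw [q4_swap, sum_div, mul_sum]
    apply sum_le_sum
    intro a ha
    rw [sum_div, mul_sum]
    apply sum_le_sum
    intro a' ha'
    rw [sum_div, mul_sum]
    apply sum_le_sum
    intro b hb
    rw [sum_div, mul_sum]
    apply sum_le_sum
    intro b' hb'
    rw [cnt_M, hI, hN]
    exact g1 m0 m1 hm0l (by linarith) hm1X (sh a a' b b') (hshX a ha a' ha' b hb b' hb')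
  have hGu : Q4 I A B (fr w) (fr w) (fr w) (fr w) ≤ (1 + η) * N * ∑ a ∈ A, ∑ a' ∈ A, ∑ b ∈ B, ∑ b' ∈ B, PV w (sh a a' b b') := by
    rw [q4_swap, mul_sum]
    apply sum_le_sum
    intro a _
    rw [mul_sum]
    apply sum_le_sum
    intro a' _
    rw [mul_sum]
    apply sum_le_sum
    intro b _
    rw [mul_sum]
    apply sum_le_sum
    intro b' _
    rw [cnt_G I (Rough w) (fr w) (fun m => rfl), hI, hN]
    exact g2 m0 m1 hm01 (by rw [← hN]; exact hNη) (sh a a' b b')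
  have h01 : ∀ m, fp m = 0 ∨ fp m = 1 := fun m => by
    unfold fp
    split_ifs
    · exact Or.inr rfl
    · exact Or.inl rfl
  have h01' : ∀ m, fr w m = 0 ∨ fr w m = 1 := fun m => by
    unfold fr
    split_ifs
    · exact Or.inr rfl
    · exact Or.inl rfl
  obtain ⟨s1, s2, s3, s4, s5⟩ := spl I A B fp (fr w) h01 h01'
  rw [hIc] at s2
  -- the sizes
  have hl2 : 0 < Real.log L := Real.log_pos (by linarith)
  have hAc' : 5 * L ^ 2 ≤ η * A.card := by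
    have h1 : 5 / η * L ^ 2 ≤ A.card := (mul_le_mul_of_nonneg_right (le_max_left _ _) (by positivity)).trans hAc
    have h2 : 5 / η * L ^ 2 = 5 * L ^ 2 / η := by ring
    rw [h2, div_le_iff₀ hη] at h1
    linarith
  have hBc' : 2 * L ≤ η * (V w * B.card) := by
    have h1 : 2 / (η * c) * (L * Real.log L) ≤ B.card := (mul_le_mul_of_nonneg_right (le_max_right _ _) (by positivity)).trans hBc
    have h2 : 2 / (η * c) * (L * Real.log L) = 2 * L / (η * (c / Real.log L)) := by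
      field_simp
    rw [h2, div_le_iff₀ (by positivity)] at h1
    have h3 : (B.card : ℝ) * (η * (c / Real.log L)) ≤ B.card * (η * V w) :=
      mul_le_mul_of_nonneg_left (mul_le_mul_of_nonneg_left g6 hη.le) (Nat.cast_nonneg _)
    linarith
  have hL2 : 0 < L ^ 2 := by positivity
  have hA0 : (0 : ℝ) < A.card := by
    by_contra h
    have h1 : (A.card : ℝ) = 0 := le_antisymm (not_lt.1 h) (Nat.cast_nonneg _)
    rw [h1] at hAc'
    linarith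
  have hB0 : (0 : ℝ) < B.card := by
    by_contra h
    have h1 : (B.card : ℝ) = 0 := le_antisymm (not_lt.1 h) (Nat.cast_nonneg _)
    rw [h1, mul_zero, mul_zero] at hBc'
    linarith
  have hbox := box I A B (fr w)
  rw [hIc] at hbox
  have hfirst : (1 - η) * (N / (1 / V w)) * (A.card * B.card) ≤ ∑ n ∈ I, ∑ a ∈ A, ∑ b ∈ B, fr w (n + (a + b)) := by
    rw [sum_comm]
    have h3 : ∀ a ∈ A, (1 - η) * (N / (1 / V w)) * B.card ≤ ∑ n ∈ I, ∑ b ∈ B, fr w (n + (a + b)) := by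
      intro a ha
      rw [sum_comm]
      have h4 : ∀ b ∈ B, (1 - η) * (N / (1 / V w)) ≤ ∑ n ∈ I, fr w (n + (a + b)) := by
        intro b hb
        have h5 := g5 m0 m1 hm01 (by rw [← hN]; exact hNη) (a + b)
        rw [← hN, ← hI] at h5
        have h6 : (1 - η) * (N / (1 / V w)) = (1 - η) * N * V w := by
          rw [div_div_eq_mul_div, div_one]; ring
        rw [h6]
        refine h5.trans ?_
        unfold fr
        rw [← natCast_card_filter]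
      have h5 := sum_le_sum h4
      rw [sum_const, nsmul_eq_mul] at h5
      linarith
    have h4 := sum_le_sum h3
    rw [sum_const, nsmul_eq_mul] at h4
    linarith
  have hGl := num2 η N (1 / V w) A.card B.card _ _ (by linarith) hN0 (by positivity) hA0 hB0 hbox hfirst
  have hGl' : (1 - η) ^ 4 * (N * V w ^ 4) * ((A.card : ℝ) ^ 2 * (B.card : ℝ) ^ 2) ≤ Q4 I A B (fr w) (fr w) (fr w) (fr w) := by
    refine le_trans (le_of_eq ?_) hGl
    rw [div_pow, one_pow, div_div_eq_mul_div, div_one]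
  obtain ⟨hTS, hY⟩ := numA η N L _ (V w) _ _ _ _ _ _ A.card B.card hη hη1 hN0 hL0 hV hA0 hB0
    (GcsL.q4_self_nonneg I A B (fr w)) s5 hMl hGu hGl' s4 s1 s2 s3 hBc'
  obtain ⟨hsq, hTB⟩ := numB η N L _ A.card B.card _ hη hη1 hN0 hL0 hA0 hB0 s5 hAc' hY hTS
  have hdeg := dg2 I A B fp h01
  rw [hIc] at hdeg
  have hcnt : ∑ n ∈ I, ∑ q ∈ fam A B, fp (n + (q.1 + q.2.2.1)) * fp (n + (q.2.1 + q.2.2.1)) * fp (n + (q.1 + q.2.2.2)) *
      fp (n + (q.2.1 + q.2.2.2)) ≤ ∑ q ∈ fam A B, NQ X (dd q) (ee q) := by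
    rw [sum_comm]
    apply sum_le_sum
    intro q hq
    unfold fam at hq
    rw [mem_filter, mem_product, mem_product, mem_product] at hq
    have h1 := hA' _ hq.1.1
    have h2 := hA' _ hq.1.2.1
    have h3 := hB' _ hq.1.2.2.1
    have h4 := hB' _ hq.1.2.2.2
    rw [cnt_G I Nat.Prime fp (fun m => by unfold fp; by_cases h : m.Prime <;> simp [h]), hI]
    unfold NQ dd ee
    apply Nat.cast_le.2
    convert cnt q.1 q.2.1 q.2.2.1 q.2.2.2 m0 m1 X (by omega) (by omega) (by omega) (by omega)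
  have hmain : (1 - η) * QE I A B fp fp fp fp ≤ ∑ q ∈ fam A B, NQ X (dd q) (ee q) := by
    refine le_trans ?_ hcnt
    refine le_trans ?_ hdeg
    linarith
  have hs0 : 0 ≤ ∑ q ∈ fam A B, SS w (pat (dd q) (ee q)) :=
    sum_nonneg fun q _ => div_nonneg (PV_nonneg _ _) (pow_nonneg hV.le 4)
  have h1 : ∑ q ∈ fam A B, SS w (pat (dd q) (ee q)) ≤
      (∑ a ∈ A, ∑ a' ∈ A, ∑ b ∈ B, ∑ b' ∈ B, PV w (sh a a' b b')) / V w ^ 4 := by
    have h2 := fam_le A B (fun a a' b b' => SS w (sh a a' b b')) (fun a a' b b' =>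
      div_nonneg (PV_nonneg _ _) (pow_nonneg hV.le 4))
    have h3 : ∑ q ∈ fam A B, SS w (pat (dd q) (ee q)) = ∑ q ∈ fam A B, SS w (sh q.1 q.2.1 q.2.2.1 q.2.2.2) := by
      apply sum_congr rfl
      intro q _
      rw [SS_inv]
      rfl
    rw [h3]
    refine h2.trans (le_of_eq ?_)
    simp only [SS, sum_div]
  exact ⟨numC η N L X _ _ _ _ hη hη1 hL0 hX0 hs0 hNX h1 hTS hmain,
    numD η N L X _ _ _ hη1 hL0 hX0 (by positivity) s5 hNX hTB hmain⟩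

end Pool.Agent.Helper34K9.PQ
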