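import Pool.Agent.Helper34K9.PQ.Core2
import Pool.Agent.Helper34K9.PQ.Fin

set_option autoImplicit false

/-! The final form, unequal sizes. -/

namespace Pool.Agent.Helper34K9.PQ

open Finset

lemma fin3 (C M F Sy Nt z : ℝ) (hC : 0 < C) (hM : 0 < M)
    (h1 : 12 / 25 * M * F ≤ Nt) (h4 : Nt ≤ 2 * C * M * Sy + z * F) (h5 : z ≤ 1 / 5 * M) (hF : 0 ≤ F) :
    1 / (8 * C) * F ≤ Sy := by
  have h8 : z * F ≤ 1 / 5 * M * F := mul_le_mul_of_nonneg_right h5 hF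
  have h9 : M * (7 / 25 * F) ≤ M * (2 * C * Sy) := by
    have : 12 / 25 * M * F - 1 / 5 * M * F = M * (7 / 25 * F) := by ring
    linarith
  have h11 := le_of_mul_le_mul_left h9 hM
  rw [div_mul_eq_mul_div, div_le_iff₀ (by positivity)]
  linarith

open Classical in
theorem fin' (ε : ℝ) (hε : 0 < ε) (hε1 : ε ≤ 1) : ∃ δ κ K : ℝ, 0 < δ ∧ 0 < κ ∧ ∃ X₀ : ℕ, ∀ X : ℕ, X₀ ≤ X → ∀ A B : Finset ℕ,
    (∀ a ∈ A, (a : ℝ) ≤ δ * X) → (∀ b ∈ B, (b : ℝ) ≤ δ * X) →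
    K * Real.log X ^ 2 ≤ A.card → K * (Real.log X * Real.log (Real.log X)) ≤ B.card → ∀ y : ℕ, Real.log X ≤ y →
    (1 - ε) * (X / Real.log X ^ 4) * ∑ q ∈ fam A B, SS y (pat (dd q) (ee q)) ≤ ∑ q ∈ fam A B, NQ X (dd q) (ee q) ∧
    κ * ((A.card : ℝ) ^ 2 * (B.card : ℝ) ^ 2) ≤ ∑ q ∈ fam A B, SS y (pat (dd q) (ee q)) ∧
    κ * ∑ q ∈ fam A B, SS y (pat (dd q) (ee q)) ≤
      ∑ q ∈ (fam A B).filter (fun q => (1 - ε) * (X / Real.log X ^ 4) * SS y (pat (dd q) (ee q)) ≤ NQ X (dd q) (ee q)),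
        SS y (pat (dd q) (ee q)) := by
  obtain ⟨C, hC, X1, hup⟩ := up
  set η : ℝ := ε / 32 with hη
  have hη0 : 0 < η := by positivity
  have hη1 : η ≤ 1 / 32 := by rw [hη]; linarith
  obtain ⟨K, X2, hcore⟩ := core2 η hη0 hη1
  obtain ⟨X3, htail⟩ := tail η hη0
  obtain ⟨X4, hX4⟩ := Pool.Agent.H373R2.T7.ev_log' 4 (max 40 (256 * C / ε))
  refine ⟨η / 4, min (1 / (8 * C)) (ε / (8 * C)), K, by positivity, by positivity,
    max (max X1 X2) (max (max X3 X4) 3), fun X hX A B hA hB hAc hBc y hy => ?_⟩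
  have b1 : X1 ≤ X := (le_max_left _ _).trans ((le_max_left _ _).trans hX)
  have b2 : X2 ≤ X := (le_max_right _ _).trans ((le_max_left _ _).trans hX)
  have b3 : X3 ≤ X := (le_max_left _ _).trans ((le_max_left _ _).trans ((le_max_right _ _).trans hX))
  have b4 : X4 ≤ X := (le_max_right _ _).trans ((le_max_left _ _).trans ((le_max_right _ _).trans hX))
  have b5 : 3 ≤ X := (le_max_right _ _).trans ((le_max_right _ _).trans hX)
  obtain ⟨z, hz, hupz⟩ := hup X b1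
  obtain ⟨c1, c2⟩ := hcore X b2 A B hA hB hAc hBc
  have hX4' := hX4 X b4
  have hXr : (3 : ℝ) ≤ X := by exact_mod_cast b5
  have hX0 : (0 : ℝ) < X := by linarith
  have hL0 : 0 < Real.log X := Real.log_pos (by linarith)
  have hM : 0 < (X : ℝ) / Real.log X ^ 4 := by positivity
  -- tails
  have ht : ∀ q ∈ fam A B, ∀ y z : ℕ, Real.log X ≤ y → Real.log X ≤ z →
      SS z (pat (dd q) (ee q)) ≤ (1 + η) * SS y (pat (dd q) (ee q)) := by
    intro q hq y z hy hz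
    obtain ⟨⟨q1, q2, q3, q4⟩, q5, q6, q7⟩ := mem_fam.1 hq
    have hle : ∀ c : ℕ, (c : ℝ) ≤ η / 4 * X → c ≤ X := by
      intro c hc
      have : (c : ℝ) ≤ X := by nlinarith
      exact_mod_cast this
    have d1 := dist_facts q5 (hle _ (hA _ q1)) (hle _ (hA _ q2))
    have d2 := dist_facts q6 (hle _ (hB _ q3)) (hle _ (hB _ q4))
    exact htail X b3 y z hy hz _ _ d1.1 d2.1 q7 d1.2 d2.2
  have hSy0 : 0 ≤ ∑ q ∈ fam A B, SS y (pat (dd q) (ee q)) := sum_nonneg fun q _ => SS_nn _ _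
  have hww : Real.log X ≤ ww X := Nat.le_ceil _
  have hSw : ∑ q ∈ fam A B, SS y (pat (dd q) (ee q)) ≤ (1 + η) * ∑ q ∈ fam A B, SS (ww X) (pat (dd q) (ee q)) := by
    rw [mul_sum]
    exact sum_le_sum fun q hq => ht q hq (ww X) y hww hy
  have hSw0 : 0 ≤ ∑ q ∈ fam A B, SS (ww X) (pat (dd q) (ee q)) := sum_nonneg fun q _ => SS_nn _ _
  have f1 : (1 - ε / 2) * (X / Real.log X ^ 4) * ∑ q ∈ fam A B, SS y (pat (dd q) (ee q)) ≤ ∑ q ∈ fam A B, NQ X (dd q) (ee q) := by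
    refine le_trans ?_ c1
    have h1 : (1 - ε / 2) * (1 + η) ≤ 1 - 12 * η := by
      rw [hη]; nlinarith
    calc (1 - ε / 2) * (X / Real.log X ^ 4) * ∑ q ∈ fam A B, SS y (pat (dd q) (ee q)) ≤
        (1 - ε / 2) * (X / Real.log X ^ 4) * ((1 + η) * ∑ q ∈ fam A B, SS (ww X) (pat (dd q) (ee q))) :=
          mul_le_mul_of_nonneg_left hSw (mul_nonneg (by linarith) hM.le)
      _ = ((1 - ε / 2) * (1 + η)) * ((X / Real.log X ^ 4) * ∑ q ∈ fam A B, SS (ww X) (pat (dd q) (ee q))) := by ring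
      _ ≤ (1 - 12 * η) * ((X / Real.log X ^ 4) * ∑ q ∈ fam A B, SS (ww X) (pat (dd q) (ee q))) :=
          mul_le_mul_of_nonneg_right h1 (mul_nonneg hM.le hSw0)
      _ = _ := by ring
  have hNu : ∀ q ∈ fam A B, NQ X (dd q) (ee q) ≤ 2 * C * (X / Real.log X ^ 4) * SS y (pat (dd q) (ee q)) + 8 * √X := by
    intro q hq
    refine (hupz (pat (dd q) (ee q))).trans ?_
    have h1 := ht q hq y z hy hz
    have h2 : SS z (pat (dd q) (ee q)) ≤ 2 * SS y (pat (dd q) (ee q)) :=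
      h1.trans (mul_le_mul_of_nonneg_right (by linarith) (SS_nn _ _))
    have h3 : C * (X / Real.log X ^ 4) * SS z (pat (dd q) (ee q)) ≤ C * (X / Real.log X ^ 4) * (2 * SS y (pat (dd q) (ee q))) :=
      mul_le_mul_of_nonneg_left h2 (by positivity)
    linarith
  have hsum : ∀ S ⊆ fam A B, ∑ q ∈ S, NQ X (dd q) (ee q) ≤
      2 * C * (X / Real.log X ^ 4) * ∑ q ∈ S, SS y (pat (dd q) (ee q)) + 8 * √X * ((A.card : ℝ) ^ 2 * (B.card : ℝ) ^ 2) := by
    intro S hS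
    have h1 := sum_le_sum fun q hq => hNu q (hS hq)
    rw [sum_add_distrib, sum_const, nsmul_eq_mul, ← mul_sum] at h1
    have h2 : (S.card : ℝ) ≤ (A.card : ℝ) ^ 2 * (B.card : ℝ) ^ 2 :=
      le_trans (by exact_mod_cast card_le_card hS) (card_fam A B)
    have h3 : (S.card : ℝ) * (8 * √X) ≤ ((A.card : ℝ) ^ 2 * (B.card : ℝ) ^ 2) * (8 * √X) :=
      mul_le_mul_of_nonneg_right h2 (by positivity)
    linarith
  have hsq : √(X : ℝ) * √X = X := Real.mul_self_sqrt hX0.le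
  have hs0 : 0 < √(X : ℝ) := Real.sqrt_pos.2 hX0
  have hz1 : 8 * √(X : ℝ) ≤ 1 / 5 * (X / Real.log X ^ 4) := by
    have h1 : 40 * Real.log X ^ 4 ≤ √X := (mul_le_mul_of_nonneg_right (le_max_left _ _) (by positivity)).trans hX4'
    rw [mul_div_assoc', le_div_iff₀ (by positivity)]
    calc 8 * √(X : ℝ) * Real.log X ^ 4 = 1 / 5 * (√X * (40 * Real.log X ^ 4)) := by ring
      _ ≤ 1 / 5 * (√X * √X) := by gcongr
      _ = 1 / 5 * X := by rw [hsq]
  have hz2 : 8 * √(X : ℝ) ≤ ε / (32 * C) * (X / Real.log X ^ 4) := by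
    have h1 : 256 * C / ε * Real.log X ^ 4 ≤ √X := (mul_le_mul_of_nonneg_right (le_max_right _ _) (by positivity)).trans hX4'
    rw [mul_div_assoc', le_div_iff₀ (by positivity)]
    calc 8 * √(X : ℝ) * Real.log X ^ 4 = ε / (32 * C) * (√X * (256 * C / ε * Real.log X ^ 4)) := by
          field_simp
          ring
      _ ≤ ε / (32 * C) * (√X * √X) := by gcongr
      _ = ε / (32 * C) * X := by rw [hsq]
  have f2 : 1 / (8 * C) * ((A.card : ℝ) ^ 2 * (B.card : ℝ) ^ 2) ≤ ∑ q ∈ fam A B, SS y (pat (dd q) (ee q)) :=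
    fin3 C _ _ _ _ _ hC hM c2 (hsum _ (Subset.refl _)) hz1 (by positivity)
  refine ⟨?_, ?_, ?_⟩
  · refine le_trans ?_ f1
    apply mul_le_mul_of_nonneg_right _ hSy0
    apply mul_le_mul_of_nonneg_right _ hM.le
    linarith
  · exact (mul_le_mul_of_nonneg_right (min_le_left _ _) (by positivity)).trans f2
  · refine (mul_le_mul_of_nonneg_right (min_le_right _ _) hSy0).trans ?_
    have h2 := sum_filter_add_sum_filter_not (fam A B)
      (fun q => (1 - ε) * (X / Real.log X ^ 4) * SS y (pat (dd q) (ee q)) ≤ NQ X (dd q) (ee q)) (fun q => NQ X (dd q) (ee q))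
    have h3 : ∑ q ∈ (fam A B).filter (fun q => ¬ (1 - ε) * (X / Real.log X ^ 4) * SS y (pat (dd q) (ee q)) ≤ NQ X (dd q) (ee q)),
        NQ X (dd q) (ee q) ≤ (1 - ε) * (X / Real.log X ^ 4) * ∑ q ∈ fam A B, SS y (pat (dd q) (ee q)) := by
      rw [mul_sum]
      refine (sum_le_sum fun q hq => (not_le.1 (mem_filter.1 hq).2).le).trans ?_
      apply sum_le_sum_of_subset_of_nonneg (filter_subset _ _)
      intro q _ _
      exact mul_nonneg (mul_nonneg (by linarith) hM.le) (SS_nn _ _)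
    exact fin1 ε C _ _ _ _ _ _ _ _ hε hC hM f1 h2.symm h3 (hsum _ (filter_subset _ _)) hz2 (by positivity) f2 hSy0

end Pool.Agent.Helper34K9.PQ
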