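import Pool.Agent.Helper34K9.PQ.L1a
import Pool.Agent.Helper82K9.PR.PR1
import Pool.Agent.H373R2.T7.Fund

set_option autoImplicit false

/-! One prime and three rough numbers, from below. -/

namespace Pool.Agent.Helper34K9.PQ

open Finset H343E
open Pool.Agent.H442R2.EHI (lis)

lemma ap_eq (m0 m1 t q v : ℕ) (h : m0 ≤ m1) :
    (((Ioc m0 m1).filter (fun n => (n + t).Prime ∧ n ≡ v [MOD q])).card : ℝ) =
      piAP (m1 + t) q ((v + t) % q) - piAP (m0 + t) q ((v + t) % q) := by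
  classical
  unfold piAP
  set Q : ℕ → Prop := fun p => p.Prime ∧ p ≡ (v + t) % q [MOD q] with hQ
  have h1 : (Icc 1 (m1 + t)).filter Q = (Icc 1 (m0 + t)).filter Q ∪ (Ioc (m0 + t) (m1 + t)).filter Q := by
    rw [← filter_union]
    congr 1
    ext n
    rw [mem_union, mem_Icc, mem_Icc, mem_Ioc]
    omega
  have h2 : Disjoint ((Icc 1 (m0 + t)).filter Q) ((Ioc (m0 + t) (m1 + t)).filter Q) := by
    apply disjoint_filter_filter
    rw [disjoint_left]
    intro n hn hn'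
    rw [mem_Icc] at hn
    rw [mem_Ioc] at hn'
    omega
  have h3 : ((Ioc m0 m1).filter (fun n => (n + t).Prime ∧ n ≡ v [MOD q])).card = ((Ioc (m0 + t) (m1 + t)).filter Q).card := by
    apply card_bij (fun n _ => n + t)
    · intro n hn
      rw [mem_filter, mem_Ioc] at hn ⊢
      refine ⟨by omega, hn.2.1, ?_⟩
      exact (hn.2.2.add_right t).trans (Nat.mod_modEq _ _).symm
    · intro a _ b _ hab
      omega
    · intro n hn
      rw [mem_filter, mem_Ioc] at hn
      refine ⟨n - t, ?_, by omega⟩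
      rw [mem_filter, mem_Ioc]
      have e : n - t + t = n := by omega
      refine ⟨by omega, by rw [e]; exact hn.2.1, ?_⟩
      have h4 : n ≡ v + t [MOD q] := hn.2.2.trans (Nat.mod_modEq _ _)
      rw [← e] at h4
      exact Nat.ModEq.add_right_cancel' t h4
  rw [h1, card_union_of_disjoint h2, h3]
  push_cast
  ring

lemma lis_diff (y1 y2 : ℕ) (h1 : 2 ≤ y1) (h : y1 ≤ y2) : ((y2 : ℝ) - y1) / Real.log y2 ≤ lis y2 - lis y1 := by
  unfold Pool.Agent.H442R2.EHI.lis
  have e1 : Icc 2 y2 = Icc 2 y1 ∪ Ioc y1 y2 := by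
    ext n
    rw [mem_union, mem_Icc, mem_Icc, mem_Ioc]
    omega
  have e2 : Disjoint (Icc 2 y1) (Ioc y1 y2) := by
    rw [disjoint_left]
    intro n hn hn'
    rw [mem_Icc] at hn
    rw [mem_Ioc] at hn'
    omega
  rw [e1, sum_union e2, add_sub_cancel_left]
  have e3 : ((y2 : ℝ) - y1) / Real.log y2 = ∑ _n ∈ Ioc y1 y2, 1 / Real.log y2 := by
    rw [sum_const, nsmul_eq_mul, Nat.card_Ioc, Nat.cast_sub h]
    ring
  rw [e3]
  apply sum_le_sum
  intro n hn
  rw [mem_Ioc] at hn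
  have h2 : (1 : ℝ) < n := by exact_mod_cast (by omega : 1 < n)
  have h3 : (n : ℝ) ≤ y2 := by exact_mod_cast hn.2
  apply one_div_le_one_div_of_le (Real.log_pos h2)
  exact Real.log_le_log (by linarith) h3

lemma good_card (z0 : ℕ) (s : Fin 4 → ℕ) : by
    classical
    exact (((range (∏ p ∈ primes z0, p)).filter (fun r => ∀ p ∈ primes z0, ∀ i, ¬ p ∣ r + s i)).card : ℝ) =
      ∏ p ∈ primes z0, ((p : ℝ) - nu s p) := by
  classical
  have h := crtN' (primes z0) (fun p hp => (mem_primes.1 hp).2) (fun p n => ∀ i, ¬ p ∣ n + s i) (by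
    intro p n m hnm
    apply forall_congr'
    intro i
    rw [not_iff_not]
    exact (hnm.add_right (s i)).dvd_iff (dvd_refl p))
  show (((range (∏ p ∈ primes z0, p)).filter (fun r => ∀ p ∈ primes z0, ∀ i, ¬ p ∣ r + s i)).card : ℝ) = _
  rw [h]
  push_cast
  apply prod_congr rfl
  intro p _
  have h4 := card_filter_add_card_filter_not (s := range p) (fun c => ∃ i, p ∣ c + s i)
  rw [card_range] at h4
  have h5 : nu s p = ((range p).filter (fun c => ∃ i, p ∣ c + s i)).card := rfl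
  have h6 : ((range p).filter (fun c => ∀ i, ¬ p ∣ c + s i)) = (range p).filter (fun c => ¬ ∃ i, p ∣ c + s i) := by
    apply filter_congr
    intro c _
    push Not
    rfl
  rw [h6]
  have h7 : (nu s p : ℝ) + (((range p).filter (fun c => ¬ ∃ i, p ∣ c + s i)).card : ℝ) = p := by
    rw [h5]
    exact_mod_cast h4
  linarith

lemma totient_W (z0 : ℕ) : ((Nat.totient (∏ p ∈ primes z0, p) : ℕ) : ℝ) = ∏ p ∈ primes z0, ((p : ℝ) - 1) := by
  classical
  have hT : ∀ p ∈ primes z0, p.Prime := fun p hp => (mem_primes.1 hp).2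
  generalize primes z0 = T at hT
  induction T using Finset.induction_on with
  | empty => simp
  | insert q T hq ih =>
    have hqp := hT q (mem_insert_self _ _)
    have hcop : Nat.Coprime q (∏ p ∈ T, p) := by
      apply Nat.Coprime.prod_right
      intro p hp
      rw [Nat.coprime_primes hqp (hT p (mem_insert_of_mem hp))]
      intro h
      rw [h] at hq
      exact hq hp
    rw [prod_insert hq, prod_insert hq, Nat.totient_mul hcop, Nat.cast_mul,
      ih (fun p hp => hT p (mem_insert_of_mem hp)), Nat.totient_prime hqp, Nat.cast_sub hqp.one_le, Nat.cast_one]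

lemma prod_id (z0 w : ℕ) (hz : z0 ≤ w) (s : Fin 4 → ℕ) (Li : ℝ) :
    (∏ p ∈ primes z0, ((p : ℝ) - nu s p)) * (Li / ((Nat.totient (∏ p ∈ primes z0, p) : ℕ) : ℝ) *
      ∏ p ∈ (primes w).filter (fun p => z0 < p), (1 - ((Om s p).card : ℝ) * (1 / ((p : ℝ) - 1)))) = Li * (PV w s / V w) := by
  classical
  rw [totient_W]
  have h1 : PV w s / V w = ∏ p ∈ primes w, (((p : ℝ) - nu s p) / ((p : ℝ) - 1)) := by
    unfold PV V
    rw [← prod_div_distrib]
    apply prod_congr rfl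
    intro p hp
    have h2 : (2 : ℝ) ≤ p := by exact_mod_cast (mem_primes.1 hp).2.two_le
    have h3 : (p : ℝ) - 1 ≠ 0 := by linarith
    have h4 : (p : ℝ) ≠ 0 := by linarith
    have h5 : 1 - 1 / (p : ℝ) ≠ 0 := by
      rw [one_sub_div h4]
      exact div_ne_zero h3 h4
    field_simp
  have h2 : primes w = primes z0 ∪ (primes w).filter (fun p => z0 < p) := by
    ext p
    rw [mem_union, mem_filter, mem_primes, mem_primes]
    constructor
    · rintro ⟨h3, h4⟩
      by_cases h5 : p ≤ z0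
      · exact Or.inl ⟨h5, h4⟩
      · exact Or.inr ⟨⟨h3, h4⟩, by omega⟩
    · rintro (⟨h3, h4⟩ | ⟨h3, _⟩)
      · exact ⟨by omega, h4⟩
      · exact h3
  have h3 : Disjoint (primes z0) ((primes w).filter (fun p => z0 < p)) := by
    rw [disjoint_left]
    intro p hp hp'
    rw [mem_primes] at hp
    rw [mem_filter] at hp'
    omega
  have h4 : ∏ p ∈ (primes w).filter (fun p => z0 < p), (1 - ((Om s p).card : ℝ) * (1 / ((p : ℝ) - 1))) =
      ∏ p ∈ (primes w).filter (fun p => z0 < p), (((p : ℝ) - nu s p) / ((p : ℝ) - 1)) := by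
    apply prod_congr rfl
    intro p hp
    rw [mem_filter] at hp
    have hpp := (mem_primes.1 hp.1).2
    have h5 : (2 : ℝ) ≤ p := by exact_mod_cast hpp.two_le
    have h6 : (p : ℝ) - 1 ≠ 0 := by linarith
    have h7 : ((Om s p).card : ℝ) + 1 = nu s p := by exact_mod_cast card_Om s p hpp.pos
    rw [← h7]
    field_simp
    ring
  rw [h1, h4]
  conv_rhs => rw [h2]
  have h5 : ∏ p ∈ primes z0, (((p : ℝ) - nu s p) / ((p : ℝ) - 1)) =
      (∏ p ∈ primes z0, ((p : ℝ) - nu s p)) / ∏ p ∈ primes z0, ((p : ℝ) - 1) := prod_div_distrib _ _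
  rw [prod_union h3, h5]
  ring

/-- the sum over the classes -/
theorem low_all (C : ℕ) (hF : FLB C) (b J z0 w : ℕ) (hb : C * 5 ≤ b) (hz : C * 5 ≤ z0) (hz5 : 5 ≤ z0)
    (hzw : z0 ≤ w) (hw : w ≤ 2 ^ 2 ^ J) (m0 m1 : ℕ) (hm0 : w ≤ m0) (s : Fin 4 → ℕ)
    (Li E : ℝ) (hLi : 0 ≤ Li) (hE : 0 ≤ E)
    (hAP : ∀ q : ℕ, 1 ≤ q → q ≤ (∏ p ∈ primes z0, p) * (2 ^ 2 ^ J) ^ (C * b) → ∀ v : ℕ, (v + s 0).Coprime q →
      |(((Ioc m0 m1).filter (fun n => (n + s 0).Prime ∧ n ≡ v [MOD q])).card : ℝ) - Li / (Nat.totient q : ℝ)| ≤ E) : by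
    classical
    exact (1 - (1 / 2 : ℝ) ^ b) * (Li * (PV w s / V w)) - ((∏ p ∈ primes z0, p : ℕ) : ℝ) *
      (((J : ℝ) + 2) * ((((2 ^ 2 ^ J) ^ (C * b) : ℕ) : ℝ) * (((2 ^ 2 ^ J) ^ (C * b) : ℕ) : ℝ) * E)) ≤
      (((Ioc m0 m1).filter (fun n => (n + s 0).Prime ∧ ∀ i, Rough w (n + s i) ∨ i = 0)).card : ℝ) := by
  classical
  set W0 := ∏ p ∈ primes z0, p with hW0
  have hW0p : ∀ p ∈ primes z0, p.Prime := fun p hp => (mem_primes.1 hp).2
  have hW01 : 0 < W0 := Nat.pos_of_ne_zero (prod_ne_zero_iff.2 fun p hp => (hW0p p hp).ne_zero)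
  set G := (range W0).filter (fun r => ∀ p ∈ primes z0, ∀ i, ¬ p ∣ r + s i) with hG
  set F := (Ioc m0 m1).filter (fun n => (n + s 0).Prime ∧ ∀ i, Rough w (n + s i) ∨ i = 0) with hFd
  set PP := ∏ p ∈ (primes w).filter (fun p => z0 < p), (1 - ((Om s p).card : ℝ) * (1 / ((p : ℝ) - 1))) with hPP
  set Er := ((J : ℝ) + 2) * ((((2 ^ 2 ^ J) ^ (C * b) : ℕ) : ℝ) * (((2 ^ 2 ^ J) ^ (C * b) : ℕ) : ℝ) * E) with hEr
  have hEr0 : 0 ≤ Er := by positivity
  have h1 : ∑ r ∈ G, (F.filter (fun n => n % W0 = r)).card ≤ F.card := by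
    rw [← card_biUnion]
    · apply card_le_card
      intro n hn
      rw [mem_biUnion] at hn
      obtain ⟨r, _, hr⟩ := hn
      exact (mem_filter.1 hr).1
    · intro r _ r' _ hrr
      rw [Function.onFun, disjoint_left]
      intro n hn hn'
      rw [mem_filter] at hn hn'
      exact hrr (hn.2.symm.trans hn'.2)
  have h2 : ∀ r ∈ G, (1 - (1 / 2 : ℝ) ^ b) * (Li / (Nat.totient W0 : ℝ) * PP) - Er ≤ ((F.filter (fun n => n % W0 = r)).card : ℝ) := by
    intro r hr
    rw [hG, mem_filter, mem_range] at hr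
    have key := class_low C hF b J z0 w hb hz hz5 hw m0 m1 s r (fun p hp => hr.2 p hp 0) Li E hLi hE hAP
    have h3 : (Ioc m0 m1).filter (fun n => ((n + s 0).Prime ∧ n ≡ r [MOD W0]) ∧
        ∀ p ∈ (primes w).filter (fun p => z0 < p), n % p ∉ Om s p) ⊆ F.filter (fun n => n % W0 = r) := by
      intro n hn
      rw [mem_filter] at hn
      obtain ⟨hn1, ⟨hn2, hn3⟩, hn4⟩ := hn
      rw [mem_filter, hFd, mem_filter]
      refine ⟨⟨hn1, hn2, ?_⟩, ?_⟩
      · intro i
        left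
        intro p hp hd
        have hpp := mem_primes.1 hp
        by_cases hpz : p ≤ z0
        · have hpz' : p ∈ primes z0 := mem_primes.2 ⟨hpz, hpp.2⟩
          apply hr.2 p hpz' i
          have h4 : n ≡ r [MOD p] := hn3.of_dvd (dvd_prod_of_mem _ hpz')
          exact ((h4.add_right (s i)).dvd_iff (dvd_refl p)).1 hd
        · have h5 := hn4 p (mem_filter.2 ⟨hp, by omega⟩)
          have h6 : ∀ j, p ∣ n % p + s j ↔ p ∣ n + s j := fun j =>
            (((Nat.mod_modEq n p).add_right (s j)).dvd_iff (dvd_refl p))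
          by_cases h7 : p ∣ n + s 0
          · have h8 := (Nat.prime_dvd_prime_iff_eq hpp.2 hn2).1 h7
            rw [mem_Ioc] at hn1
            omega
          · exact h5 (mem_Om.2 ⟨Nat.mod_lt _ hpp.2.pos, fun h8 => h7 ((h6 0).1 h8), i, (h6 i).2 hd⟩)
      · unfold Nat.ModEq at hn3
        rw [hn3, Nat.mod_eq_of_lt hr.1]
    have h4 : (((Ioc m0 m1).filter (fun n => ((n + s 0).Prime ∧ n ≡ r [MOD W0]) ∧
        ∀ p ∈ (primes w).filter (fun p => z0 < p), n % p ∉ Om s p)).card : ℝ) ≤ ((F.filter (fun n => n % W0 = r)).card : ℝ) := by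
      exact_mod_cast card_le_card h3
    have h5 := (abs_le.1 key).1
    have h6 : (1 - (1 / 2 : ℝ) ^ b) * (Li / (Nat.totient W0 : ℝ) * PP) =
      (Li / (Nat.totient W0 : ℝ) * PP) - (1 / 2 : ℝ) ^ b * (Li / (Nat.totient W0 : ℝ) * PP) := by ring
    linarith
  have h3 := sum_le_sum h2
  rw [sum_const, nsmul_eq_mul] at h3
  have h4 : ((∑ r ∈ G, (F.filter (fun n => n % W0 = r)).card : ℕ) : ℝ) ≤ F.card := by exact_mod_cast h1
  push_cast at h4
  have h5 : (G.card : ℝ) = ∏ p ∈ primes z0, ((p : ℝ) - nu s p) := good_card z0 s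
  have h6 := prod_id z0 w hzw s Li
  have h7 : (G.card : ℝ) ≤ (W0 : ℝ) := by
    have : G.card ≤ W0 := (card_filter_le _ _).trans (by simp)
    exact_mod_cast this
  have h8 : (G.card : ℝ) * Er ≤ (W0 : ℝ) * Er := mul_le_mul_of_nonneg_right h7 hEr0
  have h9 : (G.card : ℝ) * ((1 - (1 / 2 : ℝ) ^ b) * (Li / (Nat.totient W0 : ℝ) * PP) - Er) =
      (1 - (1 / 2 : ℝ) ^ b) * ((G.card : ℝ) * (Li / (Nat.totient W0 : ℝ) * PP)) - (G.card : ℝ) * Er := by ring
  rw [h9, h5, h6, ← h5] at h3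
  linarith

end Pool.Agent.Helper34K9.PQ
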