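import Pool.Agent.Helper34K9.PQ.Loc
import Pool.Agent.TH423.SH.FLLP
import Pool.Agent.TH423.SH.FLIP
import Pool.Agent.H343R2.EH.Defs

set_option autoImplicit false

/-! One prime and three rough numbers: the sieve in one class. -/

namespace Pool.Agent.Helper34K9.PQ

open Finset H343E

lemma crt2' (a b : ℕ) (ha : 0 < a) (hb : 0 < b) (hab : Nat.Coprime a b) (A B : ℕ → Prop) [DecidablePred A] [DecidablePred B]
    (hA : ∀ n m : ℕ, n ≡ m [MOD a] → (A n ↔ A m)) (hB : ∀ n m : ℕ, n ≡ m [MOD b] → (B n ↔ B m)) :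
    ((range (a * b)).filter (fun n => A n ∧ B n)).card = ((range a).filter A).card * ((range b).filter B).card := by
  classical
  rw [← card_product]
  apply card_bij' (fun n _ => (n % a, n % b)) (fun q _ => (Nat.chineseRemainder hab q.1 q.2 : ℕ))
  · intro n hn
    rw [mem_filter, mem_range] at hn
    rw [mem_product, mem_filter, mem_filter, mem_range, mem_range]
    exact ⟨⟨Nat.mod_lt _ ha, (hA _ _ (Nat.mod_modEq n a)).2 hn.2.1⟩, Nat.mod_lt _ hb, (hB _ _ (Nat.mod_modEq n b)).2 hn.2.2⟩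
  · intro q hq
    rw [mem_product, mem_filter, mem_filter, mem_range, mem_range] at hq
    have h1 := (Nat.chineseRemainder hab q.1 q.2).2
    rw [mem_filter, mem_range]
    exact ⟨Nat.chineseRemainder_lt_mul hab _ _ ha.ne' hb.ne', (hA _ _ h1.1).2 hq.1.2, (hB _ _ h1.2).2 hq.2.2⟩
  · intro n hn
    rw [mem_filter, mem_range] at hn
    have h1 := (Nat.chineseRemainder hab (n % a) (n % b)).2
    have h2 : ((Nat.chineseRemainder hab (n % a) (n % b) : ℕ)) ≡ n [MOD a * b] :=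
      (Nat.modEq_and_modEq_iff_modEq_mul hab).1 ⟨h1.1.trans (Nat.mod_modEq n a), h1.2.trans (Nat.mod_modEq n b)⟩
    exact Nat.ModEq.eq_of_lt_of_lt h2 (Nat.chineseRemainder_lt_mul hab _ _ ha.ne' hb.ne') hn.1
  · intro q hq
    rw [mem_product, mem_filter, mem_filter, mem_range, mem_range] at hq
    have h1 := (Nat.chineseRemainder hab q.1 q.2).2
    apply Prod.ext
    · have h2 := h1.1
      unfold Nat.ModEq at h2
      simp only
      rw [h2, Nat.mod_eq_of_lt hq.1.1]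
    · have h2 := h1.2
      unfold Nat.ModEq at h2
      simp only
      rw [h2, Nat.mod_eq_of_lt hq.2.1]

lemma crtN' (P : Finset ℕ) (hP : ∀ p ∈ P, p.Prime) (A : ℕ → ℕ → Prop) [∀ p, DecidablePred (A p)]
    (hA : ∀ p n m : ℕ, n ≡ m [MOD p] → (A p n ↔ A p m)) :
    ((range (∏ p ∈ P, p)).filter (fun n => ∀ p ∈ P, A p n)).card = ∏ p ∈ P, ((range p).filter (A p)).card := by
  classical
  induction P using Finset.induction_on with
  | empty => simp
  | insert q P hq ih =>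
    have ih' := ih (fun p hp => hP p (mem_insert_of_mem hp))
    rw [prod_insert hq, prod_insert hq, ← ih']
    have hq0 : 0 < q := (hP q (mem_insert_self _ _)).pos
    have hP0 : 0 < ∏ p ∈ P, p := prod_pos fun p hp => (hP p (mem_insert_of_mem hp)).pos
    have hcop : Nat.Coprime q (∏ p ∈ P, p) := by
      apply Nat.Coprime.prod_right
      intro p hp
      rw [Nat.coprime_primes (hP q (mem_insert_self _ _)) (hP p (mem_insert_of_mem hp))]
      intro h
      rw [h] at hq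
      exact hq hp
    have h1 := crt2' q (∏ p ∈ P, p) hq0 hP0 hcop (A q) (fun n => ∀ p ∈ P, A p n) (hA q) (by
      intro n m h
      apply forall₂_congr
      intro p hp
      exact hA p n m (h.of_dvd (dvd_prod_of_mem _ hp)))
    rw [← h1]
    congr 1
    apply filter_congr
    intro n _
    simp only [mem_insert, forall_eq_or_imp]

/-- the fundamental lemma with the constant `C` -/
def FLB (C : ℕ) : Prop := ∀ (κ b J z0 : ℕ) (P : Finset ℕ) (g : ℕ → ℝ)
  (Om : ℕ → Finset ℕ), C * (κ + 1) ≤ b → C * (κ + 1) ≤ z0 →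
  (∀ p ∈ P, p.Prime ∧ z0 < p ∧ p ≤ 2 ^ 2 ^ J) →
  (∀ p ∈ P, (Om p).card ≤ κ) → (∀ p ∈ P, 0 ≤ g p ∧ g p ≤ 1 / ((p : ℝ) - 1)) →
  ∀ (S : Finset ℕ) (w : ℕ → ℝ) (A : ℝ) (err : ℕ → ℝ), (∀ n ∈ S, 0 ≤ w n) → 0 ≤ A →
    (∀ m, 0 ≤ err m) →
    (∀ T ⊆ P, ∏ p ∈ T, p ≤ (2 ^ 2 ^ J) ^ (C * b) → ∀ c : ℕ → ℕ, (∀ p ∈ T, c p ∈ Om p) →
      |∑ n ∈ S.filter (fun n => ∀ p ∈ T, n % p = c p), w n - A * ∏ p ∈ T, g p| ≤
        err (∏ p ∈ T, p)) →
    |∑ n ∈ S.filter (fun n => ∀ p ∈ P, n % p ∉ Om p), w n -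
        A * ∏ p ∈ P, (1 - ((Om p).card : ℝ) * g p)| ≤
      (1 / 2 : ℝ) ^ b * (A * ∏ p ∈ P, (1 - ((Om p).card : ℝ) * g p)) +
        ((J : ℝ) + 2) *
          ∑ T ∈ P.powerset.filter (fun T : Finset ℕ => ∏ p ∈ T, p ≤ (2 ^ 2 ^ J) ^ (C * b)),
            (κ : ℝ) ^ T.card * err (∏ p ∈ T, p)

lemma flb : ∃ C : ℕ, 1 ≤ C ∧ FLB C := Pool.Agent.TH423.SH.fll

/-- the number of the classes without `- s 0` -/
noncomputable def Om (s : Fin 4 → ℕ) (p : ℕ) : Finset ℕ := by
  classical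
  exact (range p).filter (fun c => ¬ p ∣ c + s 0 ∧ ∃ i, p ∣ c + s i)

open Classical in
lemma mem_Om {s : Fin 4 → ℕ} {p c : ℕ} : c ∈ Om s p ↔ c < p ∧ ¬ p ∣ c + s 0 ∧ ∃ i, p ∣ c + s i := by
  unfold Om
  rw [mem_filter, mem_range]

/-- one class less -/
lemma card_Om (s : Fin 4 → ℕ) (p : ℕ) (hp : 0 < p) : (Om s p).card + 1 = nu s p := by
  classical
  have h0 : ∃ c, c < p ∧ p ∣ c + s 0 := by
    refine ⟨(p - s 0 % p) % p, Nat.mod_lt _ hp, ?_⟩
    rw [Nat.dvd_iff_mod_eq_zero, Nat.add_mod, Nat.mod_mod]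
    have h1 : s 0 % p < p := Nat.mod_lt _ hp
    have h2 : ((p - s 0 % p) % p + s 0 % p) % p = ((p - s 0 % p) + s 0 % p) % p := by
      rw [Nat.add_mod ((p - s 0 % p) % p), Nat.mod_mod, ← Nat.add_mod]
    rw [h2, Nat.sub_add_cancel h1.le, Nat.mod_self]
  obtain ⟨c0, hc0, hd0⟩ := h0
  have h1 : (range p).filter (fun c => ∃ i, p ∣ c + s i) = insert c0 (Om s p) := by
    ext c
    rw [mem_filter, mem_range, mem_insert, mem_Om]
    constructor
    · rintro ⟨h2, h3⟩
      by_cases h4 : p ∣ c + s 0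
      · exact Or.inl (class_unique h2 hc0 h4 hd0)
      · exact Or.inr ⟨h2, h4, h3⟩
    · rintro (h2 | h2)
      · rw [h2]
        exact ⟨hc0, 0, hd0⟩
      · exact ⟨h2.1, h2.2.2⟩
  unfold nu
  rw [h1, card_insert_of_notMem]
  intro h2
  exact (mem_Om.1 h2).2.1 hd0

/-- one class -/
theorem class_low (C : ℕ) (hF : FLB C) (b J z0 w : ℕ) (hb : C * 5 ≤ b) (hz : C * 5 ≤ z0) (hz5 : 5 ≤ z0)
    (hw : w ≤ 2 ^ 2 ^ J) (m0 m1 : ℕ) (s : Fin 4 → ℕ) (r : ℕ) (hr : ∀ p ∈ primes z0, ¬ p ∣ r + s 0)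
    (Li E : ℝ) (hLi : 0 ≤ Li) (hE : 0 ≤ E)
    (hAP : ∀ q : ℕ, 1 ≤ q → q ≤ (∏ p ∈ primes z0, p) * (2 ^ 2 ^ J) ^ (C * b) → ∀ v : ℕ, (v + s 0).Coprime q →
      |(((Ioc m0 m1).filter (fun n => (n + s 0).Prime ∧ n ≡ v [MOD q])).card : ℝ) - Li / (Nat.totient q : ℝ)| ≤ E) :
    |(((Ioc m0 m1).filter (fun n => ((n + s 0).Prime ∧ n ≡ r [MOD ∏ p ∈ primes z0, p]) ∧
        ∀ p ∈ (primes w).filter (fun p => z0 < p), n % p ∉ Om s p)).card : ℝ) -
      Li / (Nat.totient (∏ p ∈ primes z0, p) : ℝ) * ∏ p ∈ (primes w).filter (fun p => z0 < p), (1 - ((Om s p).card : ℝ) * (1 / ((p : ℝ) - 1)))| ≤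
      (1 / 2 : ℝ) ^ b * (Li / (Nat.totient (∏ p ∈ primes z0, p) : ℝ) *
        ∏ p ∈ (primes w).filter (fun p => z0 < p), (1 - ((Om s p).card : ℝ) * (1 / ((p : ℝ) - 1)))) +
      ((J : ℝ) + 2) * ((((2 ^ 2 ^ J) ^ (C * b) : ℕ) : ℝ) * (((2 ^ 2 ^ J) ^ (C * b) : ℕ) : ℝ) * E) := by
  classical
  set W0 := ∏ p ∈ primes z0, p with hW0
  set P := (primes w).filter (fun p => z0 < p) with hP
  set D : ℕ := (2 ^ 2 ^ J) ^ (C * b) with hD
  have hPp : ∀ p ∈ P, p.Prime ∧ z0 < p ∧ p ≤ 2 ^ 2 ^ J := by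
    intro p hp
    rw [hP, mem_filter, mem_primes] at hp
    exact ⟨hp.1.2, hp.2, hp.1.1.trans hw⟩
  have hW0p : ∀ p ∈ primes z0, p.Prime := fun p hp => (mem_primes.1 hp).2
  have hW01 : 1 ≤ W0 := Nat.pos_of_ne_zero (prod_ne_zero_iff.2 fun p hp => (hW0p p hp).ne_zero)
  have hndvd : ∀ p ∈ P, ¬ p ∣ W0 := by
    intro p hp hd
    obtain ⟨h1, h2, _⟩ := hPp p hp
    rw [hW0, (Nat.Prime.prime h1).dvd_finset_prod_iff] at hd
    obtain ⟨q, hq, hpq⟩ := hd
    have h3 := (mem_primes.1 hq)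
    have h4 := (Nat.prime_dvd_prime_iff_eq h1 h3.2).1 hpq
    omega
  have hr0 : (r + s 0).Coprime W0 := by
    rw [hW0]
    apply Nat.Coprime.prod_right
    intro p hp
    exact ((Nat.Prime.coprime_iff_not_dvd (hW0p p hp)).2 (hr p hp)).symm
  have key := hF 4 b J z0 P (fun p => 1 / ((p : ℝ) - 1)) (Om s) (by omega) (by omega) hPp (by
      intro p hp
      have h1 := card_Om s p (hPp p hp).1.pos
      have h2 := nu_le_four s p
      omega) (by
      intro p hp
      have h1 : (1 : ℝ) < p := by exact_mod_cast (hPp p hp).1.one_lt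
      refine ⟨?_, le_rfl⟩
      have : 0 < (p : ℝ) - 1 := by linarith
      positivity)
    ((Ioc m0 m1).filter (fun n => (n + s 0).Prime ∧ n ≡ r [MOD W0])) (fun _ => (1 : ℝ)) (Li / (Nat.totient W0 : ℝ)) (fun _ => E)
    (fun _ _ => zero_le_one) (by positivity) (fun _ => hE) (by
      intro T hT hTD c hc
      have hTp : ∀ p ∈ T, p.Prime := fun p hp => (hPp p (hT hp)).1
      obtain ⟨v, hv⟩ := Pool.Agent.TH423.SH.FLIP.crt_set W0 r c T (fun p hp => ⟨hTp p hp, hndvd p (hT hp)⟩)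
        (fun p hp => (mem_Om.1 (hc p hp)).1)
      have hT1 : 1 ≤ ∏ p ∈ T, p := Nat.pos_of_ne_zero (prod_ne_zero_iff.2 fun p hp => (hTp p hp).ne_zero)
      have hv' := (hv v).2 (Nat.ModEq.refl _)
      have hvW : v ≡ r [MOD W0] := hv'.1
      have hcopW : (v + s 0).Coprime W0 := by
        have h1 : v + s 0 ≡ r + s 0 [MOD W0] := hvW.add_right _
        rw [Nat.Coprime, h1.gcd_eq]
        exact hr0
      have hcopT : (v + s 0).Coprime (∏ p ∈ T, p) := by
        apply Nat.Coprime.prod_right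
        intro p hp
        refine ((Nat.Prime.coprime_iff_not_dvd (hTp p hp)).2 ?_).symm
        intro hd
        apply (mem_Om.1 (hc p hp)).2.1
        have h1 : v + s 0 ≡ c p + s 0 [MOD p] := by
          apply Nat.ModEq.add_right
          unfold Nat.ModEq
          rw [hv'.2 p hp, Nat.mod_eq_of_lt (mem_Om.1 (hc p hp)).1]
        exact (h1.dvd_iff (dvd_refl p)).1 hd
      have h1 := hAP (W0 * ∏ p ∈ T, p) (Nat.mul_pos hW01 hT1) (Nat.mul_le_mul_left _ hTD) v
        (Nat.Coprime.mul_right hcopW hcopT)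
      have e1 : ∑ n ∈ ((Ioc m0 m1).filter (fun n => (n + s 0).Prime ∧ n ≡ r [MOD W0])).filter
          (fun n => ∀ p ∈ T, n % p = c p), (1 : ℝ) =
          (((Ioc m0 m1).filter (fun n => (n + s 0).Prime ∧ n ≡ v [MOD (W0 * ∏ p ∈ T, p)])).card : ℝ) := by
        rw [sum_const, nsmul_eq_mul, mul_one, filter_filter]
        congr 2
        apply filter_congr
        intro n _
        rw [← hv n]
        unfold Nat.ModEq
        tauto
      have e2 : Li / (Nat.totient W0 : ℝ) * ∏ p ∈ T, (1 / ((p : ℝ) - 1)) = Li / (Nat.totient (W0 * ∏ p ∈ T, p) : ℝ) := by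
        have hcop : Nat.Coprime W0 (∏ p ∈ T, p) := by
          apply Nat.Coprime.prod_right
          intro p hp
          exact ((Nat.Prime.coprime_iff_not_dvd (hTp p hp)).2 (hndvd p (hT hp))).symm
        rw [Nat.totient_mul hcop]
        have e3 : ((Nat.totient (∏ p ∈ T, p) : ℕ) : ℝ) = ∏ p ∈ T, ((p : ℝ) - 1) := by
          clear hcop e1 h1 hcopT hcopW hv' hv hTD hT1 hvW hc
          induction T using Finset.induction_on with
          | empty => simp
          | insert q T hq ih =>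
            have hqp := hTp q (mem_insert_self _ _)
            have hcop : Nat.Coprime q (∏ p ∈ T, p) := by
              apply Nat.Coprime.prod_right
              intro p hp
              rw [Nat.coprime_primes hqp (hTp p (mem_insert_of_mem hp))]
              intro h
              rw [h] at hq
              exact hq hp
            rw [prod_insert hq, prod_insert hq, Nat.totient_mul hcop, Nat.cast_mul,
              ih (fun p hp => hT (mem_insert_of_mem hp)) (fun p hp => hTp p (mem_insert_of_mem hp)), Nat.totient_prime hqp,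
              Nat.cast_sub hqp.one_le, Nat.cast_one]
        rw [Nat.cast_mul, e3]
        simp only [one_div]
        rw [prod_inv_distrib]
        rw [div_mul_eq_div_div, div_eq_mul_inv (Li / (Nat.totient W0 : ℝ))]
      rw [e1, e2]
      exact h1)
  have e3 : ∑ n ∈ ((Ioc m0 m1).filter (fun n => (n + s 0).Prime ∧ n ≡ r [MOD W0])).filter (fun n => ∀ p ∈ P, n % p ∉ Om s p), (1 : ℝ) =
      (((Ioc m0 m1).filter (fun n => ((n + s 0).Prime ∧ n ≡ r [MOD W0]) ∧ ∀ p ∈ P, n % p ∉ Om s p)).card : ℝ) := by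
    rw [sum_const, nsmul_eq_mul, mul_one, filter_filter]
  rw [e3] at key
  refine key.trans ?_
  apply add_le_add le_rfl
  apply mul_le_mul_of_nonneg_left _ (by positivity)
  have hcard : (P.powerset.filter (fun T : Finset ℕ => ∏ p ∈ T, p ≤ D)).card ≤ D := by
    calc _ ≤ (Icc 1 D).card := by
          apply card_le_card_of_injOn (fun T : Finset ℕ => ∏ p ∈ T, p)
          · intro T hT
            rw [mem_coe, mem_filter, mem_powerset] at hT
            have h5 : 1 ≤ ∏ p ∈ T, p := Nat.pos_of_ne_zero (prod_ne_zero_iff.2 fun p hp => (hPp p (hT.1 hp)).1.ne_zero)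
            exact mem_coe.2 (mem_Icc.2 ⟨h5, hT.2⟩)
          · intro T hT T' hT' he
            rw [mem_coe, mem_filter, mem_powerset] at hT hT'
            have h2 := Nat.primeFactors_prod (fun p hp => (hPp p (hT.1 hp)).1)
            have h3 := Nat.primeFactors_prod (fun p hp => (hPp p (hT'.1 hp)).1)
            rw [← h2, ← h3]
            exact congrArg Nat.primeFactors he
      _ = D := by rw [Nat.card_Icc, Nat.add_sub_cancel]
  calc ∑ T ∈ P.powerset.filter (fun T : Finset ℕ => ∏ p ∈ T, p ≤ D), (((4 : ℕ) : ℝ)) ^ T.card * E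
      ≤ ∑ _T ∈ P.powerset.filter (fun T : Finset ℕ => ∏ p ∈ T, p ≤ D), (D : ℝ) * E := by
        apply sum_le_sum
        intro T hT
        rw [mem_filter, mem_powerset] at hT
        apply mul_le_mul_of_nonneg_right _ hE
        have h2 : 4 ^ T.card ≤ ∏ p ∈ T, p := by
          rw [← prod_const]
          apply prod_le_prod'
          intro p hp
          have := (hPp p (hT.1 hp)).2.1
          omega
        exact_mod_cast h2.trans hT.2
    _ ≤ (D : ℝ) * D * E := by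
        rw [sum_const, nsmul_eq_mul]
        have h3 : ((P.powerset.filter (fun T : Finset ℕ => ∏ p ∈ T, p ≤ D)).card : ℝ) ≤ D := by exact_mod_cast hcard
        have h4 : 0 ≤ (D : ℝ) * E := by positivity
        calc _ ≤ (D : ℝ) * (D * E) := mul_le_mul_of_nonneg_right h3 h4
          _ = _ := by ring

end Pool.Agent.Helper34K9.PQ
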