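import Pool.Agent.Helper34K9.PQ.Stm

set_option autoImplicit false

/-! Local densities. -/

namespace Pool.Agent.Helper34K9.PQ

open Finset

lemma mem_primes {y p : ℕ} : p ∈ primes y ↔ p ≤ y ∧ p.Prime := by
  unfold primes
  rw [mem_filter, mem_Icc]
  exact ⟨fun h => ⟨h.1.2, h.2⟩, fun h => ⟨⟨h.2.one_le, h.1⟩, h.2⟩⟩

lemma nu_le_p (s : Fin 4 → ℕ) (p : ℕ) : nu s p ≤ p := by
  classical
  unfold nu
  exact (card_filter_le _ _).trans (by simp)

lemma class_unique {p t c c' : ℕ} (hc : c < p) (hc' : c' < p) (h : p ∣ c + t) (h' : p ∣ c' + t) : c = c' := by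
  have h1 : c + t ≡ c' + t [MOD p] := ((Nat.modEq_zero_iff_dvd.2 h).trans (Nat.modEq_zero_iff_dvd.2 h').symm)
  have h2 : c ≡ c' [MOD p] := Nat.ModEq.add_right_cancel' t h1
  unfold Nat.ModEq at h2
  rwa [Nat.mod_eq_of_lt hc, Nat.mod_eq_of_lt hc'] at h2

lemma nu_le_four (s : Fin 4 → ℕ) (p : ℕ) : nu s p ≤ 4 := by
  classical
  unfold nu
  have h1 : (range p).filter (fun c => ∃ i, p ∣ c + s i) ⊆
      (univ : Finset (Fin 4)).biUnion (fun i => (range p).filter (fun c => p ∣ c + s i)) := by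
    intro c hc
    rw [mem_filter] at hc
    obtain ⟨hc1, i, hi⟩ := hc
    rw [mem_biUnion]
    exact ⟨i, mem_univ i, mem_filter.2 ⟨hc1, hi⟩⟩
  refine (card_le_card h1).trans ?_
  refine card_biUnion_le.trans ?_
  have h2 : ∀ i ∈ (univ : Finset (Fin 4)), ((range p).filter (fun c => p ∣ c + s i)).card ≤ 1 := by
    intro i _
    rw [card_le_one]
    intro a ha b hb
    rw [mem_filter, mem_range] at ha hb
    exact class_unique ha.1 hb.1 ha.2 hb.2
  refine (sum_le_sum h2).trans ?_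
  simp

lemma V_pos (y : ℕ) : 0 < V y := by
  unfold V
  apply prod_pos
  intro p hp
  have h2 : (2 : ℝ) ≤ p := by exact_mod_cast (mem_primes.1 hp).2.two_le
  have h3 : 1 / (p : ℝ) ≤ 1 / 2 := one_div_le_one_div_of_le (by norm_num) h2
  linarith

lemma V_le_one (y : ℕ) : V y ≤ 1 := by
  unfold V
  apply prod_le_one
  · intro p hp
    have h2 : (2 : ℝ) ≤ p := by exact_mod_cast (mem_primes.1 hp).2.two_le
    have h3 : 1 / (p : ℝ) ≤ 1 / 2 := one_div_le_one_div_of_le (by norm_num) h2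
    linarith
  · intro p hp
    have : 0 ≤ 1 / (p : ℝ) := by positivity
    linarith

lemma fac_nonneg (s : Fin 4 → ℕ) (p : ℕ) : 0 ≤ 1 - (nu s p : ℝ) / p := by
  have h1 : (nu s p : ℝ) ≤ p := by exact_mod_cast nu_le_p s p
  have h2 : (nu s p : ℝ) / p ≤ 1 := div_le_one_of_le₀ h1 (Nat.cast_nonneg _)
  linarith

lemma PV_nonneg (y : ℕ) (s : Fin 4 → ℕ) : 0 ≤ PV y s := prod_nonneg fun p _ => fac_nonneg s p

lemma pow8 (p : ℕ) (hp : 5 ≤ p) : (1 - 1 / (p : ℝ)) ^ 8 ≤ 1 - 4 / p := by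
  by_cases h : p < 8
  · interval_cases p <;> norm_num
  · have h8 : (8 : ℝ) ≤ p := by exact_mod_cast (not_lt.1 h)
    have hp0 : (0 : ℝ) < p := by linarith
    set x : ℝ := 1 / p with hx
    have hx0 : 0 < x := by positivity
    have hx1 : x ≤ 1 / 8 := one_div_le_one_div_of_le (by norm_num) h8
    have e : 4 / (p : ℝ) = 4 * x := by rw [hx]; ring
    rw [e]
    have h2 : 1 - x ≤ 1 / (1 + x) := by
      rw [le_div_iff₀ (by linarith)]
      nlinarith
    have h3 : (1 - x) ^ 8 ≤ (1 / (1 + x)) ^ 8 := pow_le_pow_left₀ (by linarith) h2 8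
    have h4 : 1 + 8 * x ≤ (1 + x) ^ 8 := by
      have := one_add_mul_le_pow (show (-2 : ℝ) ≤ x by linarith) 8
      push_cast at this
      linarith
    have h5 : (1 / (1 + x)) ^ 8 ≤ 1 / (1 + 8 * x) := by
      rw [div_pow, one_pow]
      exact one_div_le_one_div_of_le (by linarith) h4
    have h6 : 1 / (1 + 8 * x) ≤ 1 - 4 * x := by
      rw [div_le_iff₀ (by linarith)]
      nlinarith
    linarith

/-- the product is zero or not too small -/
lemma PV_low (y : ℕ) (s : Fin 4 → ℕ) (h : PV y s ≠ 0) : V y ^ 8 ≤ PV y s := by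
  unfold V PV
  rw [← prod_pow]
  apply prod_le_prod
  · intro p hp
    have h2 : (2 : ℝ) ≤ p := by exact_mod_cast (mem_primes.1 hp).2.two_le
    have h3 : 1 / (p : ℝ) ≤ 1 / 2 := one_div_le_one_div_of_le (by norm_num) h2
    have : 0 ≤ 1 - 1 / (p : ℝ) := by linarith
    positivity
  · intro p hp
    have hpp := (mem_primes.1 hp).2
    have hp0 : (0 : ℝ) < p := by exact_mod_cast hpp.pos
    have hne : 1 - (nu s p : ℝ) / p ≠ 0 := by
      unfold PV at h
      exact prod_ne_zero_iff.1 h p hp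
    have hlt : nu s p < p := by
      rcases (nu_le_p s p).lt_or_eq with h1 | h1
      · exact h1
      · exfalso
        apply hne
        rw [h1, div_self hp0.ne', sub_self]
    by_cases h5 : 5 ≤ p
    · refine (pow8 p h5).trans ?_
      have h4 : (nu s p : ℝ) ≤ 4 := by exact_mod_cast nu_le_four s p
      have := div_le_div_of_nonneg_right h4 hp0.le
      linarith
    · have h6 : (nu s p : ℝ) ≤ p - 1 := by
        have : nu s p + 1 ≤ p := hlt
        have h7 : ((nu s p + 1 : ℕ) : ℝ) ≤ p := by exact_mod_cast this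
        push_cast at h7
        linarith
      have h7 : 1 / (p : ℝ) ≤ 1 - (nu s p : ℝ) / p := by
        rw [div_le_iff₀ hp0, sub_mul, one_mul, div_mul_cancel₀ _ hp0.ne']
        linarith
      refine le_trans ?_ h7
      have h8 := hpp.two_le
      interval_cases p <;> norm_num

end Pool.Agent.Helper34K9.PQ
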